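import Mathlib

set_option autoImplicit false

namespace Pool.Agent.H39.Feas

/-- The positions (0-based, increasing) of the letter `i` in the word `S`. -/
def positions (S : List ℕ) (i : ℕ) : List ℕ :=
  (List.range S.length).filter (fun p => S[p]? = some i)

/-- The cyclic distances of a letter with positions `p_1 < ... < p_d` in a cyclic word of length
`D`: the list `p_2 - p_1, ..., p_d - p_(d-1), (p_1 + D) - p_d`. -/
def cyclicDistances (D : ℕ) : List ℕ → List ℕ
  | [] => []
  | (p :: ps) => List.zipWith (fun b a => b - a) (ps ++ [p + D]) (p :: ps)

/-- `D = d_1 + ... + d_n`, where `d_i` is the length of the `i`-th vector. -/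
def total (I : List (List ℕ)) : ℕ := (I.map List.length).sum

/-- An instance: a list of vectors `α^1, ..., α^n`; the `i`-th one is a decomposition vector of `D`
into `d_i` components, `d_i` its length: nonempty, positive, non-increasing, with sum `D`. -/
structure IsInstance (I : List (List ℕ)) : Prop where
  nonempty : ∀ α ∈ I, α ≠ []
  pos : ∀ α ∈ I, ∀ a ∈ α, 0 < a
  sorted : ∀ α ∈ I, α.Pairwise (fun a b => b ≤ a)
  sum_eq : ∀ α ∈ I, α.sum = total I

/-- The word `S` (letters `0, ..., n-1`) is a just-in-time sequence realising the vectors: it has
length `D`, each letter `i < n` occurs exactly `d_i` times and the multiset of its cyclic distances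
is that of the components of `α^i`. -/
def Realises (I : List (List ℕ)) (S : List ℕ) : Prop :=
  S.length = total I ∧ (∀ a ∈ S, a < I.length) ∧
  ∀ (i : ℕ) (h : i < I.length),
    S.count i = (I[i]).length ∧ (cyclicDistances (total I) (positions S i)).Perm I[i]

/-- The decision problem FEAS. -/
def FEAS (I : List (List ℕ)) : Prop := IsInstance I ∧ ∃ S : List ℕ, Realises I S

end Pool.Agent.H39.Feas
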