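import Mathlib
import Pool.Agent.H39.FeasDefs

set_option autoImplicit false

namespace Pool.Agent.H39.Feas

/-! ### positions -/

theorem mem_positions {S : List ℕ} {i p : ℕ} : p ∈ positions S i ↔ S[p]? = some i := by
  unfold positions
  rw [List.mem_filter, List.mem_range]
  constructor
  · rintro ⟨_, h⟩; simpa using h
  · intro h
    refine ⟨?_, by simpa using h⟩
    by_contra hlt
    rw [List.getElem?_eq_none (by omega)] at h
    cases h

theorem positions_lt {S : List ℕ} {i p : ℕ} (h : p ∈ positions S i) : p < S.length := by
  unfold positions at h
  rw [List.mem_filter, List.mem_range] at h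
  exact h.1

theorem positions_nil (i : ℕ) : positions [] i = [] := rfl

theorem positions_append (A B : List ℕ) (i : ℕ) :
    positions (A ++ B) i = positions A i ++ (positions B i).map (· + A.length) := by
  unfold positions
  rw [List.length_append, List.range_add, List.filter_append]
  congr 1
  · apply List.filter_congr
    intro p hp
    rw [List.mem_range] at hp
    rw [List.getElem?_append_left hp]
  · rw [List.filter_map]
    have : (fun x => A.length + x) = (fun x => x + A.length) := by funext x; omega
    rw [this]
    congr 1
    apply List.filter_congr
    intro p _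
    simp only [Function.comp_apply]
    rw [List.getElem?_append_right (by omega), Nat.add_sub_cancel]

theorem positions_singleton_self (i : ℕ) : positions [i] i = [0] := by
  simp [positions]

theorem positions_singleton_ne {i j : ℕ} (h : j ≠ i) : positions [j] i = [] := by
  simp [positions, h]

theorem positions_cons (a : ℕ) (S : List ℕ) (i : ℕ) :
    positions (a :: S) i = (if a = i then [0] else []) ++ (positions S i).map (· + 1) := by
  have : a :: S = [a] ++ S := rfl
  rw [this, positions_append]
  congr 1
  split_ifs with h
  · rw [h, positions_singleton_self]
  · rw [positions_singleton_ne h]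

theorem positions_of_notMem {S : List ℕ} {i : ℕ} (h : i ∉ S) : positions S i = [] := by
  rw [List.eq_nil_iff_forall_not_mem]
  intro p hp
  rw [mem_positions] at hp
  exact h (List.mem_of_getElem? hp)

theorem length_positions (S : List ℕ) (i : ℕ) : (positions S i).length = S.count i := by
  induction S with
  | nil => rfl
  | cons a S ih =>
    rw [positions_cons, List.length_append, List.length_map, ih, List.count_cons]
    by_cases h : a = i
    · subst h; simp; omega
    · simp [h]

theorem positions_replicate (x i : ℕ) : positions (List.replicate x i) i = List.range x := by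
  unfold positions
  rw [List.length_replicate, List.filter_eq_self]
  intro p hp
  rw [List.mem_range] at hp
  simp [hp]

theorem positions_sorted (S : List ℕ) (i : ℕ) : (positions S i).Pairwise (· < ·) :=
  List.Pairwise.filter _ List.pairwise_lt_range

/-! ### cyclic distances -/

theorem cyclicDistances_shift (D k : ℕ) (ps : List ℕ) :
    cyclicDistances D (ps.map (· + k)) = cyclicDistances D ps := by
  cases ps with
  | nil => rfl
  | cons p ps =>
    simp only [List.map_cons, cyclicDistances]
    have h1 : List.map (· + k) ps ++ [p + k + D] = List.map (· + k) (ps ++ [p + D]) := by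
      rw [List.map_append]
      simp only [List.map_cons, List.map_nil]
      congr 2
      omega
    have h2 : (p + k) :: List.map (· + k) ps = List.map (· + k) (p :: ps) := rfl
    rw [h1, h2, List.zipWith_map]
    congr 1
    funext b a
    omega

theorem length_cyclicDistances (D : ℕ) (ps : List ℕ) : (cyclicDistances D ps).length = ps.length := by
  cases ps with
  | nil => rfl
  | cons p ps => simp [cyclicDistances]

/-- last entry of the distance list -/
theorem last_mem_cyclicDistances (D p : ℕ) (ps : List ℕ) :
    (p + D) - (p :: ps).getLast (by simp) ∈ cyclicDistances D (p :: ps) := by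
  have key : ∀ (ps : List ℕ) (q e : ℕ),
      e - (q :: ps).getLast (by simp) ∈ List.zipWith (fun b a => b - a) (ps ++ [e]) (q :: ps) := by
    intro ps
    induction ps with
    | nil => intro q e; simp
    | cons r ps ih =>
      intro q e
      have := ih r e
      simp only [List.cons_append, List.zipWith_cons_cons, List.mem_cons]
      right
      rw [List.getLast_cons (by simp)]
      exact this
  exact key ps p (p + D)

/-- rotation by one -/
theorem cyclicDistances_rotate (a : ℕ) (T : List ℕ) (i : ℕ) :
    (cyclicDistances (T.length + 1) (positions (T ++ [a]) i)).Perm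
      (cyclicDistances (T.length + 1) (positions (a :: T) i)) := by
  rw [positions_append, positions_cons a T]
  by_cases h : a = i
  · subst h
    rw [positions_singleton_self, if_pos rfl]
    have hlt := fun p => positions_lt (S := T) (i := a) (p := p)
    generalize positions T a = ps at *
    simp only [List.map_cons, List.map_nil, Nat.zero_add]
    cases ps with
    | nil => simp [cyclicDistances]
    | cons p ps =>
      show (List.zipWith (fun b a => b - a) ((ps ++ [T.length]) ++ [p + (T.length + 1)])
        (p :: (ps ++ [T.length]))).Perm _
      have e0 : ([0] : List ℕ) ++ List.map (· + 1) (p :: ps) = 0 :: (p + 1) :: List.map (· + 1) ps := rfl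
      rw [e0]
      simp only [cyclicDistances, Nat.zero_add]
      -- general identity
      have key : ∀ (ps : List ℕ) (q : ℕ) (L e : ℕ),
          List.zipWith (fun b a => b - a) ((ps ++ [L]) ++ [e]) (q :: (ps ++ [L])) =
          List.zipWith (fun b a => b - a) (ps ++ [L]) (q :: ps) ++ [e - L] := by
        intro ps
        induction ps with
        | nil => intro q L e; simp
        | cons r ps ih =>
          intro q L e
          simp only [List.cons_append, List.zipWith_cons_cons]
          rw [ih]
      rw [key]
      have e1 : ((p + 1) :: List.map (· + 1) ps) ++ [T.length + 1] =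
          (p + 1) :: (List.map (· + 1) ps ++ [T.length + 1]) := rfl
      rw [e1, List.zipWith_cons_cons]
      have e2 : List.zipWith (fun b a => b - a) (List.map (· + 1) ps ++ [T.length + 1])
          ((p + 1) :: List.map (· + 1) ps) =
          List.zipWith (fun b a => b - a) (ps ++ [T.length]) (p :: ps) := by
        have h1 : List.map (· + 1) ps ++ [T.length + 1] = List.map (· + 1) (ps ++ [T.length]) := by
          simp
        have h2 : (p + 1) :: List.map (· + 1) ps = List.map (· + 1) (p :: ps) := rfl
        rw [h1, h2, List.zipWith_map]
        congr 1
        funext b a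
        omega
      rw [e2]
      have hp := hlt p (by simp)
      have e3 : p + (T.length + 1) - T.length = p + 1 - 0 := by omega
      rw [e3]
      exact (List.perm_append_singleton _ _)
  · rw [positions_singleton_ne h, if_neg h, List.map_nil, List.append_nil, List.nil_append,
      cyclicDistances_shift]

theorem cyclicDistances_rotate_k (S : List ℕ) (i k : ℕ) :
    (cyclicDistances S.length (positions (S.rotate k) i)).Perm
      (cyclicDistances S.length (positions S i)) := by
  induction k with
  | zero => rw [List.rotate_zero]
  | succ k ih =>
    refine List.Perm.trans ?_ ih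
    rw [← List.rotate_rotate]
    have hlen : (S.rotate k).length = S.length := List.length_rotate S k
    generalize S.rotate k = R at *
    cases R with
    | nil => simp
    | cons a T =>
      rw [List.rotate_cons_succ, List.rotate_zero]
      rw [← hlen, List.length_cons]
      exact cyclicDistances_rotate a T i

/-! ### the separator letter `0` -/

/-- the word `0 L_1 0 L_2 ...` -/
def word0 (Ls : List (List ℕ)) : List ℕ := (Ls.map (fun L => 0 :: L)).flatten

theorem word0_cons (L : List ℕ) (Ls : List (List ℕ)) : word0 (L :: Ls) = (0 :: L) ++ word0 Ls := rfl

theorem exists_word0 (T : List ℕ) : ∃ L Ls, 0 :: T = word0 (L :: Ls) ∧ ∀ L' ∈ L :: Ls, 0 ∉ L' := by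
  induction T with
  | nil => exact ⟨[], [], rfl, by simp⟩
  | cons a T ih =>
    obtain ⟨L, Ls, h1, h2⟩ := ih
    by_cases ha : a = 0
    · subst ha
      refine ⟨[], L :: Ls, ?_, ?_⟩
      · rw [word0_cons, ← h1]; rfl
      · intro L' hL'
        rcases List.mem_cons.1 hL' with h | h
        · rw [h]; simp
        · exact h2 L' h
    · refine ⟨a :: L, Ls, ?_, ?_⟩
      · rw [word0_cons] at h1 ⊢
        have : T = L ++ word0 Ls := by
          have := h1
          simp only [List.cons_append, List.cons.injEq, true_and] at this
          exact this
        rw [this]; rfl
      · intro L' hL'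
        rcases List.mem_cons.1 hL' with h | h
        · rw [h]
          intro h0
          rcases List.mem_cons.1 h0 with h0 | h0
          · exact ha h0.symm
          · exact h2 L (by simp) h0
        · exact h2 L' (by simp [h])

theorem positions_word0_cons (L : List ℕ) (Ls : List (List ℕ)) (h : 0 ∉ L) :
    positions (word0 (L :: Ls)) 0 = 0 :: (positions (word0 Ls) 0).map (· + (L.length + 1)) := by
  rw [word0_cons, positions_append, positions_cons, if_pos rfl, positions_of_notMem h]
  simp

theorem length_word0 (Ls : List (List ℕ)) : (word0 Ls).length = (Ls.map (fun L => L.length + 1)).sum := by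
  unfold word0
  rw [List.length_flatten, List.map_map]
  rfl

theorem zip_word0 (Ls : List (List ℕ)) : ∀ (L : List ℕ) (k : ℕ), (∀ L' ∈ L :: Ls, 0 ∉ L') →
    List.zipWith (fun b a => b - a)
      ((positions (word0 Ls) 0).map (· + (k + L.length + 1)) ++ [k + (word0 (L :: Ls)).length])
      (k :: (positions (word0 Ls) 0).map (· + (k + L.length + 1))) =
      (L :: Ls).map (fun L => L.length + 1) := by
  induction Ls with
  | nil =>
    intro L k _
    simp [word0, positions_nil]
  | cons L' Ls ih =>
    intro L k h
    have h' : 0 ∉ L' := h L' (by simp)
    rw [positions_word0_cons L' Ls h']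
    have e : (0 :: (positions (word0 Ls) 0).map (· + (L'.length + 1))).map (· + (k + L.length + 1)) =
        (k + L.length + 1) :: (positions (word0 Ls) 0).map (· + ((k + L.length + 1) + L'.length + 1)) := by
      simp only [List.map_cons, Nat.zero_add, List.map_map]
      congr 1
      apply List.map_congr_left
      intro a _
      simp only [Function.comp_apply]
      omega
    rw [e, List.cons_append, List.zipWith_cons_cons]
    have ih' := ih L' (k + L.length + 1) (fun L'' h'' => h L'' (by
      rcases List.mem_cons.1 h'' with h1 | h1
      · simp [h1]
      · simp [h1]))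
    have e2 : k + (word0 (L :: L' :: Ls)).length = (k + L.length + 1) + (word0 (L' :: Ls)).length := by
      rw [word0_cons]
      simp only [List.length_append, List.length_cons]
      omega
    rw [e2, ih']
    simp only [List.map_cons, List.cons.injEq, and_true]
    omega

theorem cyclicDistances_word0 (L : List ℕ) (Ls : List (List ℕ)) (h : ∀ L' ∈ L :: Ls, 0 ∉ L') :
    cyclicDistances (word0 (L :: Ls)).length (positions (word0 (L :: Ls)) 0) =
      (L :: Ls).map (fun L => L.length + 1) := by
  have := zip_word0 Ls L 0 h
  rw [positions_word0_cons L Ls (h L (by simp))]
  simp only [cyclicDistances]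
  simp only [Nat.zero_add] at this ⊢
  exact this

/-! ### block letters -/

theorem range_map_add (x k : ℕ) : (List.range x).map (· + k) = List.range' k x := by
  apply List.ext_getElem
  · simp
  · intro i h1 h2
    simp
    omega

theorem cyclicDistances_range (D x : ℕ) (hx : 1 ≤ x) :
    (cyclicDistances D (List.range x)).Perm ((D - (x - 1)) :: List.replicate (x - 1) 1) := by
  obtain ⟨y, rfl⟩ : ∃ y, x = y + 1 := ⟨x - 1, by omega⟩
  have key : ∀ (y k e : ℕ), List.zipWith (fun b a => b - a) (List.range' (k + 1) y ++ [e])
      (List.range' k (y + 1)) = List.replicate y 1 ++ [e - (k + y)] := by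
    intro y
    induction y with
    | zero => intro k e; simp
    | succ y ih =>
      intro k e
      rw [List.range'_succ (s := k + 1), List.range'_succ (s := k), List.cons_append,
        List.zipWith_cons_cons, ih (k + 1) e, List.replicate_succ, List.cons_append]
      congr 1
      · omega
      · congr 2; omega
  have h1 : cyclicDistances D (List.range (y + 1)) = List.replicate y 1 ++ [D - y] := by
    rw [List.range_eq_range', List.range'_succ]
    simp only [cyclicDistances]
    have := key y 0 (0 + D)
    rw [List.range'_succ (s := 0)] at this
    rw [this]
    simp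
  rw [h1, Nat.add_sub_cancel]
  exact List.perm_append_singleton _ _

/-- the vector of a block of length `x` -/
def blockVec (D x : ℕ) : List ℕ := (D - (x - 1)) :: List.replicate (x - 1) 1

theorem cyclicDistances_block (D : ℕ) (A B : List ℕ) (i x : ℕ) (hx : 1 ≤ x) (hA : i ∉ A) (hB : i ∉ B) :
    (cyclicDistances D (positions (A ++ (List.replicate x i ++ B)) i)).Perm (blockVec D x) := by
  rw [positions_append, positions_append, positions_of_notMem hA, positions_of_notMem hB,
    positions_replicate, List.map_nil, List.append_nil, List.nil_append, cyclicDistances_shift]
  exact cyclicDistances_range D x hx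

/-- In a word starting with `0`, a letter `i ≠ 0` with the distance vector of a block occupies
consecutive positions. -/
theorem block_contiguous {T : List ℕ} {i x : ℕ} (hi : i ≠ 0) (hx : 1 ≤ x)
    (hcount : (0 :: T).count i = x)
    (hperm : (cyclicDistances (0 :: T).length (positions (0 :: T) i)).Perm
      (blockVec (0 :: T).length x)) :
    ∀ p q r : ℕ, (0 :: T)[p]? = some i → (0 :: T)[q]? = some i → p ≤ r → r ≤ q →
      (0 :: T)[r]? = some i := by
  set S := 0 :: T with hS
  set D := S.length with hD
  have hsort := positions_sorted S i
  have hlen := length_positions S i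
  have hlt := fun p => positions_lt (S := S) (i := i) (p := p)
  have hmem := fun p => mem_positions (S := S) (i := i) (p := p)
  have hpos : ∀ p ∈ positions S i, 1 ≤ p := by
    intro p hp
    rcases Nat.eq_zero_or_pos p with h0 | h0
    · subst h0
      rw [mem_positions, hS] at hp
      simp only [List.getElem?_cons_zero, Option.some.injEq] at hp
      exact absurd hp.symm hi
    · exact h0
  have hxD : x ≤ D := by
    rw [← hcount]; exact List.count_le_length
  obtain ⟨p0, ps, hps⟩ : ∃ p0 ps, positions S i = p0 :: ps := by
    cases h : positions S i with
    | nil => rw [h] at hlen; simp at hlen; omega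
    | cons a l => exact ⟨a, l, rfl⟩
  -- last element
  have hlast := last_mem_cyclicDistances D p0 ps
  have hl2 := hperm.mem_iff.1 (by rw [hps]; exact hlast)
  have hlastmem : (p0 :: ps).getLast (by simp) ∈ positions S i := by
    rw [hps]; exact List.getLast_mem _
  set l := (p0 :: ps).getLast (by simp) with hl
  have hlD := hlt l hlastmem
  have hp01 : 1 ≤ p0 := hpos p0 (by rw [hps]; simp)
  have hval : p0 + D - l = D - (x - 1) := by
    unfold blockVec at hl2
    have hl2' : p0 + D - l = D - (x - 1) ∨ p0 + D - l ∈ List.replicate (x - 1) 1 := by
      have := List.mem_cons.1 hl2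
      exact this
    rcases hl2' with h | h
    · exact h
    · have := List.eq_of_mem_replicate h
      omega
  have hspan : l = p0 + (x - 1) := by omega
  -- all positions lie in [p0, l]
  have hlow : ∀ p ∈ positions S i, p0 ≤ p := by
    intro p hp
    rw [hps] at hp hsort
    rcases List.mem_cons.1 hp with h | h
    · omega
    · exact le_of_lt ((List.pairwise_cons.1 hsort).1 p h)
  have hup : ∀ p ∈ positions S i, p ≤ l := by
    have gen : ∀ (L : List ℕ) (hne : L ≠ []), L.Pairwise (· < ·) → ∀ p ∈ L, p ≤ L.getLast hne := by
      intro L
      induction L with
      | nil => intro h; exact absurd rfl h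
      | cons a L ih =>
        intro hne hL p hp
        rcases L with _ | ⟨b, L⟩
        · simp at hp ⊢; omega
        · rw [List.getLast_cons (by simp)]
          rw [List.pairwise_cons] at hL
          rcases List.mem_cons.1 hp with h | h
          · subst h
            exact le_trans (le_of_lt (hL.1 b (by simp))) (ih (by simp) hL.2 b (by simp))
          · exact ih (by simp) hL.2 p h
    intro p hp
    rw [hps] at hp hsort
    exact gen (p0 :: ps) (by simp) hsort p hp
  have hset : (positions S i).toFinset = Finset.Icc p0 l := by
    apply Finset.eq_of_subset_of_card_le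
    · intro p hp
      rw [List.mem_toFinset] at hp
      rw [Finset.mem_Icc]
      exact ⟨hlow p hp, hup p hp⟩
    · rw [Nat.card_Icc, List.toFinset_card_of_nodup (hsort.imp (fun h => ne_of_lt h)), hlen, hcount]
      omega
  intro p q r hp hq hpr hrq
  have h1 := hlow p ((hmem p).2 hp)
  have h2 := hup q ((hmem q).2 hq)
  apply (hmem r).1
  rw [← List.mem_toFinset, hset, Finset.mem_Icc]
  omega

end Pool.Agent.H39.Feas
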