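import Mathlib
import Pool.Agent.H39.FeasComb

set_option autoImplicit false

namespace Pool.Agent.H39.Feas

/-- The items can be distributed to bins with prescribed total weights `cs`. -/
def PackL {ι : Type} (items : List ι) (w : ι → ℕ) (cs : List ℕ) : Prop :=
  ∃ bins : List (List ι), bins.flatten.Perm items ∧ bins.map (fun b => (b.map w).sum) = cs

/-- The instance of FEAS built from item sizes `xs` and bin sizes `cs`. -/
def feasInst (xs cs : List ℕ) : List (List ℕ) :=
  (cs.map (· + 1)) :: xs.map (blockVec (cs.map (· + 1)).sum)

theorem sum_map_succ (cs : List ℕ) : (cs.map (· + 1)).sum = cs.sum + cs.length := by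
  induction cs with
  | nil => rfl
  | cons c cs ih => simp only [List.map_cons, List.sum_cons, List.length_cons, ih]; omega

theorem length_blockVec (D x : ℕ) (hx : 1 ≤ x) : (blockVec D x).length = x := by
  simp [blockVec]; omega

theorem total_feasInst (xs cs : List ℕ) (hx : ∀ x ∈ xs, 1 ≤ x) (hsum : xs.sum = cs.sum) :
    total (feasInst xs cs) = (cs.map (· + 1)).sum := by
  unfold total feasInst
  rw [List.map_cons, List.sum_cons, List.length_map, List.map_map]
  have : xs.map (List.length ∘ blockVec (cs.map (· + 1)).sum) = xs := by
    conv_rhs => rw [← List.map_id xs]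
    apply List.map_congr_left
    intro x hxm
    exact length_blockVec _ _ (hx x hxm)
  rw [this, sum_map_succ, hsum]
  omega

theorem isInstance_feasInst (xs cs : List ℕ) (hcs : cs ≠ []) (hsort : cs.Pairwise (fun a b => b ≤ a))
    (hx : ∀ x ∈ xs, 1 ≤ x) (hsum : xs.sum = cs.sum) : IsInstance (feasInst xs cs) := by
  have hD : ∀ x ∈ xs, x ≤ (cs.map (· + 1)).sum := by
    intro x hxm
    have h1 : x ≤ xs.sum := List.le_sum_of_mem hxm
    rw [sum_map_succ]; omega
  constructor
  · intro α hα
    rcases List.mem_cons.1 hα with h | h
    · rw [h]; simpa using hcs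
    · obtain ⟨x, _, rfl⟩ := List.mem_map.1 h
      simp [blockVec]
  · intro α hα a ha
    rcases List.mem_cons.1 hα with h | h
    · rw [h] at ha
      obtain ⟨c, _, rfl⟩ := List.mem_map.1 ha
      omega
    · obtain ⟨x, hxm, rfl⟩ := List.mem_map.1 h
      unfold blockVec at ha
      have h1 := hx x hxm
      have h2 := hD x hxm
      rcases List.mem_cons.1 ha with h | h
      · omega
      · rw [List.eq_of_mem_replicate h]; omega
  · intro α hα
    rcases List.mem_cons.1 hα with h | h
    · rw [h, List.pairwise_map]
      exact hsort.imp (fun h => by omega)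
    · obtain ⟨x, hxm, rfl⟩ := List.mem_map.1 h
      have h1 := hx x hxm
      have h2 := hD x hxm
      unfold blockVec
      rw [List.pairwise_cons]
      constructor
      · intro b hb
        rw [List.eq_of_mem_replicate hb]; omega
      · rw [List.pairwise_replicate]
        right; exact le_rfl
  · intro α hα
    rw [total_feasInst xs cs hx hsum]
    rcases List.mem_cons.1 hα with h | h
    · rw [h]
    · obtain ⟨x, hxm, rfl⟩ := List.mem_map.1 h
      have h1 := hx x hxm
      have h2 := hD x hxm
      simp only [blockVec, List.sum_cons, List.sum_replicate, smul_eq_mul, mul_one]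
      omega

/-- blocks of the items of a bin -/
def expand (x : ℕ → ℕ) (b : List ℕ) : List ℕ := b.flatMap (fun i => List.replicate (x i) (i + 1))

theorem length_expand (x : ℕ → ℕ) (b : List ℕ) : (expand x b).length = (b.map x).sum := by
  unfold expand
  rw [List.length_flatMap]
  congr 1
  apply List.map_congr_left
  intro i _
  simp

theorem zero_notMem_expand (x : ℕ → ℕ) (b : List ℕ) : 0 ∉ expand x b := by
  unfold expand
  rw [List.mem_flatMap]
  rintro ⟨i, _, h⟩
  have := List.eq_of_mem_replicate h
  omega

theorem mem_expand {x : ℕ → ℕ} {b : List ℕ} {a : ℕ} (h : a ∈ expand x b) : ∃ i ∈ b, a = i + 1 := by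
  unfold expand at h
  rw [List.mem_flatMap] at h
  obtain ⟨i, h1, h2⟩ := h
  exact ⟨i, h1, List.eq_of_mem_replicate h2⟩

theorem mem_word0 {Ls : List (List ℕ)} {a : ℕ} (h : a ∈ word0 Ls) : a = 0 ∨ ∃ L ∈ Ls, a ∈ L := by
  unfold word0 at h
  rw [List.mem_flatten] at h
  obtain ⟨l, hl, ha⟩ := h
  obtain ⟨L, hL, rfl⟩ := List.mem_map.1 hl
  rcases List.mem_cons.1 ha with h | h
  · exact Or.inl h
  · exact Or.inr ⟨L, hL, h⟩

theorem word0_append (A B : List (List ℕ)) : word0 (A ++ B) = word0 A ++ word0 B := by
  simp [word0]

/-- from a packing to a realising word -/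
theorem realises_of_pack (xs cs : List ℕ) (hcs : cs ≠ []) (hx : ∀ x ∈ xs, 1 ≤ x)
    (hsum : xs.sum = cs.sum)
    (h : PackL (List.range xs.length) (fun i => xs.getD i 0) cs) :
    ∃ S, Realises (feasInst xs cs) S := by
  obtain ⟨bins, hperm, hbins⟩ := h
  set x : ℕ → ℕ := fun i => xs.getD i 0 with hxdef
  have htot := total_feasInst xs cs hx hsum
  have hbne : bins ≠ [] := by
    rintro rfl
    apply hcs
    rw [← hbins]; rfl
  set Ls := bins.map (expand x) with hLs
  have hLlen : Ls.map (fun L => L.length + 1) = cs.map (· + 1) := by
    rw [hLs, List.map_map, ← hbins, List.map_map]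
    apply List.map_congr_left
    intro b _
    simp only [Function.comp_apply, length_expand]
  have h0 : ∀ L ∈ Ls, 0 ∉ L := by
    intro L hL
    obtain ⟨b, _, rfl⟩ := List.mem_map.1 hL
    exact zero_notMem_expand x b
  have hSlen : (word0 Ls).length = total (feasInst xs cs) := by
    rw [length_word0, hLlen, htot]
  have hnodup : bins.flatten.Nodup := hperm.nodup_iff.2 List.nodup_range
  refine ⟨word0 Ls, hSlen, ?_, ?_⟩
  · intro a ha
    have hlen : (feasInst xs cs).length = xs.length + 1 := by simp [feasInst]
    rw [hlen]
    rcases mem_word0 ha with h | ⟨L, hL, haL⟩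
    · omega
    · obtain ⟨b, hb, rfl⟩ := List.mem_map.1 hL
      obtain ⟨i, hi, rfl⟩ := mem_expand haL
      have : i ∈ bins.flatten := List.mem_flatten.2 ⟨b, hb, hi⟩
      rw [hperm.mem_iff, List.mem_range] at this
      omega
  · intro i hi
    have hlenI : (feasInst xs cs).length = xs.length + 1 := by simp [feasInst]
    rcases i with _ | i
    · -- separator letter
      have e : (feasInst xs cs)[0] = cs.map (· + 1) := rfl
      rw [e]
      obtain ⟨L, Ls', hLL⟩ : ∃ L Ls', Ls = L :: Ls' := by
        cases hL : Ls with
        | nil =>
          exfalso; apply hbne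
          have : bins.map (expand x) = [] := by rw [← hLs, hL]
          simpa using this
        | cons a b => exact ⟨a, b, rfl⟩
      have hc : cyclicDistances (total (feasInst xs cs)) (positions (word0 Ls) 0) =
          cs.map (· + 1) := by
        rw [← hSlen, hLL, cyclicDistances_word0 L Ls' (by rw [← hLL]; exact h0), ← hLL, hLlen]
      constructor
      · rw [← length_positions, ← length_cyclicDistances (total (feasInst xs cs)), hc]
      · rw [hc]
    · have hilt : i < xs.length := by omega
      have hxi : x i = xs[i] := by
        rw [hxdef]; exact List.getD_eq_getElem _ _ hilt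
      have hx1 : 1 ≤ x i := by rw [hxi]; exact hx _ (List.getElem_mem _)
      have e : (feasInst xs cs)[i+1] = blockVec (cs.map (· + 1)).sum xs[i] := by
        simp [feasInst]
      rw [e, ← htot, ← hSlen, ← hxi]
      -- locate item i
      have hmem : i ∈ bins.flatten := by rw [hperm.mem_iff, List.mem_range]; exact hilt
      obtain ⟨b, hb, hib⟩ := List.mem_flatten.1 hmem
      obtain ⟨B1, B2, hB⟩ := List.append_of_mem hb
      obtain ⟨b1, b2, hb12⟩ := List.append_of_mem hib
      have hnd : (B1.flatten ++ ((b1 ++ i :: b2) ++ B2.flatten)).Nodup := by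
        have := hnodup
        rw [hB, hb12, List.flatten_append, List.flatten_cons] at this
        exact this
      have hiB1 : i ∉ B1.flatten := by
        intro h
        exact (List.disjoint_of_nodup_append hnd) h (by simp)
      have hnd2 := (List.nodup_append.1 hnd).2.1
      have hiB2 : i ∉ B2.flatten := by
        intro h
        exact (List.disjoint_of_nodup_append hnd2) (by simp) h
      have hnd3 := (List.nodup_append.1 hnd2).1
      have hib1 : i ∉ b1 := by
        intro h
        exact (List.disjoint_of_nodup_append hnd3) h (by simp)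
      have hib2 : i ∉ b2 := by
        have := (List.nodup_append.1 hnd3).2.1
        exact (List.nodup_cons.1 this).1
      have hS : word0 Ls = (word0 (B1.map (expand x)) ++ (0 :: expand x b1)) ++
          (List.replicate (x i) (i + 1) ++ (expand x b2 ++ word0 (B2.map (expand x)))) := by
        rw [hLs, hB, hb12, List.map_append, word0_append, List.map_cons, word0_cons]
        have : expand x (b1 ++ i :: b2) = expand x b1 ++ (List.replicate (x i) (i+1) ++ expand x b2) := by
          simp [expand]
        rw [this]
        simp
      have hA : i + 1 ∉ (word0 (B1.map (expand x)) ++ (0 :: expand x b1)) := by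
        rw [List.mem_append]
        rintro (h | h)
        · rcases mem_word0 h with h | ⟨L, hL, haL⟩
          · omega
          · obtain ⟨b', hb', rfl⟩ := List.mem_map.1 hL
            obtain ⟨i', hi', he⟩ := mem_expand haL
            have : i' = i := by omega
            subst this
            exact hiB1 (List.mem_flatten.2 ⟨b', hb', hi'⟩)
        · rcases List.mem_cons.1 h with h | h
          · omega
          · obtain ⟨i', hi', he⟩ := mem_expand h
            have : i' = i := by omega
            subst this
            exact hib1 hi'
      have hBn : i + 1 ∉ (expand x b2 ++ word0 (B2.map (expand x))) := by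
        rw [List.mem_append]
        rintro (h | h)
        · obtain ⟨i', hi', he⟩ := mem_expand h
          have : i' = i := by omega
          subst this
          exact hib2 hi'
        · rcases mem_word0 h with h | ⟨L, hL, haL⟩
          · omega
          · obtain ⟨b', hb', rfl⟩ := List.mem_map.1 hL
            obtain ⟨i', hi', he⟩ := mem_expand haL
            have : i' = i := by omega
            subst this
            exact hiB2 (List.mem_flatten.2 ⟨b', hb', hi'⟩)
      have hperm2 : (cyclicDistances (word0 Ls).length (positions (word0 Ls) (i+1))).Perm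
          (blockVec (word0 Ls).length (x i)) := by
        nth_rewrite 2 [hS]
        exact cyclicDistances_block _ _ _ _ _ hx1 hA hBn
      refine ⟨?_, hperm2⟩
      rw [← length_positions, ← length_cyclicDistances (word0 Ls).length]
      exact hperm2.length_eq

/-! ### from a realising word to a packing -/

theorem countP_eq_one_of_pairwise {α : Type} (P : α → Bool) : ∀ (Ls : List α),
    Ls.Pairwise (fun L L' => ¬(P L = true ∧ P L' = true)) → (∃ L ∈ Ls, P L = true) → Ls.countP P = 1
  | [], _, h => by obtain ⟨L, hL, _⟩ := h; simp at hL
  | (L :: Ls), hp, h => by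
    rw [List.pairwise_cons] at hp
    rw [List.countP_cons]
    by_cases hL : P L = true
    · have h0 : Ls.countP P = 0 := by
        rw [List.countP_eq_zero]
        intro L' hL'
        intro hc
        exact hp.1 L' hL' ⟨hL, hc⟩
      rw [h0, if_pos hL]
    · have : ∃ L' ∈ Ls, P L' = true := by
        obtain ⟨L', hL', hP⟩ := h
        rcases List.mem_cons.1 hL' with h | h
        · rw [h] at hP; exact absurd hP hL
        · exact ⟨L', h, hP⟩
      rw [countP_eq_one_of_pairwise P Ls hp.2 this, if_neg hL]

theorem sum_eq_of_pairwise {α : Type} (P : α → Prop) (f : α → ℕ) : ∀ (Ls : List α),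
    Ls.Pairwise (fun L L' => ¬(P L ∧ P L')) → (∀ L ∈ Ls, ¬ P L → f L = 0) →
    ∀ L ∈ Ls, P L → (Ls.map f).sum = f L
  | [], _, _, L, hL, _ => by simp at hL
  | (L0 :: Ls), hp, hf, L, hL, hPL => by
    rw [List.pairwise_cons] at hp
    rw [List.map_cons, List.sum_cons]
    rcases List.mem_cons.1 hL with h | h
    · subst h
      have : (Ls.map f).sum = 0 := by
        rw [List.sum_eq_zero_iff]
        intro y hy
        obtain ⟨L', hL', rfl⟩ := List.mem_map.1 hy
        exact hf L' (by simp [hL']) (fun hc => hp.1 L' hL' ⟨hPL, hc⟩)
      omega
    · have h0 : f L0 = 0 := hf L0 (by simp) (fun hc => hp.1 L h ⟨hc, hPL⟩)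
      rw [h0, zero_add]
      exact sum_eq_of_pairwise P f Ls hp.2 (fun L' hL' => hf L' (by simp [hL'])) L h hPL

theorem count_word0 (Ls : List (List ℕ)) (i : ℕ) :
    (word0 Ls).count (i + 1) = (Ls.map (fun L => L.count (i+1))).sum := by
  unfold word0
  rw [List.count_flatten, List.map_map]
  congr 1

/-- the letters of a contiguous block do not appear in two different segments -/
theorem pairwise_of_contiguous (Ls : List (List ℕ)) (i : ℕ) (hi : i ≠ 0)
    (h : ∀ p q r : ℕ, (word0 Ls)[p]? = some i → (word0 Ls)[q]? = some i → p ≤ r → r ≤ q →
      (word0 Ls)[r]? = some i) :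
    Ls.Pairwise (fun L L' => ¬(i ∈ L ∧ i ∈ L')) := by
  induction Ls with
  | nil => exact List.Pairwise.nil
  | cons L Ls ih =>
    rw [List.pairwise_cons]
    constructor
    · rintro L' hL' ⟨h1, h2⟩
      -- i in L at position p, i in word0 Ls, separated by 0
      have hne : Ls ≠ [] := by rintro rfl; simp at hL'
      obtain ⟨L1, Ls1, hLs⟩ : ∃ L1 Ls1, Ls = L1 :: Ls1 := by
        cases Ls with
        | nil => exact absurd rfl hne
        | cons a b => exact ⟨a, b, rfl⟩
      have hw : word0 (L :: Ls) = (0 :: L) ++ word0 Ls := rfl
      obtain ⟨p, hp⟩ := List.getElem?_of_mem h1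
      have hplt : p < L.length := by
        by_contra hc
        rw [List.getElem?_eq_none (by omega)] at hp
        cases hp
      have hi2 : i ∈ word0 Ls := by
        unfold word0
        rw [List.mem_flatten]
        exact ⟨0 :: L', List.mem_map.2 ⟨L', hL', rfl⟩, List.mem_cons_of_mem _ h2⟩
      obtain ⟨q, hq⟩ := List.getElem?_of_mem hi2
      have hp' : (word0 (L :: Ls))[p+1]? = some i := by
        rw [hw, List.getElem?_append_left (by simp; omega)]
        simpa using hp
      have hq' : (word0 (L :: Ls))[q + (L.length + 1)]? = some i := by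
        rw [hw, List.getElem?_append_right (by simp)]
        simpa using hq
      have hr := h (p+1) (q + (L.length + 1)) (L.length + 1) hp' hq' (by omega) (by omega)
      rw [hw, List.getElem?_append_right (by simp)] at hr
      simp only [List.length_cons, Nat.sub_self] at hr
      rw [hLs, word0_cons] at hr
      simp only [List.cons_append, List.getElem?_cons_zero, Option.some.injEq] at hr
      exact hi hr.symm
    · apply ih
      intro p q r hp hq hpr hrq
      have hw : word0 (L :: Ls) = (0 :: L) ++ word0 Ls := rfl
      have conv : ∀ k, (word0 (L :: Ls))[k + (L.length + 1)]? = (word0 Ls)[k]? := by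
        intro k
        rw [hw, List.getElem?_append_right (by simp)]
        simp
      have := h (p + (L.length + 1)) (q + (L.length + 1)) (r + (L.length + 1))
        (by rw [conv]; exact hp) (by rw [conv]; exact hq) (by omega) (by omega)
      rwa [conv] at this

theorem length_eq_sum_counts (L : List ℕ) (N : ℕ) (h0 : 0 ∉ L) (hlt : ∀ a ∈ L, a < N + 1) :
    L.length = ((List.range N).map (fun i => L.count (i+1))).sum := by
  induction L with
  | nil => simp
  | cons a L ih =>
    have ih' := ih (fun h => h0 (List.mem_cons_of_mem _ h)) (fun b hb => hlt b (List.mem_cons_of_mem _ hb))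
    have ha0 : a ≠ 0 := fun h => h0 (by rw [h]; simp)
    have haN := hlt a (by simp)
    have e : (fun i => (a :: L).count (i+1)) = fun i => L.count (i+1) + (if a = i + 1 then 1 else 0) := by
      funext i
      rw [List.count_cons]
      simp
    rw [e, List.sum_map_add, ← ih', List.length_cons]
    congr 1
    have e2 : ((List.range N).map (fun i => if a = i + 1 then 1 else 0)).sum =
        (List.range N).countP (fun i => decide (a = i + 1)) := by
      rw [List.countP_eq_length_filter]
      generalize List.range N = R
      induction R with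
      | nil => rfl
      | cons b R ihR =>
        rw [List.map_cons, List.sum_cons, ihR, List.filter_cons]
        by_cases hb : a = b + 1
        · simp [hb]; omega
        · simp [hb]
    rw [e2]
    have e3 : (List.range N).countP (fun i => decide (a = i + 1)) = (List.range N).count (a - 1) := by
      unfold List.count
      apply List.countP_congr
      intro b _
      simp only [decide_eq_true_eq, beq_iff_eq]
      omega
    rw [e3, List.count_eq_one_of_mem List.nodup_range (by rw [List.mem_range]; omega)]

theorem pack_perm_cs {ι : Type} {items : List ι} {w : ι → ℕ} {cs cs' : List ℕ} (hp : cs.Perm cs')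
    (h : PackL items w cs) : PackL items w cs' := by
  obtain ⟨bins, h1, h2⟩ := h
  have key : ∀ (cs cs' : List ℕ), cs.Perm cs' → ∀ bins : List (List ι),
      bins.map (fun b => (b.map w).sum) = cs →
      ∃ bins' : List (List ι), bins'.Perm bins ∧ bins'.map (fun b => (b.map w).sum) = cs' := by
    intro cs cs' hp
    induction hp with
    | nil => intro bins hb; exact ⟨bins, List.Perm.refl _, hb⟩
    | cons c _ ih =>
      intro bins hb
      cases bins with
      | nil => simp at hb
      | cons b bins =>
        simp only [List.map_cons, List.cons.injEq] at hb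
        obtain ⟨bins', h1, h2⟩ := ih bins hb.2
        refine ⟨b :: bins', h1.cons b, ?_⟩
        simp only [List.map_cons, hb.1, h2]
    | swap c d l =>
      intro bins hb
      rcases bins with _ | ⟨b, _ | ⟨b', bins⟩⟩
      · simp at hb
      · simp at hb
      · simp only [List.map_cons, List.cons.injEq] at hb
        refine ⟨b' :: b :: bins, List.Perm.swap _ _ _, ?_⟩
        simp only [List.map_cons, hb.1, hb.2.1, hb.2.2]
    | trans _ _ ih1 ih2 =>
      intro bins hb
      obtain ⟨bins', h1, h2⟩ := ih1 bins hb
      obtain ⟨bins'', h3, h4⟩ := ih2 bins' h2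
      exact ⟨bins'', h3.trans h1, h4⟩
  obtain ⟨bins', h3, h4⟩ := key cs cs' hp bins h2
  exact ⟨bins', h3.flatten.trans h1, h4⟩

theorem pack_of_realises (xs cs : List ℕ) (hcs : cs ≠ []) (hx : ∀ x ∈ xs, 1 ≤ x)
    (hsum : xs.sum = cs.sum) (S : List ℕ) (hS : Realises (feasInst xs cs) S) :
    PackL (List.range xs.length) (fun i => xs.getD i 0) cs := by
  obtain ⟨hlen, hlt, hall⟩ := hS
  have htot := total_feasInst xs cs hx hsum
  have hlenI : (feasInst xs cs).length = xs.length + 1 := by simp [feasInst]
  rw [hlenI] at hlt
  have h0 := hall 0 (by omega)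
  have e0 : (feasInst xs cs)[0] = cs.map (· + 1) := rfl
  rw [e0] at h0
  -- rotate so that the word starts with 0
  have hmem0 : 0 ∈ S := by
    rw [← List.count_pos_iff, h0.1, List.length_map]
    exact List.length_pos_iff.2 hcs
  obtain ⟨k, hk, hk0⟩ := List.getElem_of_mem hmem0
  obtain ⟨T, hT⟩ : ∃ T, S.rotate k = 0 :: T := by
    have : (S.rotate k) = S.drop k ++ S.take k := List.rotate_eq_drop_append_take (le_of_lt hk)
    rw [this, ← List.cons_getElem_drop_succ (h := hk), hk0]
    exact ⟨_, rfl⟩
  have hperm : ∀ i, (cyclicDistances (total (feasInst xs cs)) (positions (0 :: T) i)).Perm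
      (cyclicDistances (total (feasInst xs cs)) (positions S i)) := by
    intro i
    rw [← hT, ← hlen]
    exact cyclicDistances_rotate_k S i k
  have hcount : ∀ i, (0 :: T).count i = S.count i := by
    intro i
    rw [← hT]
    exact (List.rotate_perm S k).count_eq i
  have hTlen : (0 :: T).length = total (feasInst xs cs) := by
    rw [← hT, List.length_rotate, hlen]
  have hTlt : ∀ a ∈ 0 :: T, a < xs.length + 1 := by
    intro a ha
    rw [← hT, List.mem_rotate] at ha
    exact hlt a ha
  obtain ⟨L0, Ls0, hw, hL0⟩ := exists_word0 T
  set Ls := L0 :: Ls0 with hLsdef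
  -- block letters
  have hblock : ∀ i, i < xs.length → ∀ p q r : ℕ, (word0 Ls)[p]? = some (i+1) →
      (word0 Ls)[q]? = some (i+1) → p ≤ r → r ≤ q → (word0 Ls)[r]? = some (i+1) := by
    intro i hi
    have h1 := hall (i+1) (by omega)
    have e : (feasInst xs cs)[i+1] = blockVec (cs.map (· + 1)).sum xs[i] := by
      simp [feasInst]
    rw [e, ← htot] at h1
    have hx1 : 1 ≤ xs[i] := hx _ (List.getElem_mem _)
    have hc : (0 :: T).count (i+1) = xs[i] := by
      rw [hcount, h1.1, length_blockVec _ _ hx1]
    have := block_contiguous (T := T) (i := i+1) (x := xs[i]) (by omega) hx1 hc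
      (by rw [hTlen]; exact (hperm (i+1)).trans h1.2)
    rw [hw] at this
    exact this
  have hcnt : ∀ i (hi : i < xs.length), (word0 Ls).count (i+1) = xs[i] := by
    intro i hi
    have h1 := hall (i+1) (by omega)
    have e : (feasInst xs cs)[i+1] = blockVec (cs.map (· + 1)).sum xs[i] := by
      simp [feasInst]
    rw [e] at h1
    have hx1 : 1 ≤ xs[i] := hx _ (List.getElem_mem _)
    rw [← hw, hcount, h1.1, length_blockVec _ _ hx1]
  have hpair : ∀ i, i < xs.length → Ls.Pairwise (fun L L' => ¬((i+1) ∈ L ∧ (i+1) ∈ L')) := by
    intro i hi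
    exact pairwise_of_contiguous Ls (i+1) (by omega) (hblock i hi)
  -- the bins
  let bins : List (List ℕ) := Ls.map (fun L => (List.range xs.length).filter (fun i => (i+1) ∈ L))
  have hbperm : bins.flatten.Perm (List.range xs.length) := by
    rw [List.perm_iff_count]
    intro i
    rw [List.count_flatten]
    by_cases hi : i < xs.length
    · rw [List.count_eq_one_of_mem List.nodup_range (List.mem_range.2 hi)]
      have e : List.map (List.count i) bins = Ls.map (fun L => if (i+1) ∈ L then 1 else 0) := by
        simp only [bins, List.map_map]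
        apply List.map_congr_left
        intro L _
        simp only [Function.comp_apply]
        by_cases h : (i+1) ∈ L
        · rw [if_pos h]
          apply List.count_eq_one_of_mem (List.nodup_range.filter _)
          rw [List.mem_filter, List.mem_range]
          exact ⟨hi, by simpa using h⟩
        · rw [if_neg h]
          apply List.count_eq_zero_of_not_mem
          rw [List.mem_filter]
          rintro ⟨_, h2⟩
          exact h (by simpa using h2)
      rw [e]
      have hex : ∃ L ∈ Ls, (i+1) ∈ L := by
        by_contra hc
        push Not at hc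
        have h1 := hcnt i hi
        rw [count_word0] at h1
        have : (Ls.map (fun L => L.count (i+1))).sum = 0 := by
          rw [List.sum_eq_zero_iff]
          intro y hy
          obtain ⟨L, hL, rfl⟩ := List.mem_map.1 hy
          exact List.count_eq_zero_of_not_mem (hc L hL)
        have hx1 : 1 ≤ xs[i] := hx _ (List.getElem_mem _)
        omega
      obtain ⟨L, hL, hiL⟩ := hex
      have := sum_eq_of_pairwise (fun L => (i+1) ∈ L) (fun L => if (i+1) ∈ L then 1 else 0) Ls
        (hpair i hi) (fun L' _ h => by simp [h]) L hL hiL
      rw [this]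
      simp [hiL]
    · rw [List.count_eq_zero_of_not_mem (by rw [List.mem_range]; exact hi)]
      rw [List.sum_eq_zero_iff]
      intro y hy
      obtain ⟨b, hb, rfl⟩ := List.mem_map.1 hy
      apply List.count_eq_zero_of_not_mem
      obtain ⟨L, _, rfl⟩ := List.mem_map.1 hb
      rw [List.mem_filter, List.mem_range]
      rintro ⟨h1, _⟩
      exact hi h1
  have hbsum : bins.map (fun b => (b.map (fun i => xs.getD i 0)).sum) = Ls.map List.length := by
    simp only [bins, List.map_map]
    apply List.map_congr_left
    intro L hL
    simp only [Function.comp_apply]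
    have hLlt : ∀ a ∈ L, a < xs.length + 1 := by
      intro a ha
      apply hTlt
      rw [hw]
      unfold word0
      rw [List.mem_flatten]
      exact ⟨0 :: L, List.mem_map.2 ⟨L, hL, rfl⟩, List.mem_cons_of_mem _ ha⟩
    rw [length_eq_sum_counts L xs.length (hL0 L hL) hLlt]
    -- sum over filter
    have gen : ∀ R : List ℕ, (∀ i ∈ R, i < xs.length) →
        ((R.filter (fun i => decide ((i+1) ∈ L))).map (fun i => xs.getD i 0)).sum =
        (R.map (fun i => L.count (i+1))).sum := by
      intro R
      induction R with
      | nil => intro _; rfl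
      | cons i R ih =>
        intro hR
        have ih' := ih (fun j hj => hR j (List.mem_cons_of_mem _ hj))
        have hi := hR i (by simp)
        rw [List.filter_cons, List.map_cons, List.sum_cons, ← ih']
        by_cases h : (i+1) ∈ L
        · simp only [h, decide_true, if_true, List.map_cons, List.sum_cons]
          congr 1
          rw [List.getD_eq_getElem _ _ hi, ← hcnt i hi, count_word0]
          exact sum_eq_of_pairwise (fun L => (i+1) ∈ L) (fun L => L.count (i+1)) Ls
            (hpair i hi) (fun L' _ h => List.count_eq_zero_of_not_mem h) L hL h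
        · simp only [h, decide_false, Bool.false_eq_true, if_false]
          rw [List.count_eq_zero_of_not_mem h, zero_add]
    exact gen (List.range xs.length) (fun i hi => List.mem_range.1 hi)
  -- the sizes of the segments
  have hseg : (Ls.map List.length).Perm cs := by
    have h1 : (Ls.map (fun L => L.length + 1)).Perm (cs.map (· + 1)) := by
      have h2 := cyclicDistances_word0 L0 Ls0 hL0
      rw [← hLsdef, ← hw, hTlen] at h2
      rw [← h2]
      exact (hperm 0).trans h0.2
    have h3 := h1.map (fun a => a - 1)
    rw [List.map_map, List.map_map] at h3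
    have e1 : Ls.map ((fun a => a - 1) ∘ fun L => L.length + 1) = Ls.map List.length := by
      apply List.map_congr_left; intro L _; simp
    have e2 : cs.map ((fun a => a - 1) ∘ (· + 1)) = cs := by
      conv_rhs => rw [← List.map_id cs]
      apply List.map_congr_left; intro c _; simp
    rw [e1, e2] at h3
    exact h3
  exact pack_perm_cs hseg ⟨bins, hbperm, hbsum⟩

theorem feas_iff_pack (xs cs : List ℕ) (hcs : cs ≠ []) (hsort : cs.Pairwise (fun a b => b ≤ a))
    (hx : ∀ x ∈ xs, 1 ≤ x) (hsum : xs.sum = cs.sum) :
    FEAS (feasInst xs cs) ↔ PackL (List.range xs.length) (fun i => xs.getD i 0) cs := by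
  constructor
  · rintro ⟨_, S, hS⟩
    exact pack_of_realises xs cs hcs hx hsum S hS
  · intro h
    exact ⟨isInstance_feasInst xs cs hcs hsort hx hsum, realises_of_pack xs cs hcs hx hsum h⟩

end Pool.Agent.H39.Feas
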