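import Mathlib
import Pool.Agent.H39.FeasPack

set_option autoImplicit false

namespace Pool.Agent.H39.Feas

/-- a literal: variable index and sign -/
abbrev Lit := ℕ × Bool
/-- a clause with three literals -/
abbrev Cl := Lit × Lit × Lit

/-- satisfiability of a 3-CNF -/
def Sat3 (ψ : List Cl) : Prop :=
  ∃ v : ℕ → Bool, ∀ c ∈ ψ, v c.1.1 = c.1.2 ∨ v c.2.1.1 = c.2.1.2 ∨ v c.2.2.1 = c.2.2.2

inductive Item
  | tok (v : ℕ) (s : Bool) (c : ℕ)
  | fil (v : ℕ)
  | sel (j k : ℕ) (l : Lit)
  deriving DecidableEq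

def dA : Item → ℕ
  | .tok _ _ _ => 1
  | .fil _ => 0
  | .sel _ _ _ => 0

def dB (n : ℕ) : Item → ℕ
  | .tok v _ _ => v
  | .fil _ => 0
  | .sel _ _ l => n - l.1

def dC (n : ℕ) : Item → ℕ
  | .tok v _ _ => v * v
  | .fil _ => 0
  | .sel _ _ l => n * n - l.1 * l.1

def dS (M : ℕ) : Item → ℕ
  | .tok _ s _ => s.toNat
  | .fil _ => M
  | .sel _ _ l => 1 - l.2.toNat

def dJ (m : ℕ) : Item → ℕ
  | .tok _ _ _ => 0
  | .fil _ => 0
  | .sel j _ _ => m + 1 + j

def enc5 (K a b c s j : ℕ) : ℕ := a + K * (b + K * (c + K * (s + K * j)))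

def wt (n M m K : ℕ) (i : Item) : ℕ := enc5 K (dA i) (dB n i) (dC n i) (dS M i) (dJ m i)

theorem digit_inj {K a a' x x' : ℕ} (ha : a < K) (ha' : a' < K) (h : a + K * x = a' + K * x') :
    a = a' ∧ x = x' := by
  have hK : 0 < K := by omega
  have h1 : (a + K * x) % K = a := by rw [Nat.add_mul_mod_self_left, Nat.mod_eq_of_lt ha]
  have h2 : (a' + K * x') % K = a' := by rw [Nat.add_mul_mod_self_left, Nat.mod_eq_of_lt ha']
  have h3 : a = a' := by rw [← h1, h, h2]
  refine ⟨h3, ?_⟩
  subst h3
  exact Nat.eq_of_mul_eq_mul_left hK (by omega)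

theorem enc5_inj {K a b c s j a' b' c' s' j' : ℕ} (ha : a < K) (hb : b < K) (hc : c < K) (hs : s < K)
    (ha' : a' < K) (hb' : b' < K) (hc' : c' < K) (hs' : s' < K)
    (h : enc5 K a b c s j = enc5 K a' b' c' s' j') :
    a = a' ∧ b = b' ∧ c = c' ∧ s = s' ∧ j = j' := by
  unfold enc5 at h
  obtain ⟨h1, h⟩ := digit_inj ha ha' h
  obtain ⟨h2, h⟩ := digit_inj hb hb' h
  obtain ⟨h3, h⟩ := digit_inj hc hc' h
  obtain ⟨h4, h5⟩ := digit_inj hs hs' h
  exact ⟨h1, h2, h3, h4, h5⟩

theorem enc5_add (K a b c s j a' b' c' s' j' : ℕ) :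
    enc5 K a b c s j + enc5 K a' b' c' s' j' = enc5 K (a+a') (b+b') (c+c') (s+s') (j+j') := by
  unfold enc5; ring

theorem enc5_mul (K t a b c s j : ℕ) :
    t * enc5 K a b c s j = enc5 K (t*a) (t*b) (t*c) (t*s) (t*j) := by
  unfold enc5; ring

theorem enc5_mono {K a b c s j a' b' c' s' j' : ℕ} (h1 : a ≤ a') (h2 : b ≤ b') (h3 : c ≤ c')
    (h4 : s ≤ s') (h5 : j ≤ j') : enc5 K a b c s j ≤ enc5 K a' b' c' s' j' := by
  unfold enc5; gcongr

theorem le_enc5 (K a b c s j : ℕ) : K * (K * (K * (K * j))) ≤ enc5 K a b c s j := by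
  have : K * (K * (K * (K * j))) = enc5 K 0 0 0 0 j := by unfold enc5; ring
  rw [this]
  exact enc5_mono (by omega) (by omega) (by omega) (by omega) le_rfl

theorem enc5_lt {K a b c s j : ℕ} (ha : a < K) (hb : b < K) (hc : c < K) (hs : s < K) :
    enc5 K a b c s j < K * (K * (K * (K * (j + 1)))) := by
  have h4 : s + K * j < K * (j + 1) := by rw [Nat.mul_add]; omega
  have h3 : c + K * (s + K * j) < K * (K * (j + 1)) := by
    calc c + K * (s + K * j) < K + K * (s + K * j) := by omega
      _ = K * ((s + K * j) + 1) := by ring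
      _ ≤ K * (K * (j + 1)) := Nat.mul_le_mul_left _ h4
  have h2 : b + K * (c + K * (s + K * j)) < K * (K * (K * (j + 1))) := by
    calc b + K * (c + K * (s + K * j)) < K + K * (c + K * (s + K * j)) := by omega
      _ = K * ((c + K * (s + K * j)) + 1) := by ring
      _ ≤ K * (K * (K * (j + 1))) := Nat.mul_le_mul_left _ h3
  unfold enc5
  calc a + K * (b + K * (c + K * (s + K * j))) < K + K * (b + K * (c + K * (s + K * j))) := by omega
      _ = K * ((b + K * (c + K * (s + K * j))) + 1) := by ring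
      _ ≤ _ := Nat.mul_le_mul_left _ h2

theorem sum_wt (n M m K : ℕ) (b : List Item) :
    (b.map (wt n M m K)).sum =
      enc5 K (b.map dA).sum (b.map (dB n)).sum (b.map (dC n)).sum (b.map (dS M)).sum
        (b.map (dJ m)).sum := by
  induction b with
  | nil => simp [enc5]
  | cons i b ih =>
    simp only [List.map_cons, List.sum_cons]
    rw [ih, wt, enc5_add]

/-! ### splitting a list of items -/

def toks (b : List Item) : List (ℕ × Bool × ℕ) :=
  b.filterMap (fun i => match i with | .tok v s c => some (v, s, c) | _ => none)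

def fils (b : List Item) : List ℕ :=
  b.filterMap (fun i => match i with | .fil v => some v | _ => none)

def sels (b : List Item) : List (ℕ × ℕ × Lit) :=
  b.filterMap (fun i => match i with | .sel j k l => some (j, k, l) | _ => none)

theorem sum_split (g : Item → ℕ) (b : List Item) :
    (b.map g).sum = ((toks b).map (fun t => g (.tok t.1 t.2.1 t.2.2))).sum +
      ((fils b).map (fun v => g (.fil v))).sum +
      ((sels b).map (fun t => g (.sel t.1 t.2.1 t.2.2))).sum := by
  induction b with
  | nil => simp [toks, fils, sels]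
  | cons i b ih =>
    cases i with
    | tok v s c =>
      have h1 : toks (.tok v s c :: b) = (v, s, c) :: toks b := rfl
      have h2 : fils (.tok v s c :: b) = fils b := rfl
      have h3 : sels (.tok v s c :: b) = sels b := rfl
      rw [h1, h2, h3]
      simp only [List.map_cons, List.sum_cons, ih]; omega
    | fil v =>
      have h1 : toks (.fil v :: b) = toks b := rfl
      have h2 : fils (.fil v :: b) = v :: fils b := rfl
      have h3 : sels (.fil v :: b) = sels b := rfl
      rw [h1, h2, h3]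
      simp only [List.map_cons, List.sum_cons, ih]; omega
    | sel j k l =>
      have h1 : toks (.sel j k l :: b) = toks b := rfl
      have h2 : fils (.sel j k l :: b) = fils b := rfl
      have h3 : sels (.sel j k l :: b) = (j, k, l) :: sels b := rfl
      rw [h1, h2, h3]
      simp only [List.map_cons, List.sum_cons, ih]; omega

theorem mem_toks {b : List Item} {t : ℕ × Bool × ℕ} : t ∈ toks b ↔ .tok t.1 t.2.1 t.2.2 ∈ b := by
  unfold toks
  rw [List.mem_filterMap]
  constructor
  · rintro ⟨i, hi, h⟩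
    cases i with
    | tok v s c => simp only [Option.some.injEq] at h; subst h; exact hi
    | fil v => simp at h
    | sel j k l => simp at h
  · intro h; exact ⟨_, h, rfl⟩

theorem mem_fils {b : List Item} {v : ℕ} : v ∈ fils b ↔ .fil v ∈ b := by
  unfold fils
  rw [List.mem_filterMap]
  constructor
  · rintro ⟨i, hi, h⟩
    cases i with
    | tok v s c => simp at h
    | fil v => simp only [Option.some.injEq] at h; subst h; exact hi
    | sel j k l => simp at h
  · intro h; exact ⟨_, h, rfl⟩

theorem mem_sels {b : List Item} {t : ℕ × ℕ × Lit} : t ∈ sels b ↔ .sel t.1 t.2.1 t.2.2 ∈ b := by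
  unfold sels
  rw [List.mem_filterMap]
  constructor
  · rintro ⟨i, hi, h⟩
    cases i with
    | tok v s c => simp at h
    | fil v => simp at h
    | sel j k l => simp only [Option.some.injEq] at h; subst h; exact hi
  · intro h; exact ⟨_, h, rfl⟩

theorem nodup_toks {b : List Item} (h : b.Nodup) : (toks b).Nodup := by
  unfold toks
  apply List.Nodup.filterMap _ h
  intro i i' t ht ht'
  rcases i with ⟨v, s, c⟩ | ⟨v⟩ | ⟨j, k, l⟩
  · rcases i' with ⟨v', s', c'⟩ | ⟨v'⟩ | ⟨j', k', l'⟩
    · have h1 : (v, s, c) = t := Option.some.inj ht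
      have h2 : (v', s', c') = t := Option.some.inj ht'
      rw [← h2] at h1
      obtain ⟨rfl, h3⟩ := Prod.mk.inj h1
      obtain ⟨rfl, rfl⟩ := Prod.mk.inj h3
      rfl
    · cases ht'
    · cases ht'
  · cases ht
  · cases ht

/-- the sum of squares argument -/
theorem all_eq_of_sums (L : List ℕ) (v : ℕ) (h1 : L.sum = L.length * v)
    (h2 : (L.map (fun x => x * x)).sum = L.length * (v * v)) : ∀ x ∈ L, x = v := by
  have key : ((L.map (fun x : ℕ => ((x:ℤ) - v) * ((x:ℤ) - v)))).sum = 0 := by
    have : ((L.map (fun x : ℕ => ((x:ℤ) - v) * ((x:ℤ) - v)))).sum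
        = (((L.map (fun x => x * x)).sum : ℕ) : ℤ) - 2 * v * ((L.sum : ℕ) : ℤ) + L.length * (v * v) := by
      clear h1 h2
      induction L with
      | nil => simp
      | cons a L ih =>
        simp only [List.map_cons, List.sum_cons, List.length_cons, Nat.cast_add, Nat.cast_mul,
          Nat.cast_one]
        rw [ih]; ring
    rw [this, h1, h2]; push_cast; ring
  intro x hx
  have hnn : ∀ y ∈ L.map (fun x : ℕ => ((x:ℤ) - v) * ((x:ℤ) - v)), 0 ≤ y := by
    intro y hy
    obtain ⟨z, _, rfl⟩ := List.mem_map.1 hy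
    exact mul_self_nonneg _
  have hle : ((x:ℤ) - v) * ((x:ℤ) - v) ≤ 0 := by
    rw [← key]
    exact List.single_le_sum hnn _ (List.mem_map.2 ⟨x, hx, rfl⟩)
  have h0 : ((x:ℤ) - v) * ((x:ℤ) - v) = 0 := le_antisymm hle (mul_self_nonneg _)
  have := mul_self_eq_zero.1 h0
  omega

/-- the bin of a variable takes all the tokens of one sign -/
theorem bin_var (n M m : ℕ) (v : ℕ) (b : List Item) (hnd : b.Nodup)
    (hc : ∀ v s c, Item.tok v s c ∈ b → c < M)
    (hA : (b.map dA).sum = M) (hB : (b.map (dB n)).sum = M * v) (hC : (b.map (dC n)).sum = M * (v * v))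
    (hS : (b.map (dS M)).sum = M) (hJ : (b.map (dJ m)).sum = 0) :
    ∃ s : Bool, ∀ c < M, Item.tok v s c ∈ b := by
  rw [sum_split] at hA hB hC hS hJ
  have hsel : sels b = [] := by
    by_contra hne
    obtain ⟨t, ht⟩ := List.exists_mem_of_ne_nil _ hne
    have h1 : (dJ m (.sel t.1 t.2.1 t.2.2)) ≤ ((sels b).map (fun t => dJ m (.sel t.1 t.2.1 t.2.2))).sum :=
      List.single_le_sum (fun _ _ => Nat.zero_le _) _ (List.mem_map.2 ⟨t, ht, rfl⟩)
    have h2 : dJ m (.sel t.1 t.2.1 t.2.2) = m + 1 + t.1 := rfl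
    omega
  rw [hsel] at hA hB hC hS hJ
  simp only [dA, dB, dC, dS, dJ, List.map_nil, List.sum_nil, add_zero, List.map_const',
    List.sum_replicate, smul_eq_mul, mul_zero, mul_one] at hA hB hC hS hJ
  -- all indices are v
  have hlen : ((toks b).map (fun t => t.1)).length = M := by simpa using hA
  have hall : ∀ x ∈ (toks b).map (fun t => t.1), x = v := by
    apply all_eq_of_sums _ _
    · rw [hlen]; exact hB
    · rw [hlen, List.map_map]; exact hC
  have hallv : ∀ t ∈ toks b, t.1 = v := fun t ht => hall _ (List.mem_map.2 ⟨t, ht, rfl⟩)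
  -- all the signs agree
  have hsign : ∃ s : Bool, ∀ t ∈ toks b, t.2.1 = s := by
    by_cases hf : fils b = []
    · refine ⟨true, fun t ht => ?_⟩
      by_contra hs
      have hs' : t.2.1 = false := by simpa using hs
      rw [hf] at hS
      simp only [List.length_nil, zero_mul, add_zero] at hS
      -- sum of signs < length
      have hlt : ((toks b).map (fun t => t.2.1.toNat)).sum < ((toks b).map (fun _ => 1)).sum := by
        apply List.sum_lt_sum
        · intro i _
          cases i.2.1 <;> simp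
        · exact ⟨t, ht, by rw [hs']; simp⟩
      simp only [List.map_const', List.sum_replicate, smul_eq_mul, mul_one] at hlt
      omega
    · refine ⟨false, fun t ht => ?_⟩
      by_contra hs
      have hs' : t.2.1 = true := by simpa using hs
      have h1 : t.2.1.toNat ≤ ((toks b).map (fun t => t.2.1.toNat)).sum :=
        List.single_le_sum (fun _ _ => Nat.zero_le _) _ (List.mem_map.2 ⟨t, ht, rfl⟩)
      rw [hs'] at h1
      have h2 : 1 ≤ (fils b).length := List.length_pos_iff.2 hf
      have h3 : M ≤ (fils b).length * M := Nat.le_mul_of_pos_left _ h2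
      simp only [Bool.toNat_true] at h1
      omega
  obtain ⟨s, hs⟩ := hsign
  refine ⟨s, fun c hcM => ?_⟩
  -- the third components are a nodup list of length M in range M
  have hnd3 : ((toks b).map (fun t => t.2.2)).Nodup := by
    rw [List.nodup_map_iff_inj_on (nodup_toks hnd)]
    rintro ⟨v1, s1, c1⟩ h1 ⟨v2, s2, c2⟩ h2 he
    have e1 := hallv _ h1
    have e2 := hallv _ h2
    have e3 := hs _ h1
    have e4 := hs _ h2
    simp only at e1 e2 e3 e4 he
    rw [e1, e2, e3, e4, he]
  have hsub : ((toks b).map (fun t => t.2.2)) ⊆ List.range M := by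
    intro x hx
    obtain ⟨t, ht, rfl⟩ := List.mem_map.1 hx
    exact List.mem_range.2 (hc _ _ _ (mem_toks.1 ht))
  have hperm : ((toks b).map (fun t => t.2.2)).Perm (List.range M) := by
    apply List.Subperm.perm_of_length_le (List.subperm_of_subset hnd3 hsub)
    rw [List.length_range, List.length_map, ← List.length_map (f := fun t => t.1) (as := toks b), hlen]
  have : c ∈ (toks b).map (fun t => t.2.2) := hperm.symm.subset (List.mem_range.2 hcM)
  obtain ⟨⟨v', s', c'⟩, ht, hceq⟩ := List.mem_map.1 this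
  have e1 := hallv _ ht
  have e2 := hs _ ht
  simp only at e1 e2 hceq
  subst e1 e2 hceq
  exact mem_toks.1 ht

/-- the bin of a clause contains a selector of the clause and a matching token -/
theorem bin_clause (n M m : ℕ) (hM : 2 ≤ M) (j : ℕ) (hj : j < m) (b : List Item)
    (hl : ∀ j k l, Item.sel j k l ∈ b → l.1 < n)
    (hA : (b.map dA).sum = 1) (hB : (b.map (dB n)).sum = n)
    (hS : (b.map (dS M)).sum = 1) (hJ : (b.map (dJ m)).sum = m + 1 + j) :
    ∃ k l c, Item.sel j k l ∈ b ∧ Item.tok l.1 l.2 c ∈ b := by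
  rw [sum_split] at hA hB hS hJ
  simp only [dA, dB, dS, dJ, add_zero, List.map_const',
    List.sum_replicate, smul_eq_mul, mul_zero, mul_one, zero_add] at hA hB hS hJ
  -- one token
  obtain ⟨⟨v, s, c⟩, ht⟩ := List.length_eq_one_iff.1 hA
  -- one selector
  have hsel : ∃ t, sels b = [t] := by
    rcases hsb : sels b with _ | ⟨t, _ | ⟨t', L⟩⟩
    · exfalso; rw [hsb] at hJ; simp only [List.map_nil, List.sum_nil] at hJ; omega
    · exact ⟨t, rfl⟩
    · rw [hsb] at hJ
      simp only [List.map_cons, List.sum_cons] at hJ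
      omega
  obtain ⟨⟨j', k, l⟩, hs⟩ := hsel
  have hselm : Item.sel j' k l ∈ b := (mem_sels (t := (j', k, l))).1 (by rw [hs]; simp)
  have htokm : Item.tok v s c ∈ b := (mem_toks (t := (v, s, c))).1 (by rw [ht]; simp)
  have hln := hl _ _ _ hselm
  rw [hs] at hJ hB hS
  rw [ht] at hB hS
  simp only [List.map_cons, List.map_nil, List.sum_cons, List.sum_nil, add_zero] at hJ hB hS
  have hjj : j' = j := by omega
  subst hjj
  have hv : v = l.1 := by omega
  have hf : fils b = [] := by
    by_contra hne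
    have h2 : 1 ≤ (fils b).length := List.length_pos_iff.2 hne
    have h3 : M ≤ (fils b).length * M := Nat.le_mul_of_pos_left _ h2
    omega
  rw [hf] at hS
  simp only [List.length_nil, zero_mul, add_zero] at hS
  have hs2 : s = l.2 := by
    revert hS
    cases s <;> cases l.2 <;> simp
  subst hv hs2
  exact ⟨k, l, c, hselm, htokm⟩

end Pool.Agent.H39.Feas
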