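import Mathlib
import Pool.Agent.H39.FeasSat

set_option autoImplicit false

namespace Pool.Agent.H39.Feas

/-- the list of all items -/
def tokItems (n M : ℕ) : List Item :=
  (List.range n).flatMap (fun v => (List.range M).flatMap (fun c => [.tok v false c, .tok v true c]))
def filItems (n : ℕ) : List Item := (List.range n).map .fil
def selItems (ψ : List Cl) : List Item :=
  ψ.zipIdx.flatMap (fun p => [.sel p.2 0 p.1.1, .sel p.2 1 p.1.2.1, .sel p.2 2 p.1.2.2])
def items (n M : ℕ) (ψ : List Cl) : List Item := tokItems n M ++ (filItems n ++ selItems ψ)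

theorem mem_tokItems {n M : ℕ} {i : Item} :
    i ∈ tokItems n M ↔ ∃ v s c, v < n ∧ c < M ∧ i = .tok v s c := by
  unfold tokItems
  simp only [List.mem_flatMap, List.mem_range, List.mem_cons, List.not_mem_nil, or_false]
  constructor
  · rintro ⟨v, hv, c, hc, rfl | rfl⟩
    · exact ⟨v, false, c, hv, hc, rfl⟩
    · exact ⟨v, true, c, hv, hc, rfl⟩
  · rintro ⟨v, s, c, hv, hc, rfl⟩
    refine ⟨v, hv, c, hc, ?_⟩
    cases s <;> simp

theorem mem_filItems {n : ℕ} {i : Item} : i ∈ filItems n ↔ ∃ v, v < n ∧ i = .fil v := by
  unfold filItems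
  simp only [List.mem_map, List.mem_range]
  constructor
  · rintro ⟨v, hv, rfl⟩; exact ⟨v, hv, rfl⟩
  · rintro ⟨v, hv, rfl⟩; exact ⟨v, hv, rfl⟩

theorem mem_selItems {ψ : List Cl} {i : Item} : i ∈ selItems ψ ↔
    ∃ j c, ψ[j]? = some c ∧ (i = .sel j 0 c.1 ∨ i = .sel j 1 c.2.1 ∨ i = .sel j 2 c.2.2) := by
  unfold selItems
  simp only [List.mem_flatMap, List.mem_cons, List.not_mem_nil, or_false]
  constructor
  · rintro ⟨⟨c, j⟩, hp, h⟩
    exact ⟨j, c, List.mk_mem_zipIdx_iff_getElem?.1 hp, h⟩
  · rintro ⟨j, c, hp, h⟩
    exact ⟨(c, j), List.mk_mem_zipIdx_iff_getElem?.2 hp, h⟩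

theorem nodup_items (n M : ℕ) (ψ : List Cl) : (items n M ψ).Nodup := by
  unfold items
  rw [List.nodup_append', List.nodup_append']
  refine ⟨?_, ⟨?_, ?_, ?_⟩, ?_⟩
  · unfold tokItems
    rw [List.nodup_flatMap]
    constructor
    · intro v _
      rw [List.nodup_flatMap]
      constructor
      · intro c _; simp
      · refine List.nodup_range.imp ?_
        intro c c' hcc
        rw [Function.onFun, List.disjoint_left]
        intro i hi hi'
        simp only [List.mem_cons, List.not_mem_nil, or_false] at hi hi'
        rcases hi with rfl | rfl <;> rcases hi' with h | h <;>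
          simp only [Item.tok.injEq, reduceCtorEq, and_false, false_and] at h <;> exact hcc h.2.2
    · refine List.nodup_range.imp ?_
      intro v v' hvv
      rw [Function.onFun, List.disjoint_left]
      intro i hi hi'
      simp only [List.mem_flatMap, List.mem_cons, List.not_mem_nil, or_false] at hi hi'
      obtain ⟨c, _, hi⟩ := hi
      obtain ⟨c', _, hi'⟩ := hi'
      rcases hi with rfl | rfl <;> rcases hi' with h | h <;>
          simp only [Item.tok.injEq, reduceCtorEq, and_false, false_and] at h <;> exact hvv h.1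
  · unfold filItems
    rw [List.nodup_map_iff (by intro a b h; simpa using h)]
    exact List.nodup_range
  · unfold selItems
    rw [List.nodup_flatMap]
    constructor
    · intro p _; simp
    · have hnd : (ψ.zipIdx.map Prod.snd).Nodup := by
        rw [List.zipIdx_map_snd]; exact List.nodup_range'
      rw [List.Nodup, List.pairwise_map] at hnd
      refine hnd.imp ?_
      intro p p' hpp
      rw [Function.onFun, List.disjoint_left]
      intro i hi hi'
      simp only [List.mem_cons, List.not_mem_nil, or_false] at hi hi'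
      rcases hi with rfl | rfl | rfl <;> rcases hi' with h | h | h <;>
          simp only [Item.sel.injEq] at h <;> exact hpp h.1
  · rw [List.disjoint_left]
    intro i hi hi'
    obtain ⟨v, _, rfl⟩ := mem_filItems.1 hi
    obtain ⟨j, c, _, h | h | h⟩ := mem_selItems.1 hi' <;> cases h
  · rw [List.disjoint_left]
    intro i hi hi'
    obtain ⟨v, s, c, _, _, rfl⟩ := mem_tokItems.1 hi
    rcases List.mem_append.1 hi' with h | h
    · obtain ⟨v, _, h⟩ := mem_filItems.1 h; cases h
    · obtain ⟨j, c, _, h | h | h⟩ := mem_selItems.1 h <;> cases h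

/-- sizes of the bins -/
def vbin (M K v : ℕ) : ℕ := enc5 K M (M * v) (M * (v * v)) M 0
def cbin (n m K j : ℕ) : ℕ := enc5 K 1 n (n * n) 1 (m + 1 + j)
def restBins (n M m K : ℕ) : List ℕ := (List.range n).map (vbin M K) ++ (List.range m).map (cbin n m K)
def garbage (n M K : ℕ) (ψ : List Cl) : ℕ :=
  ((items n M ψ).map (wt n M ψ.length K)).sum - (restBins n M ψ.length K).sum
def binsAsc (n M K : ℕ) (ψ : List Cl) : List ℕ :=
  restBins n M ψ.length K ++ [garbage n M K ψ]

/-- from a packing to a satisfying assignment -/
theorem sat_of_pack (n M K : ℕ) (ψ : List Cl)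
    (hn : ∀ c ∈ ψ, c.1.1 < n ∧ c.2.1.1 < n ∧ c.2.2.1 < n) (hM : 2 ≤ M)
    (hKA : ((items n M ψ).map dA).sum < K) (hKB : ((items n M ψ).map (dB n)).sum < K)
    (hKC : ((items n M ψ).map (dC n)).sum < K) (hKS : ((items n M ψ).map (dS M)).sum < K)
    (hK : ∀ v < n, M * (v * v) < K ∧ M * v < K ∧ M < K) (hK2 : n * n < K ∧ n < K ∧ 1 < K)
    (h : PackL (items n M ψ) (wt n M ψ.length K) (binsAsc n M K ψ)) : Sat3 ψ := by
  obtain ⟨bins, hperm, hsum⟩ := h
  set m := ψ.length with hmdef
  have hnd : bins.flatten.Nodup := hperm.nodup_iff.2 (nodup_items n M ψ)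
  rw [List.nodup_flatten] at hnd
  obtain ⟨hnd1, hnd2⟩ := hnd
  have hlen : bins.length = n + m + 1 := by
    have := congrArg List.length hsum
    simp only [List.length_map, binsAsc, restBins, List.length_append, List.length_range,
      List.length_cons, List.length_nil] at this
    omega
  -- digits of a bin
  have hbmem : ∀ b ∈ bins, ∀ i ∈ b, i ∈ items n M ψ := by
    intro b hb i hi
    exact hperm.subset (List.mem_flatten.2 ⟨b, hb, hi⟩)
  have hdig : ∀ (g : Item → ℕ), ∀ b ∈ bins, (b.map g).sum ≤ ((items n M ψ).map g).sum := by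
    intro g b hb
    have h1 : (bins.map (fun b => (b.map g).sum)).sum = ((items n M ψ).map g).sum := by
      rw [← (hperm.map g).sum_eq, List.map_flatten, List.sum_flatten, List.map_map]
      rfl
    rw [← h1]
    exact List.single_le_sum (fun _ _ => Nat.zero_le _) _ (List.mem_map.2 ⟨b, hb, rfl⟩)
  have hV : ∀ v, ∀ hv : v < n, ∃ s : Bool, ∀ c < M, Item.tok v s c ∈ bins[v]'(by omega) := by
    intro v hv
    have hvb : bins[v]'(by omega) ∈ bins := List.getElem_mem _
    have h1 : ((bins[v]'(by omega)).map (wt n M m K)).sum = vbin M K v := by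
      have h2 : (bins.map (fun b => (b.map (wt n M m K)).sum))[v]'(by rw [List.length_map]; omega)
          = (binsAsc n M K ψ)[v]'(by simp [binsAsc, restBins]; omega) := by
        congr 1
      rw [List.getElem_map] at h2
      rw [h2]
      simp only [binsAsc, restBins]
      rw [List.getElem_append_left (by simp; omega), List.getElem_append_left (by simp; omega),
        List.getElem_map, List.getElem_range]
    rw [sum_wt, vbin] at h1
    obtain ⟨k1, k2, k3⟩ := hK v hv
    obtain ⟨e1, e2, e3, e4, e5⟩ := enc5_inj (lt_of_le_of_lt (hdig _ _ hvb) hKA)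
      (lt_of_le_of_lt (hdig _ _ hvb) hKB) (lt_of_le_of_lt (hdig _ _ hvb) hKC)
      (lt_of_le_of_lt (hdig _ _ hvb) hKS) k3 k2 k1 k3 h1
    apply bin_var n M m v _ (hnd1 _ hvb) ?_ e1 e2 e3 e4 e5
    intro v' s c hmem
    have := hbmem _ hvb _ hmem
    rcases List.mem_append.1 this with h | h
    · obtain ⟨v, s, c, _, hc, he⟩ := mem_tokItems.1 h
      cases he; exact hc
    · rcases List.mem_append.1 h with h | h
      · obtain ⟨v, _, he⟩ := mem_filItems.1 h; cases he
      · obtain ⟨j, c, _, he | he | he⟩ := mem_selItems.1 h <;> cases he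
  choose! S hS using hV
  refine ⟨fun v => !(S v), ?_⟩
  intro c hc
  obtain ⟨j, hj⟩ := List.getElem?_of_mem hc
  have hjm : j < m := by
    by_contra hcon
    rw [List.getElem?_eq_none (by omega)] at hj; cases hj
  have hjb : bins[n+j]'(by omega) ∈ bins := List.getElem_mem _
  have h1 : ((bins[n+j]'(by omega)).map (wt n M m K)).sum = cbin n m K j := by
    have h2 : (bins.map (fun b => (b.map (wt n M m K)).sum))[n+j]'(by rw [List.length_map]; omega)
        = (binsAsc n M K ψ)[n+j]'(by simp [binsAsc, restBins]; omega) := by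
      congr 1
    rw [List.getElem_map] at h2
    rw [h2]
    simp only [binsAsc, restBins]
    rw [List.getElem_append_left (by simp; omega), List.getElem_append_right (by simp),
      List.getElem_map, List.getElem_range]
    congr 1
    simp
  rw [sum_wt, cbin] at h1
  obtain ⟨e1, e2, e3, e4, e5⟩ := enc5_inj (lt_of_le_of_lt (hdig _ _ hjb) hKA)
      (lt_of_le_of_lt (hdig _ _ hjb) hKB) (lt_of_le_of_lt (hdig _ _ hjb) hKC)
      (lt_of_le_of_lt (hdig _ _ hjb) hKS) hK2.2.2 hK2.2.1 hK2.1 hK2.2.2 h1
  have hitem : ∀ j' k l, Item.sel j' k l ∈ items n M ψ →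
      ∃ c, ψ[j']? = some c ∧ (l = c.1 ∨ l = c.2.1 ∨ l = c.2.2) := by
    intro j' k l h
    rcases List.mem_append.1 h with h | h
    · obtain ⟨v, s, c, _, hc, he⟩ := mem_tokItems.1 h
      cases he
    · rcases List.mem_append.1 h with h | h
      · obtain ⟨v, _, he⟩ := mem_filItems.1 h; cases he
      · obtain ⟨j'', c', hc', he | he | he⟩ := mem_selItems.1 h
        · cases he; exact ⟨c', hc', Or.inl rfl⟩
        · cases he; exact ⟨c', hc', Or.inr (Or.inl rfl)⟩
        · cases he; exact ⟨c', hc', Or.inr (Or.inr rfl)⟩
  have hlit : ∀ j' k l, Item.sel j' k l ∈ items n M ψ → l.1 < n := by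
    intro j' k l h
    obtain ⟨c', hc', h⟩ := hitem j' k l h
    have hcm : c' ∈ ψ := List.mem_of_getElem? hc'
    obtain ⟨q1, q2, q3⟩ := hn c' hcm
    rcases h with rfl | rfl | rfl
    · exact q1
    · exact q2
    · exact q3
  obtain ⟨k, l, c', hsel, htok⟩ := bin_clause n M m hM j hjm _
    (fun j' k l h => hlit j' k l (hbmem _ hjb _ h)) e1 e2 e4 e5
  obtain ⟨c'', hc'', hl⟩ := hitem _ _ _ (hbmem _ hjb _ hsel)
  have hcc : c'' = c := by
    rw [hj] at hc''; exact (Option.some.inj hc'').symm
  subst hcc
  have hln : l.1 < n := hlit _ _ _ (hbmem _ hjb _ hsel)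
  have hcM : c' < M := by
    rcases List.mem_append.1 (hbmem _ hjb _ htok) with h | h
    · obtain ⟨v, s, c, _, hc, he⟩ := mem_tokItems.1 h
      cases he; exact hc
    · rcases List.mem_append.1 h with h | h
      · obtain ⟨v, _, he⟩ := mem_filItems.1 h; cases he
      · obtain ⟨j, c, _, he | he | he⟩ := mem_selItems.1 h <;> cases he
  have hneq : S l.1 ≠ l.2 := by
    intro he
    have h3 := hS l.1 hln c' hcM
    rw [he] at h3
    have hdis : List.Disjoint (bins[l.1]'(by omega)) (bins[n+j]'(by omega)) :=
      List.pairwise_iff_getElem.1 hnd2 l.1 (n+j) (by omega) (by omega) (by omega)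
    exact hdis h3 htok
  have hval : (!(S l.1)) = l.2 := by
    revert hneq
    cases S l.1 <;> cases l.2 <;> simp
  rcases hl with rfl | rfl | rfl
  · exact Or.inl hval
  · exact Or.inr (Or.inl hval)
  · exact Or.inr (Or.inr hval)

/-! ### from a satisfying assignment to a packing -/

/-- the chosen literal of a clause -/
def pick (θ : ℕ → Bool) (c : Cl) : ℕ × Lit :=
  if θ c.1.1 = c.1.2 then (0, c.1) else if θ c.2.1.1 = c.2.1.2 then (1, c.2.1) else (2, c.2.2)

theorem pick_spec (θ : ℕ → Bool) (c : Cl)
    (h : θ c.1.1 = c.1.2 ∨ θ c.2.1.1 = c.2.1.2 ∨ θ c.2.2.1 = c.2.2.2) :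
    θ (pick θ c).2.1 = (pick θ c).2.2 := by
  unfold pick
  split_ifs with h1 h2
  · exact h1
  · exact h2
  · rcases h with h | h | h
    · exact absurd h h1
    · exact absurd h h2
    · exact h

theorem pick_cases (θ : ℕ → Bool) (c : Cl) (j : ℕ) :
    (Item.sel j (pick θ c).1 (pick θ c).2 = .sel j 0 c.1) ∨
    (Item.sel j (pick θ c).1 (pick θ c).2 = .sel j 1 c.2.1) ∨
    (Item.sel j (pick θ c).1 (pick θ c).2 = .sel j 2 c.2.2) := by
  unfold pick
  split_ifs with h1 h2
  · exact Or.inl rfl
  · exact Or.inr (Or.inl rfl)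
  · exact Or.inr (Or.inr rfl)

def vItems (θ : ℕ → Bool) (M v : ℕ) : List Item :=
  (if θ v = true then [Item.fil v] else []) ++ (List.range M).map (fun c => .tok v (!(θ v)) c)

def cItems (θ : ℕ → Bool) (c : Cl) (j : ℕ) : List Item :=
  [.sel j (pick θ c).1 (pick θ c).2, .tok (pick θ c).2.1 (pick θ c).2.2 j]

theorem sum_vItems (θ : ℕ → Bool) (n M m K v : ℕ) :
    ((vItems θ M v).map (wt n M m K)).sum = vbin M K v := by
  have h1 : ((List.range M).map (fun c => wt n M m K (.tok v (!(θ v)) c))).sum =
      M * enc5 K 1 v (v * v) (!(θ v)).toNat 0 := by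
    have : ((List.range M).map (fun c => wt n M m K (.tok v (!(θ v)) c))) =
      (List.range M).map (fun _ => enc5 K 1 v (v * v) (!(θ v)).toNat 0) := rfl
    rw [this]
    simp
  unfold vItems
  rw [List.map_append, List.sum_append, List.map_map]
  have h2 : (wt n M m K ∘ fun c => Item.tok v (!(θ v)) c) = (fun c => wt n M m K (.tok v (!(θ v)) c)) := rfl
  rw [h2, h1, enc5_mul]
  by_cases hv : θ v = true
  · rw [if_pos hv]
    have h3 : (List.map (wt n M m K) [Item.fil v]).sum = enc5 K 0 0 0 M 0 := by
      simp [wt, dA, dB, dC, dS, dJ]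
    rw [h3, enc5_add, vbin, hv]
    simp
  · have hv' : θ v = false := by simpa using hv
    rw [if_neg hv, hv', vbin]
    simp

theorem sum_cItems (θ : ℕ → Bool) (n M m K j : ℕ) (c : Cl) (hl : (pick θ c).2.1 < n) :
    ((cItems θ c j).map (wt n M m K)).sum = cbin n m K j := by
  unfold cItems
  simp only [List.map_cons, List.map_nil, List.sum_cons, List.sum_nil, add_zero, wt, dA, dB, dC, dS, dJ]
  rw [enc5_add, cbin]
  have h1 : n - (pick θ c).2.1 + (pick θ c).2.1 = n := by omega
  have h2 : n * n - (pick θ c).2.1 * (pick θ c).2.1 + (pick θ c).2.1 * (pick θ c).2.1 = n * n := by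
    have : (pick θ c).2.1 * (pick θ c).2.1 ≤ n * n := Nat.mul_le_mul hl.le hl.le
    omega
  have h3 : 1 - (pick θ c).2.2.toNat + (pick θ c).2.2.toNat = 1 := by
    cases (pick θ c).2.2 <;> simp
  rw [h1, h2, h3, Nat.zero_add, Nat.add_zero]

theorem pack_of_sat (n M K : ℕ) (ψ : List Cl)
    (hn : ∀ c ∈ ψ, c.1.1 < n ∧ c.2.1.1 < n ∧ c.2.2.1 < n) (hm : ψ.length ≤ M)
    (h : Sat3 ψ) : PackL (items n M ψ) (wt n M ψ.length K) (binsAsc n M K ψ) := by
  obtain ⟨θ, hθ⟩ := h
  set m := ψ.length with hmdef
  have hpl : ∀ c ∈ ψ, (pick θ c).2.1 < n := by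
    intro c hc
    obtain ⟨h1, h2, h3⟩ := hn c hc
    unfold pick
    split_ifs
    · exact h1
    · exact h2
    · exact h3
  set rest : List (List Item) := (List.range n).map (vItems θ M) ++
    ψ.zipIdx.map (fun p => cItems θ p.1 p.2) with hrest
  have hmemzip : ∀ p ∈ ψ.zipIdx, ψ[p.2]? = some p.1 := by
    rintro ⟨c, j⟩ hp
    exact List.mk_mem_zipIdx_iff_getElem?.1 hp
  have hsums : rest.map (fun b => (b.map (wt n M m K)).sum) = restBins n M m K := by
    rw [hrest, List.map_append, restBins, List.map_map, List.map_map]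
    congr 1
    · apply List.map_congr_left
      intro v _
      exact sum_vItems θ n M m K v
    · have h1 : List.range m = ψ.zipIdx.map Prod.snd := by
        rw [List.zipIdx_map_snd, List.range_eq_range']
      rw [h1, List.map_map]
      apply List.map_congr_left
      intro p hp
      exact sum_cItems θ n M m K p.2 p.1 (hpl _ (List.mem_of_getElem? (hmemzip p hp)))
  have hsub : ∀ i ∈ rest.flatten, i ∈ items n M ψ := by
    intro i hi
    rw [hrest, List.flatten_append, List.mem_append] at hi
    rcases hi with hi | hi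
    · obtain ⟨b, hb, hib⟩ := List.mem_flatten.1 hi
      obtain ⟨v, hv, rfl⟩ := List.mem_map.1 hb
      rw [List.mem_range] at hv
      unfold vItems at hib
      rcases List.mem_append.1 hib with h | h
      · split_ifs at h with h1
        · rw [List.mem_singleton] at h
          rw [h]
          exact List.mem_append_right _ (List.mem_append_left _ (mem_filItems.2 ⟨v, hv, rfl⟩))
        · cases h
      · obtain ⟨c, hc, rfl⟩ := List.mem_map.1 h
        rw [List.mem_range] at hc
        exact List.mem_append_left _ (mem_tokItems.2 ⟨v, _, c, hv, hc, rfl⟩)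
    · obtain ⟨b, hb, hib⟩ := List.mem_flatten.1 hi
      obtain ⟨⟨c, j⟩, hp, rfl⟩ := List.mem_map.1 hb
      have hj := hmemzip _ hp
      simp only at hj
      have hjm : j < m := by
        by_contra hcon
        rw [List.getElem?_eq_none (by omega)] at hj; cases hj
      have hcψ : c ∈ ψ := List.mem_of_getElem? hj
      unfold cItems at hib
      simp only [List.mem_cons, List.not_mem_nil, or_false] at hib
      rcases hib with rfl | rfl
      · exact List.mem_append_right _ (List.mem_append_right _
          (mem_selItems.2 ⟨j, c, hj, pick_cases θ c j⟩))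
      · exact List.mem_append_left _ (mem_tokItems.2 ⟨_, _, j, hpl c hcψ, by omega, rfl⟩)
  have hnd : rest.flatten.Nodup := by
    rw [hrest, List.flatten_append, List.nodup_append']
    refine ⟨?_, ?_, ?_⟩
    · rw [List.nodup_flatten]
      constructor
      · intro b hb
        obtain ⟨v, hv, rfl⟩ := List.mem_map.1 hb
        unfold vItems
        rw [List.nodup_append']
        refine ⟨?_, ?_, ?_⟩
        · split_ifs <;> simp
        · rw [List.nodup_map_iff (by intro a b h; simpa using h)]
          exact List.nodup_range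
        · rw [List.disjoint_left]
          intro i hi hi'
          obtain ⟨c, _, rfl⟩ := List.mem_map.1 hi'
          split_ifs at hi
          · rw [List.mem_singleton] at hi; cases hi
          · cases hi
      · rw [List.pairwise_map]
        refine List.nodup_range.imp ?_
        intro v v' hvv
        rw [List.disjoint_left]
        have key : ∀ v i, i ∈ vItems θ M v → i = .fil v ∨ ∃ c, i = .tok v (!(θ v)) c := by
          intro v i hi
          unfold vItems at hi
          rcases List.mem_append.1 hi with h | h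
          · split_ifs at h
            · exact Or.inl (List.mem_singleton.1 h)
            · cases h
          · obtain ⟨c, _, rfl⟩ := List.mem_map.1 h
            exact Or.inr ⟨c, rfl⟩
        intro i hi hi'
        rcases key v i hi with rfl | ⟨c, rfl⟩
        · rcases key v' _ hi' with h | ⟨c, h⟩
          · cases h; exact hvv rfl
          · cases h
        · rcases key v' _ hi' with h | ⟨c, h⟩
          · cases h
          · rw [Item.tok.injEq] at h
            exact hvv h.1
    · rw [List.nodup_flatten]
      constructor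
      · intro b hb
        obtain ⟨⟨c, j⟩, hp, rfl⟩ := List.mem_map.1 hb
        unfold cItems
        simp
      · rw [List.pairwise_map]
        have hnd' : (ψ.zipIdx.map Prod.snd).Nodup := by
          rw [List.zipIdx_map_snd]; exact List.nodup_range'
        rw [List.Nodup, List.pairwise_map] at hnd'
        refine hnd'.imp ?_
        intro p p' hpp
        rw [List.disjoint_left]
        intro i hi hi'
        unfold cItems at hi hi'
        simp only [List.mem_cons, List.not_mem_nil, or_false] at hi hi'
        rcases hi with rfl | rfl <;> rcases hi' with h | h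
        · rw [Item.sel.injEq] at h; exact hpp h.1
        · cases h
        · cases h
        · rw [Item.tok.injEq] at h; exact hpp h.2.2
    · rw [List.disjoint_left]
      intro i hi hi'
      obtain ⟨b, hb, hib⟩ := List.mem_flatten.1 hi
      obtain ⟨v, hv, rfl⟩ := List.mem_map.1 hb
      obtain ⟨b', hb', hib'⟩ := List.mem_flatten.1 hi'
      obtain ⟨⟨c, j⟩, hp, rfl⟩ := List.mem_map.1 hb'
      have hj := hmemzip _ hp
      have hcψ : c ∈ ψ := List.mem_of_getElem? hj
      have hsp := pick_spec θ c (hθ c hcψ)
      unfold cItems at hib'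
      unfold vItems at hib
      simp only [List.mem_cons, List.not_mem_nil, or_false] at hib'
      rcases hib' with rfl | rfl
      · rcases List.mem_append.1 hib with h | h
        · split_ifs at h
          · rw [List.mem_singleton] at h; cases h
          · cases h
        · obtain ⟨c', _, h⟩ := List.mem_map.1 h
          cases h
      · rcases List.mem_append.1 hib with h | h
        · split_ifs at h
          · rw [List.mem_singleton] at h; cases h
          · cases h
        · obtain ⟨c', _, h⟩ := List.mem_map.1 h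
          rw [Item.tok.injEq] at h
          obtain ⟨h1, h2, h3⟩ := h
          rw [← h1] at hsp
          rw [← hsp] at h2
          revert h2
          cases θ v <;> simp
  -- the garbage bin
  set garb := (items n M ψ).filter (fun i => !decide (i ∈ rest.flatten)) with hgarb
  have hperm : (rest.flatten ++ garb).Perm (items n M ψ) := by
    have h1 : rest.flatten.Perm ((items n M ψ).filter (fun i => decide (i ∈ rest.flatten))) := by
      rw [List.perm_ext_iff_of_nodup hnd ((nodup_items n M ψ).filter _)]
      intro i
      rw [List.mem_filter]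
      constructor
      · intro hi; exact ⟨hsub i hi, by simpa using hi⟩
      · intro hi; simpa using hi.2
    exact (h1.append_right _).trans (List.filter_append_perm _ _)
  refine ⟨rest ++ [garb], ?_, ?_⟩
  · rw [List.flatten_append]
    simpa using hperm
  · rw [List.map_append, hsums, binsAsc]
    congr 1
    rw [List.map_singleton, garbage, ← hmdef]
    congr 1
    have h1 := (hperm.map (wt n M m K)).sum_eq
    rw [List.map_append, List.sum_append] at h1
    have h2 : (rest.flatten.map (wt n M m K)).sum = (restBins n M m K).sum := by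
      rw [← hsums, List.map_flatten, List.sum_flatten, List.map_map]
      rfl
    rw [h2] at h1
    omega

end Pool.Agent.H39.Feas
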