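import Mathlib
import Pool.Agent.H39.FeasSat2

set_option autoImplicit false

namespace Pool.Agent.H39.Feas

theorem sum_enc5 {α : Type} (K : ℕ) (a b c s j : α → ℕ) (L : List α) :
    (L.map (fun x => enc5 K (a x) (b x) (c x) (s x) (j x))).sum =
      enc5 K (L.map a).sum (L.map b).sum (L.map c).sum (L.map s).sum (L.map j).sum := by
  induction L with
  | nil => simp [enc5]
  | cons x L ih =>
    simp only [List.map_cons, List.sum_cons]
    rw [ih, enc5_add]

theorem sum_map_le {α : Type} (f : α → ℕ) (B : ℕ) (L : List α) (h : ∀ x ∈ L, f x ≤ B) :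
    (L.map f).sum ≤ L.length * B := by
  induction L with
  | nil => simp
  | cons x L ih =>
    simp only [List.map_cons, List.sum_cons, List.length_cons]
    have h1 := h x (by simp)
    have h2 := ih (fun y hy => h y (by simp [hy]))
    rw [Nat.add_mul, one_mul]; omega

/-- parameters -/
def Bpar (n M m : ℕ) : ℕ := n * n + M + 2 * m + 1
def Npar (n M m : ℕ) : ℕ := 2 * n * M + n + 3 * m
def Kpar (n M m : ℕ) : ℕ := Npar n M m * Bpar n M m + 1

theorem length_items (n M : ℕ) (ψ : List Cl) : (items n M ψ).length = Npar n M ψ.length := by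
  have h1 : (tokItems n M).length = n * (M * 2) := by
    unfold tokItems
    rw [List.length_flatMap]
    have : (fun v => ((List.range M).flatMap
        (fun c => [Item.tok v false c, Item.tok v true c])).length) = fun _ => M * 2 := by
      funext v
      rw [List.length_flatMap]
      simp
    rw [this]
    simp
  have h2 : (filItems n).length = n := by simp [filItems]
  have h3 : (selItems ψ).length = ψ.length * 3 := by
    unfold selItems
    rw [List.length_flatMap]
    simp
  unfold items Npar
  rw [List.length_append, List.length_append, h1, h2, h3]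
  ring

theorem items_cases {n M : ℕ} {ψ : List Cl} {i : Item} (h : i ∈ items n M ψ) :
    (∃ v s c, v < n ∧ c < M ∧ i = .tok v s c) ∨ (∃ v, v < n ∧ i = .fil v) ∨
    (∃ j k l, j < ψ.length ∧ i = .sel j k l) := by
  rcases List.mem_append.1 h with h | h
  · exact Or.inl (mem_tokItems.1 h)
  · rcases List.mem_append.1 h with h | h
    · exact Or.inr (Or.inl (mem_filItems.1 h))
    · refine Or.inr (Or.inr ?_)
      obtain ⟨j, c, hc, h⟩ := mem_selItems.1 h
      have hj : j < ψ.length := by
        by_contra hcon
        rw [List.getElem?_eq_none (by omega)] at hc; cases hc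
      rcases h with rfl | rfl | rfl
      · exact ⟨j, _, _, hj, rfl⟩
      · exact ⟨j, _, _, hj, rfl⟩
      · exact ⟨j, _, _, hj, rfl⟩

theorem dA_le {n M : ℕ} {ψ : List Cl} {i : Item} (h : i ∈ items n M ψ) :
    dA i ≤ Bpar n M ψ.length := by
  unfold Bpar
  rcases items_cases h with ⟨v, s, c, hv, hc, rfl⟩ | ⟨v, hv, rfl⟩ | ⟨j, k, l, hj, rfl⟩ <;>
    simp only [dA] <;> omega

theorem dB_le {n M : ℕ} {ψ : List Cl} {i : Item} (h : i ∈ items n M ψ) :
    dB n i ≤ Bpar n M ψ.length := by
  unfold Bpar
  have hnn : n ≤ n * n := Nat.le_mul_self n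
  rcases items_cases h with ⟨v, s, c, hv, hc, rfl⟩ | ⟨v, hv, rfl⟩ | ⟨j, k, l, hj, rfl⟩ <;>
    simp only [dB] <;> omega

theorem dC_le {n M : ℕ} {ψ : List Cl} {i : Item} (h : i ∈ items n M ψ) :
    dC n i ≤ Bpar n M ψ.length := by
  unfold Bpar
  rcases items_cases h with ⟨v, s, c, hv, hc, rfl⟩ | ⟨v, hv, rfl⟩ | ⟨j, k, l, hj, rfl⟩ <;>
    simp only [dC]
  · have : v * v ≤ n * n := Nat.mul_le_mul hv.le hv.le
    omega
  · omega
  · omega

theorem dS_le {n M : ℕ} {ψ : List Cl} {i : Item} (h : i ∈ items n M ψ) :
    dS M i ≤ Bpar n M ψ.length := by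
  unfold Bpar
  rcases items_cases h with ⟨v, s, c, hv, hc, rfl⟩ | ⟨v, hv, rfl⟩ | ⟨j, k, l, hj, rfl⟩ <;>
    simp only [dS]
  · have : s.toNat ≤ 1 := Bool.toNat_le s
    omega
  · omega
  · omega

theorem digit_total_lt {n M : ℕ} {ψ : List Cl} (g : Item → ℕ)
    (h : ∀ i ∈ items n M ψ, g i ≤ Bpar n M ψ.length) :
    ((items n M ψ).map g).sum < Kpar n M ψ.length := by
  have h1 := sum_map_le g (Bpar n M ψ.length) (items n M ψ) h
  rw [length_items] at h1
  unfold Kpar
  omega

/-- the sum of the selector digits -/
def SJ (m : ℕ) : ℕ := ((List.range m).map (fun j => m + 1 + j)).sum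

theorem SJ_ge (m : ℕ) : m * (m + 1) ≤ SJ m := by
  have : ∀ k, k * (m + 1) ≤ ((List.range k).map (fun j => m + 1 + j)).sum := by
    intro k
    induction k with
    | zero => simp
    | succ k ih =>
      rw [List.range_succ, List.map_append, List.sum_append, Nat.add_mul, one_mul]
      simp only [List.map_cons, List.map_nil, List.sum_cons, List.sum_nil, add_zero]
      omega
  exact this m

theorem sum_dJ_items (n M : ℕ) (ψ : List Cl) :
    ((items n M ψ).map (dJ ψ.length)).sum = 3 * SJ ψ.length := by
  set m := ψ.length with hm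
  have h1 : ((tokItems n M).map (dJ m)).sum = 0 := by
    rw [List.sum_eq_zero_iff]
    intro x hx
    obtain ⟨i, hi, rfl⟩ := List.mem_map.1 hx
    obtain ⟨v, s, c, _, _, rfl⟩ := mem_tokItems.1 hi
    rfl
  have h2 : ((filItems n).map (dJ m)).sum = 0 := by
    rw [List.sum_eq_zero_iff]
    intro x hx
    obtain ⟨i, hi, rfl⟩ := List.mem_map.1 hx
    obtain ⟨v, _, rfl⟩ := mem_filItems.1 hi
    rfl
  have h3 : ∀ L : List (Cl × ℕ), ((L.flatMap (fun p => [Item.sel p.2 0 p.1.1, .sel p.2 1 p.1.2.1,
      .sel p.2 2 p.1.2.2])).map (dJ m)).sum = 3 * (L.map (fun p => m + 1 + p.2)).sum := by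
    intro L
    induction L with
    | nil => simp
    | cons p L ih =>
      rw [List.flatMap_cons, List.map_append, List.sum_append, ih]
      simp only [List.map_cons, List.map_nil, List.sum_cons, List.sum_nil, add_zero, dJ]
      ring
  have h4 : (ψ.zipIdx.map (fun p => m + 1 + p.2)).sum = SJ m := by
    have : List.range m = ψ.zipIdx.map Prod.snd := by
      rw [List.zipIdx_map_snd, List.range_eq_range']
    unfold SJ
    rw [this, List.map_map]
    rfl
  unfold items
  rw [List.map_append, List.sum_append, List.map_append, List.sum_append, h1, h2, selItems, h3, h4]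
  omega

section
variable {n M m : ℕ}

theorem le_NB (hn : 1 ≤ n) {a b : ℕ} (ha : a ≤ n * M + m) (hb : b ≤ n * n) :
    a * b < Kpar n M m := by
  have h1 : a ≤ Npar n M m := by
    unfold Npar
    have : 2 * n * M = n * M + n * M := by ring
    omega
  have h2 : b ≤ Bpar n M m := by unfold Bpar; omega
  have := Nat.mul_le_mul h1 h2
  unfold Kpar; omega

theorem sum_restBins_lt (hn : 1 ≤ n) :
    (restBins n M m (Kpar n M m)).sum <
      Kpar n M m * (Kpar n M m * (Kpar n M m * (Kpar n M m * (SJ m + 1)))) := by
  set K := Kpar n M m with hK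
  have h1 : ((List.range n).map (vbin M K)).sum = enc5 K ((List.range n).map (fun _ => M)).sum
      ((List.range n).map (fun v => M * v)).sum ((List.range n).map (fun v => M * (v * v))).sum
      ((List.range n).map (fun _ => M)).sum ((List.range n).map (fun _ => 0)).sum :=
    sum_enc5 K _ _ _ _ _ _
  have h2 : ((List.range m).map (cbin n m K)).sum = enc5 K ((List.range m).map (fun _ => 1)).sum
      ((List.range m).map (fun _ => n)).sum ((List.range m).map (fun _ => n * n)).sum
      ((List.range m).map (fun _ => 1)).sum ((List.range m).map (fun j => m + 1 + j)).sum :=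
    sum_enc5 K _ _ _ _ _ _
  have e1 : ((List.range n).map (fun _ => M)).sum = n * M := by simp
  have e2 : ((List.range n).map (fun v => M * v)).sum ≤ n * (M * n) := by
    have := sum_map_le (fun v => M * v) (M * n) (List.range n) (fun x hx => by
      rw [List.mem_range] at hx
      exact Nat.mul_le_mul_left _ hx.le)
    simpa using this
  have e3 : ((List.range n).map (fun v => M * (v * v))).sum ≤ n * (M * (n * n)) := by
    have := sum_map_le (fun v => M * (v * v)) (M * (n * n)) (List.range n) (fun x hx => by
      rw [List.mem_range] at hx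
      exact Nat.mul_le_mul_left _ (Nat.mul_le_mul hx.le hx.le))
    simpa using this
  have e4 : ((List.range m).map (fun _ => 1)).sum = m := by simp
  have e5 : ((List.range m).map (fun _ => n)).sum = m * n := by simp
  have e6 : ((List.range m).map (fun _ => n * n)).sum = m * (n * n) := by simp
  have e7 : ((List.range n).map (fun _ => 0)).sum = 0 := by simp
  unfold restBins
  rw [List.sum_append, h1, h2, enc5_add]
  have h3 : ((List.range n).map (fun _ => 0)).sum + ((List.range m).map (fun j => m + 1 + j)).sum
      = SJ m := by rw [e7]; unfold SJ; omega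
  rw [h3]
  have k1 : n * M + m < K := by
    have := le_NB (n := n) (M := M) (m := m) hn (a := n * M + m) (b := 1) le_rfl
      (Nat.one_le_iff_ne_zero.2 (by positivity))
    omega
  apply enc5_lt
  · rw [e1, e4]; exact k1
  · rw [e5]
    have := le_NB (n := n) (M := M) (m := m) hn (a := n * M + m) (b := n) le_rfl (Nat.le_mul_self n)
    have h : (n * M + m) * n = n * (M * n) + m * n := by ring
    omega
  · rw [e6]
    have := le_NB (n := n) (M := M) (m := m) hn (a := n * M + m) (b := n * n) le_rfl le_rfl
    have h : (n * M + m) * (n * n) = n * (M * (n * n)) + m * (n * n) := by ring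
    omega
  · rw [e1, e4]; exact k1

end

theorem total_ge (n M K : ℕ) (ψ : List Cl) :
    K * (K * (K * (K * (3 * SJ ψ.length)))) ≤ ((items n M ψ).map (wt n M ψ.length K)).sum := by
  rw [sum_wt, sum_dJ_items]
  exact le_enc5 _ _ _ _ _ _

theorem restBins_le_total {n M : ℕ} (ψ : List Cl) (hn : 1 ≤ n) (hm : 1 ≤ ψ.length) :
    (restBins n M ψ.length (Kpar n M ψ.length)).sum +
      Kpar n M ψ.length * (Kpar n M ψ.length * (Kpar n M ψ.length *
        (Kpar n M ψ.length * (2 * ψ.length + 1)))) ≤
      ((items n M ψ).map (wt n M ψ.length (Kpar n M ψ.length))).sum := by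
  have h1 := sum_restBins_lt (n := n) (M := M) (m := ψ.length) hn
  have h2 := total_ge n M (Kpar n M ψ.length) ψ
  have h3 := SJ_ge ψ.length
  have h4 : SJ ψ.length + 1 + (2 * ψ.length + 1) ≤ 3 * SJ ψ.length := by nlinarith
  set K := Kpar n M ψ.length
  have h5 : K * (K * (K * (K * (SJ ψ.length + 1)))) + K * (K * (K * (K * (2 * ψ.length + 1))))
      ≤ K * (K * (K * (K * (3 * SJ ψ.length)))) := by
    have : K * (K * (K * (K * (SJ ψ.length + 1)))) + K * (K * (K * (K * (2 * ψ.length + 1))))
      = K * (K * (K * (K * (SJ ψ.length + 1 + (2 * ψ.length + 1))))) := by ring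
    rw [this]
    gcongr
  omega

theorem sorted_binsAsc {n M : ℕ} (ψ : List Cl) (hn : 1 ≤ n) (hm : 1 ≤ ψ.length) :
    (binsAsc n M (Kpar n M ψ.length) ψ).Pairwise (· ≤ ·) := by
  have hbig := restBins_le_total (n := n) (M := M) ψ hn hm
  set m := ψ.length with hmdef
  set K := Kpar n M m with hK
  have hG : K * (K * (K * (K * (2 * m + 1)))) ≤ garbage n M K ψ := by
    unfold garbage
    rw [← hmdef]
    omega
  have hv : ∀ v < n, vbin M K v < K * (K * (K * (K * 1))) := by
    intro v hv
    unfold vbin
    have hMM : M ≤ n * M + m := by nlinarith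
    apply enc5_lt
    · have := le_NB (n := n) (M := M) (m := m) hn (a := M) (b := 1) hMM (by nlinarith)
      omega
    · exact le_NB (n := n) (M := M) (m := m) hn hMM (by nlinarith)
    · exact le_NB (n := n) (M := M) (m := m) hn hMM (by nlinarith)
    · have := le_NB (n := n) (M := M) (m := m) hn (a := M) (b := 1) hMM (by nlinarith)
      omega
  have hc : ∀ j < m, cbin n m K j < K * (K * (K * (K * (2 * m + 1)))) := by
    intro j hj
    unfold cbin
    have h1 : 1 ≤ n * M + m := by omega
    have h2 : enc5 K 1 n (n * n) 1 (m + 1 + j) < K * (K * (K * (K * (m + 1 + j + 1)))) := by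
      apply enc5_lt
      · have := le_NB (n := n) (M := M) (m := m) hn (a := 1) (b := 1) h1 (by nlinarith)
        omega
      · have := le_NB (n := n) (M := M) (m := m) hn (a := 1) (b := n) h1 (by nlinarith)
        omega
      · have := le_NB (n := n) (M := M) (m := m) hn (a := 1) (b := n * n) h1 le_rfl
        omega
      · have := le_NB (n := n) (M := M) (m := m) hn (a := 1) (b := 1) h1 (by nlinarith)
        omega
    refine lt_of_lt_of_le h2 ?_
    gcongr
    omega
  have hv2 : ∀ v < n, ∀ j, vbin M K v ≤ cbin n m K j := by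
    intro v hvn j
    refine (hv v hvn).le.trans ?_
    unfold cbin
    refine le_trans ?_ (le_enc5 _ _ _ _ _ _)
    gcongr
    omega
  unfold binsAsc
  rw [← hmdef, List.pairwise_append]
  refine ⟨?_, List.pairwise_singleton _ _, ?_⟩
  · unfold restBins
    rw [List.pairwise_append]
    refine ⟨?_, ?_, ?_⟩
    · rw [List.pairwise_map]
      refine List.pairwise_lt_range.imp ?_
      intro a b hab
      unfold vbin
      exact enc5_mono le_rfl (Nat.mul_le_mul_left _ hab.le)
        (Nat.mul_le_mul_left _ (Nat.mul_le_mul hab.le hab.le)) le_rfl le_rfl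
    · rw [List.pairwise_map]
      refine List.pairwise_lt_range.imp ?_
      intro a b hab
      unfold cbin
      exact enc5_mono le_rfl le_rfl le_rfl le_rfl (by omega)
    · intro a ha b hb
      obtain ⟨v, hvn, rfl⟩ := List.mem_map.1 ha
      obtain ⟨j, _, rfl⟩ := List.mem_map.1 hb
      exact hv2 v (List.mem_range.1 hvn) j
  · intro a ha b hb
    rw [List.mem_singleton] at hb
    subst hb
    refine le_trans ?_ hG
    unfold restBins at ha
    rcases List.mem_append.1 ha with h | h
    · obtain ⟨v, hvn, rfl⟩ := List.mem_map.1 h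
      refine (hv v (List.mem_range.1 hvn)).le.trans ?_
      gcongr
      omega
    · obtain ⟨j, hj, rfl⟩ := List.mem_map.1 h
      exact (hc j (List.mem_range.1 hj)).le

/-! ### relabelling the items -/

theorem split_flatten_map {α β : Type} (g : β → α) : ∀ (bins : List (List α)) (R : List β),
    bins.flatten = R.map g →
    ∃ bins' : List (List β), bins'.flatten = R ∧ bins'.map (List.map g) = bins
  | [], R, h => by
    rw [List.flatten_nil] at h
    have : R = [] := by
      cases R with
      | nil => rfl
      | cons a R => simp at h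
    subst this
    exact ⟨[], rfl, rfl⟩
  | (b :: bins), R, h => by
    rw [List.flatten_cons] at h
    obtain ⟨l1, l2, h1, h2, h3⟩ := List.map_eq_append_iff.1 h.symm
    obtain ⟨bins', h4, h5⟩ := split_flatten_map g bins l2 h3.symm
    refine ⟨l1 :: bins', ?_, ?_⟩
    · rw [List.flatten_cons, h4, h1]
    · rw [List.map_cons, h5, h2]

theorem pack_map {α β : Type} (g : β → α) (L : List β) (w : α → ℕ) (cs : List ℕ) :
    PackL (L.map g) w cs ↔ PackL L (fun b => w (g b)) cs := by
  constructor
  · rintro ⟨bins, hp, hs⟩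
    have h1 : List.Forall₂ (fun a b => a = g b) (L.map g) L := by
      rw [List.forall₂_map_left_iff, List.forall₂_same]
      intro x _; rfl
    obtain ⟨L', h2, h3⟩ := List.perm_comp_forall₂ hp h1
    have h4 : bins.flatten = L'.map g := by
      rw [← List.forall₂_eq_eq_eq, List.forall₂_map_right_iff]
      exact h2
    obtain ⟨bins', h5, h6⟩ := split_flatten_map g bins L' h4
    refine ⟨bins', by rw [h5]; exact h3, ?_⟩
    rw [← hs, ← h6, List.map_map]
    apply List.map_congr_left
    intro b _
    simp [Function.comp_def]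
  · rintro ⟨bins, hp, hs⟩
    refine ⟨bins.map (List.map g), ?_, ?_⟩
    · rw [← List.map_flatten]
      exact hp.map g
    · rw [← hs, List.map_map]
      apply List.map_congr_left
      intro b _
      simp [Function.comp_def]

theorem pack_range {α : Type} (L : List α) (w : α → ℕ) (cs : List ℕ) :
    PackL (List.range (L.map w).length) (fun i => (L.map w).getD i 0) cs ↔ PackL L w cs := by
  have h1 : (List.range (L.map w).length).map (fun i => (L.map w).getD i 0) = L.map w := by
    apply List.ext_getElem
    · simp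
    · intro i h1 h2
      rw [List.getElem_map, List.getElem_range, List.getD_eq_getElem?_getD,
        List.getElem?_eq_getElem h2]
      rfl
  have h2 := pack_map (fun i => (L.map w).getD i 0) (List.range (L.map w).length) id cs
  rw [h1] at h2
  have h3 := pack_map w L id cs
  exact h2.symm.trans h3

/-- the sizes of the items and of the bins (descending) produced from a 3-CNF -/
def satSizes (n M : ℕ) (ψ : List Cl) : List ℕ :=
  (items n M ψ).map (wt n M ψ.length (Kpar n M ψ.length))

def satBins (n M : ℕ) (ψ : List Cl) : List ℕ := (binsAsc n M (Kpar n M ψ.length) ψ).reverse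

/-- the instance of FEAS produced from a 3-CNF -/
def redu (n M : ℕ) (ψ : List Cl) : List (List ℕ) := feasInst (satSizes n M ψ) (satBins n M ψ)

theorem feas_redu_iff (n M : ℕ) (ψ : List Cl) (hn1 : 1 ≤ n) (hm1 : 1 ≤ ψ.length)
    (hn : ∀ c ∈ ψ, c.1.1 < n ∧ c.2.1.1 < n ∧ c.2.2.1 < n) (hM : 2 ≤ M) (hm : ψ.length ≤ M) :
    FEAS (redu n M ψ) ↔ Sat3 ψ := by
  unfold redu
  have hbig := restBins_le_total (n := n) (M := M) ψ hn1 hm1
  have hsort : (satBins n M ψ).Pairwise (fun a b => b ≤ a) := by
    unfold satBins
    rw [List.pairwise_reverse]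
    exact sorted_binsAsc ψ hn1 hm1
  have hpos : ∀ x ∈ satSizes n M ψ, 1 ≤ x := by
    intro x hx
    obtain ⟨i, hi, rfl⟩ := List.mem_map.1 hx
    have hK1 : 1 ≤ Kpar n M ψ.length := by unfold Kpar; omega
    have hm : 1 ≤ ψ.length := hm1
    unfold wt enc5
    rcases i with ⟨v, s, c⟩ | ⟨v⟩ | ⟨j, k, l⟩
    · simp only [dA]; omega
    · simp only [dA, dB, dC, dS, dJ]
      have : 1 ≤ Kpar n M ψ.length * (0 + Kpar n M ψ.length * (0 + Kpar n M ψ.length *
          (M + Kpar n M ψ.length * 0))) := by
        apply Nat.one_le_iff_ne_zero.2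
        have hM0 : M ≠ 0 := by omega
        have hK0 : Kpar n M ψ.length ≠ 0 := by omega
        simp [hM0, hK0]
      omega
    · have h1 := le_enc5 (Kpar n M ψ.length) (dA (.sel j k l)) (dB n (.sel j k l))
        (dC n (.sel j k l)) (dS M (.sel j k l)) (dJ ψ.length (.sel j k l))
      unfold enc5 at h1
      refine le_trans ?_ h1
      apply Nat.one_le_iff_ne_zero.2
      have hK0 : Kpar n M ψ.length ≠ 0 := by omega
      simp [hK0, dJ]
  have hsum : (satSizes n M ψ).sum = (satBins n M ψ).sum := by
    unfold satSizes satBins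
    rw [List.sum_reverse, binsAsc, List.sum_append, garbage]
    simp only [List.sum_cons, List.sum_nil, add_zero]
    omega
  have hne : satBins n M ψ ≠ [] := by
    unfold satBins binsAsc
    simp
  rw [feas_iff_pack _ _ hne hsort hpos hsum]
  unfold satSizes
  rw [pack_range]
  have hperm : (satBins n M ψ).Perm (binsAsc n M (Kpar n M ψ.length) ψ) := List.reverse_perm _
  have hp2 : PackL (items n M ψ) (wt n M ψ.length (Kpar n M ψ.length)) (satBins n M ψ) ↔
      PackL (items n M ψ) (wt n M ψ.length (Kpar n M ψ.length)) (binsAsc n M (Kpar n M ψ.length) ψ) :=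
    ⟨pack_perm_cs hperm, pack_perm_cs hperm.symm⟩
  rw [hp2]
  constructor
  · intro h
    have hMM : M ≤ n * M + ψ.length := by nlinarith
    have h11 : 1 ≤ n * M + ψ.length := by omega
    refine sat_of_pack n M _ ψ hn hM (digit_total_lt _ (fun i hi => dA_le hi))
      (digit_total_lt _ (fun i hi => dB_le hi)) (digit_total_lt _ (fun i hi => dC_le hi))
      (digit_total_lt _ (fun i hi => dS_le hi)) ?_ ?_ h
    · intro v hv
      have q1 : v ≤ n * n := by nlinarith
      have q2 : v * v ≤ n * n := Nat.mul_le_mul hv.le hv.le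
      have q3 : 1 ≤ n * n := by nlinarith
      refine ⟨le_NB hn1 hMM q2, le_NB hn1 hMM q1, ?_⟩
      have := le_NB (n := n) (M := M) (m := ψ.length) hn1 (a := M) (b := 1) hMM q3
      omega
    · have q3 : 1 ≤ n * n := by nlinarith
      have a1 := le_NB (n := n) (M := M) (m := ψ.length) hn1 (a := 1) (b := n * n) h11 le_rfl
      have a2 := le_NB (n := n) (M := M) (m := ψ.length) hn1 (a := 1) (b := n) h11 (Nat.le_mul_self n)
      have a3 : 1 < Kpar n M ψ.length := by
        have := le_NB (n := n) (M := M) (m := ψ.length) hn1 (a := 1) (b := 1) h11 q3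
        omega
      exact ⟨by omega, by omega, a3⟩
  · intro h
    exact pack_of_sat n M _ ψ hn hm h

end Pool.Agent.H39.Feas
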