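import Mathlib
import Pool.Agent.H39.FeasSat3
import Pool.Agent.H72.NP.Hard3Sat

set_option autoImplicit false

namespace Pool.Agent.H39.Feas

open Pool.Agent.H80.Poly Pool.Agent.H72.NP

variable {Γ : Type} [BEnc Γ]

theorem polyTime_enc5 {K a b c s j : Γ → ℕ} (hK : PolyTime K) (ha : PolyTime a) (hb : PolyTime b)
    (hc : PolyTime c) (hs : PolyTime s) (hj : PolyTime j) :
    PolyTime (fun x => enc5 (K x) (a x) (b x) (c x) (s x) (j x)) := by
  unfold enc5
  exact ha.add (hK.mul (hb.add (hK.mul (hc.add (hK.mul (hs.add (hK.mul hj)))))))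

theorem pu_Bpar {n M m : Γ → ℕ} (hn : PU n) (hM : PU M) (hm : PU m) :
    PU (fun x => Bpar (n x) (M x) (m x)) := by
  unfold Bpar
  exact (((hn.mul hn).add hM).add ((PU.const 2).mul hm)).add (PU.const 1)

theorem pu_Npar {n M m : Γ → ℕ} (hn : PU n) (hM : PU M) (hm : PU m) :
    PU (fun x => Npar (n x) (M x) (m x)) := by
  unfold Npar
  exact ((((PU.const 2).mul hn).mul hM).add hn).add ((PU.const 3).mul hm)

theorem pu_Kpar {n M m : Γ → ℕ} (hn : PU n) (hM : PU M) (hm : PU m) :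
    PU (fun x => Kpar (n x) (M x) (m x)) := by
  unfold Kpar
  exact ((pu_Npar hn hM hm).mul (pu_Bpar hn hM hm)).add (PU.const 1)

theorem satSizes_eq (n M : ℕ) (ψ : List Cl) : satSizes n M ψ =
    ((List.range n).flatMap (fun v => (List.range M).flatMap (fun _ =>
      [enc5 (Kpar n M ψ.length) 1 v (v * v) 0 0, enc5 (Kpar n M ψ.length) 1 v (v * v) 1 0]))) ++
    (((List.range n).map (fun _ => enc5 (Kpar n M ψ.length) 0 0 0 M 0)) ++
    (ψ.zipIdx.flatMap (fun p =>
      [enc5 (Kpar n M ψ.length) 0 (n - p.1.1.1) (n * n - p.1.1.1 * p.1.1.1) (1 - p.1.1.2.toNat)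
        (ψ.length + 1 + p.2),
       enc5 (Kpar n M ψ.length) 0 (n - p.1.2.1.1) (n * n - p.1.2.1.1 * p.1.2.1.1)
        (1 - p.1.2.1.2.toNat) (ψ.length + 1 + p.2),
       enc5 (Kpar n M ψ.length) 0 (n - p.1.2.2.1) (n * n - p.1.2.2.1 * p.1.2.2.1)
        (1 - p.1.2.2.2.toNat) (ψ.length + 1 + p.2)]))) := by
  unfold satSizes items tokItems filItems selItems
  rw [List.map_append, List.map_append, List.map_flatMap, List.map_flatMap, List.map_map]
  congr 1
  · congr 1
    funext v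
    rw [List.map_flatMap]
    rfl

theorem polyTime_satSizes {ψ : Γ → List Cl} {n M : Γ → ℕ} (hψ : PolyTime ψ) (hn : PU n)
    (hM : PU M) : PolyTime (fun x => satSizes (n x) (M x) (ψ x)) := by
  have hm : PU (fun x => (ψ x).length) := PU.length hψ
  have hK : PolyTime (fun x => Kpar (n x) (M x) (ψ x).length) := (pu_Kpar hn hM hm).1
  have hw : PolyTime (fun w : Γ × ℕ => w) := PolyTime.id
  have hu : PolyTime (fun w : (Γ × ℕ) × ℕ => w) := PolyTime.id
  have hz : PolyTime (fun w : Γ × (Cl × ℕ) => w) := PolyTime.id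
  have h1 : PolyTime (fun x => (List.range (n x)).flatMap (fun v => (List.range (M x)).flatMap (fun _ =>
      [enc5 (Kpar (n x) (M x) (ψ x).length) 1 v (v * v) 0 0,
        enc5 (Kpar (n x) (M x) (ψ x).length) 1 v (v * v) 1 0]))) := by
    have hKu : PolyTime (fun w : (Γ × ℕ) × ℕ => Kpar (n w.1.1) (M w.1.1) (ψ w.1.1).length) :=
      hK.comp (f := fun w : (Γ × ℕ) × ℕ => w.1.1) hu.fst.fst
    refine (PU.range hn).flatMap (g := fun w : Γ × ℕ => (List.range (M w.1)).flatMap (fun _ =>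
      [enc5 (Kpar (n w.1) (M w.1) (ψ w.1).length) 1 w.2 (w.2 * w.2) 0 0,
        enc5 (Kpar (n w.1) (M w.1) (ψ w.1).length) 1 w.2 (w.2 * w.2) 1 0])) ?_
    refine (PU.range (PU.comp hM hw.fst)).flatMap (g := fun w : (Γ × ℕ) × ℕ =>
      [enc5 (Kpar (n w.1.1) (M w.1.1) (ψ w.1.1).length) 1 w.1.2 (w.1.2 * w.1.2) 0 0,
        enc5 (Kpar (n w.1.1) (M w.1.1) (ψ w.1.1).length) 1 w.1.2 (w.1.2 * w.1.2) 1 0]) ?_
    refine PolyTime.cons ?_ (polyTime_single ?_)
    · exact polyTime_enc5 hKu (PolyTime.const 1) hu.fst.snd (hu.fst.snd.mul hu.fst.snd)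
        (PolyTime.const 0) (PolyTime.const 0)
    · exact polyTime_enc5 hKu (PolyTime.const 1) hu.fst.snd (hu.fst.snd.mul hu.fst.snd)
        (PolyTime.const 1) (PolyTime.const 0)
  have h2 : PolyTime (fun x => (List.range (n x)).map (fun _ =>
      enc5 (Kpar (n x) (M x) (ψ x).length) 0 0 0 (M x) 0)) := by
    refine (PU.range hn).map (g := fun w : Γ × ℕ =>
      enc5 (Kpar (n w.1) (M w.1) (ψ w.1).length) 0 0 0 (M w.1) 0) ?_
    exact polyTime_enc5 (hK.comp (f := fun w : Γ × ℕ => w.1) hw.fst) (PolyTime.const 0)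
      (PolyTime.const 0) (PolyTime.const 0) (hM.1.comp (f := fun w : Γ × ℕ => w.1) hw.fst)
      (PolyTime.const 0)
  have h3 : PolyTime (fun x => (ψ x).zipIdx.flatMap (fun p =>
      [enc5 (Kpar (n x) (M x) (ψ x).length) 0 (n x - p.1.1.1) (n x * n x - p.1.1.1 * p.1.1.1)
        (1 - p.1.1.2.toNat) ((ψ x).length + 1 + p.2),
       enc5 (Kpar (n x) (M x) (ψ x).length) 0 (n x - p.1.2.1.1)
        (n x * n x - p.1.2.1.1 * p.1.2.1.1) (1 - p.1.2.1.2.toNat) ((ψ x).length + 1 + p.2),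
       enc5 (Kpar (n x) (M x) (ψ x).length) 0 (n x - p.1.2.2.1)
        (n x * n x - p.1.2.2.1 * p.1.2.2.1) (1 - p.1.2.2.2.toNat) ((ψ x).length + 1 + p.2)])) := by
    have hK' := hK.comp (f := fun w : Γ × (Cl × ℕ) => w.1) hz.fst
    have hn' := hn.1.comp (f := fun w : Γ × (Cl × ℕ) => w.1) hz.fst
    have hm' := hm.1.comp (f := fun w : Γ × (Cl × ℕ) => w.1) hz.fst
    have hJ : PolyTime (fun w : Γ × (Cl × ℕ) => (ψ w.1).length + 1 + w.2.2) :=
      hm'.succ.add hz.snd.snd
    have hsel : ∀ {l : Γ × (Cl × ℕ) → Lit}, PolyTime l → PolyTime (fun w : Γ × (Cl × ℕ) =>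
        enc5 (Kpar (n w.1) (M w.1) (ψ w.1).length) 0 (n w.1 - (l w).1)
          (n w.1 * n w.1 - (l w).1 * (l w).1) (1 - (l w).2.toNat) ((ψ w.1).length + 1 + w.2.2)) := by
      intro l hl
      exact polyTime_enc5 hK' (PolyTime.const 0) (hn'.sub hl.fst)
        ((hn'.mul hn').sub (hl.fst.mul hl.fst)) ((PolyTime.const 1).sub hl.snd.toNat) hJ
    refine hψ.zipIdx.flatMap (g := fun w : Γ × (Cl × ℕ) =>
      [enc5 (Kpar (n w.1) (M w.1) (ψ w.1).length) 0 (n w.1 - w.2.1.1.1)
        (n w.1 * n w.1 - w.2.1.1.1 * w.2.1.1.1)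
        (1 - w.2.1.1.2.toNat) ((ψ w.1).length + 1 + w.2.2),
       enc5 (Kpar (n w.1) (M w.1) (ψ w.1).length) 0 (n w.1 - w.2.1.2.1.1)
        (n w.1 * n w.1 - w.2.1.2.1.1 * w.2.1.2.1.1) (1 - w.2.1.2.1.2.toNat)
        ((ψ w.1).length + 1 + w.2.2),
       enc5 (Kpar (n w.1) (M w.1) (ψ w.1).length) 0 (n w.1 - w.2.1.2.2.1)
        (n w.1 * n w.1 - w.2.1.2.2.1 * w.2.1.2.2.1) (1 - w.2.1.2.2.2.toNat)
        ((ψ w.1).length + 1 + w.2.2)]) ?_
    exact PolyTime.cons (hsel hz.snd.fst.fst) (PolyTime.cons (hsel hz.snd.fst.snd.fst)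
      (polyTime_single (hsel hz.snd.fst.snd.snd)))
  exact (h1.append (h2.append h3)).congr (fun x => (satSizes_eq _ _ _).symm)

theorem polyTime_restBins {n M m K : Γ → ℕ} (hn : PU n) (hM : PU M) (hm : PU m) (hK : PolyTime K) :
    PolyTime (fun x => restBins (n x) (M x) (m x) (K x)) := by
  have hw : PolyTime (fun w : Γ × ℕ => w) := PolyTime.id
  have hK' := hK.comp (f := fun w : Γ × ℕ => w.1) hw.fst
  have hn' := hn.1.comp (f := fun w : Γ × ℕ => w.1) hw.fst
  have hM' := hM.1.comp (f := fun w : Γ × ℕ => w.1) hw.fst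
  have hm' := hm.1.comp (f := fun w : Γ × ℕ => w.1) hw.fst
  unfold restBins
  refine PolyTime.append ?_ ?_
  · refine (PU.range hn).map (g := fun w : Γ × ℕ => vbin (M w.1) (K w.1) w.2) ?_
    unfold vbin
    exact polyTime_enc5 hK' hM' (hM'.mul hw.snd) (hM'.mul (hw.snd.mul hw.snd)) hM' (PolyTime.const 0)
  · refine (PU.range hm).map (g := fun w : Γ × ℕ => cbin (n w.1) (m w.1) (K w.1) w.2) ?_
    unfold cbin
    exact polyTime_enc5 hK' (PolyTime.const 1) hn' (hn'.mul hn') (PolyTime.const 1)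
      (hm'.succ.add hw.snd)

theorem polyTime_satBins {ψ : Γ → List Cl} {n M : Γ → ℕ} (hψ : PolyTime ψ) (hn : PU n)
    (hM : PU M) : PolyTime (fun x => satBins (n x) (M x) (ψ x)) := by
  have hm : PU (fun x => (ψ x).length) := PU.length hψ
  have hK : PolyTime (fun x => Kpar (n x) (M x) (ψ x).length) := (pu_Kpar hn hM hm).1
  have hr := polyTime_restBins hn hM hm hK
  have hs := (polyTime_satSizes hψ hn hM).sum
  unfold satBins binsAsc garbage
  exact (hr.append (polyTime_single (hs.sub hr.sum))).reverse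

theorem SJ_le (m : ℕ) : SJ m ≤ m * (2 * m + 1) := by
  unfold SJ
  have := sum_map_le (fun j => m + 1 + j) (2 * m + 1) (List.range m) (fun x hx => by
    rw [List.mem_range] at hx
    show m + 1 + x ≤ 2 * m + 1
    omega)
  rwa [List.length_range] at this

theorem satSizes_sum_le (n M : ℕ) (ψ : List Cl) : (satSizes n M ψ).sum ≤
    Kpar n M ψ.length * (Kpar n M ψ.length * (Kpar n M ψ.length * (Kpar n M ψ.length *
      (3 * (ψ.length * (2 * ψ.length + 1)) + 1)))) := by
  unfold satSizes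
  rw [sum_wt, sum_dJ_items]
  refine (enc5_lt (digit_total_lt _ (fun i hi => dA_le hi))
      (digit_total_lt _ (fun i hi => dB_le hi)) (digit_total_lt _ (fun i hi => dC_le hi))
      (digit_total_lt _ (fun i hi => dS_le hi))).le.trans ?_
  have := SJ_le ψ.length
  gcongr

theorem pu_sum_satSizes {ψ : Γ → List Cl} {n M : Γ → ℕ} (hψ : PolyTime ψ) (hn : PU n)
    (hM : PU M) : PU (fun x => (satSizes (n x) (M x) (ψ x)).sum) := by
  have hm : PU (fun x => (ψ x).length) := PU.length hψ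
  have hK := pu_Kpar hn hM hm
  refine PU.of_le (polyTime_satSizes hψ hn hM).sum ?_ (fun x => satSizes_sum_le _ _ _)
  exact hK.mul (hK.mul (hK.mul (hK.mul (((PU.const 3).mul
    (hm.mul (((PU.const 2).mul hm).add (PU.const 1)))).add (PU.const 1)))))

theorem polyTime_redu {ψ : Γ → List Cl} {n M : Γ → ℕ} (hψ : PolyTime ψ) (hn : PU n)
    (hM : PU M) : PolyTime (fun x => redu (n x) (M x) (ψ x)) := by
  have hxs := polyTime_satSizes hψ hn hM
  have hcs := polyTime_satBins hψ hn hM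
  have hsum := pu_sum_satSizes hψ hn hM
  have hw : PolyTime (fun w : Γ × ℕ => w) := PolyTime.id
  have hcs1 : PolyTime (fun x => (satBins (n x) (M x) (ψ x)).map (· + 1)) :=
    hcs.map (g := fun w : Γ × ℕ => w.2 + 1) hw.snd.succ
  have hD := hcs1.sum
  have hD' := hD.comp (f := fun w : Γ × ℕ => w.1) hw.fst
  have hmin : PU (fun w : Γ × ℕ => min w.2 (satSizes (n w.1) (M w.1) (ψ w.1)).sum) :=
    PU.of_le (hw.snd.min (hsum.1.comp (f := fun w : Γ × ℕ => w.1) hw.fst))
      (PU.comp hsum hw.fst) (fun _ => min_le_right _ _)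
  have hmin1 := hmin.sub (PolyTime.const 1)
  have hvec : PolyTime (fun w : Γ × ℕ =>
      blockVec ((satBins (n w.1) (M w.1) (ψ w.1)).map (· + 1)).sum
        (min w.2 (satSizes (n w.1) (M w.1) (ψ w.1)).sum)) := by
    unfold blockVec
    exact PolyTime.cons (hD'.sub hmin1.1) (PolyTime.replicate hmin1.1 hmin1.2 (PolyTime.const 1))
  refine (hcs1.cons (hxs.map (g := fun w : Γ × ℕ =>
      blockVec ((satBins (n w.1) (M w.1) (ψ w.1)).map (· + 1)).sum
        (min w.2 (satSizes (n w.1) (M w.1) (ψ w.1)).sum)) hvec)).congr (fun x => ?_)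
  unfold redu feasInst
  congr 1
  apply List.map_congr_left
  intro y hy
  rw [min_eq_left (List.le_sum_of_mem hy)]

/-! ### NP-hardness -/

theorem feas_trivial : FEAS [[1]] := by
  refine ⟨⟨by simp, by simp, by simp, by simp [total]⟩, [0], by simp [total], by simp, ?_⟩
  intro i h
  simp only [List.length_cons, List.length_nil, zero_add, Nat.lt_one_iff] at h
  subst h
  refine ⟨by simp, ?_⟩
  have h1 : positions [0] 0 = [0] := by decide
  rw [h1]
  simp [total, cyclicDistances]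

theorem redu_nil : redu 0 2 [] = [[1]] := by
  have h1 : satSizes 0 2 [] = [] := by
    simp [satSizes, items, tokItems, filItems, selItems]
  have h2 : satBins 0 2 [] = [0] := by
    simp [satBins, binsAsc, restBins, garbage, items, tokItems, filItems, selItems]
  unfold redu
  rw [h1, h2]
  simp [feasInst]

theorem npHard_feas : NPHard (BEnc.enc (α := List (List ℕ))) FEAS := by
  refine npHard_of_sat3 (fun ψ => redu (3 * ψ.length) (ψ.length + 2) ψ) ?_ ?_
  · have hψ : PolyTime (fun ψ : List Clause3 => ψ) := PolyTime.id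
    exact polyTime_redu hψ ((PU.const 3).mul (PU.length hψ)) ((PU.length hψ).add (PU.const 2))
  · intro ψ hd
    by_cases h0 : ψ = []
    · subst h0
      have h1 : redu (3 * ([] : List Clause3).length) (([] : List Clause3).length + 2) [] = [[1]] :=
        redu_nil
      rw [h1]
      exact ⟨fun _ => feas_trivial, fun _ => ⟨fun _ => true, fun c hc => by cases hc⟩⟩
    · have hm : 1 ≤ ψ.length := List.length_pos_iff.2 h0
      exact (feas_redu_iff (3 * ψ.length) (ψ.length + 2) ψ (by omega) hm hd (by omega)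
        (by omega)).symm

end Pool.Agent.H39.Feas
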