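import Mathlib
import Pool.Agent.H39.FeasDefs
import Pool.Agent.H80.Poly.More
import Pool.Agent.H72.NP.TabPoly

set_option autoImplicit false

namespace Pool.Agent.H39.Feas

open Pool.Agent.H80.Poly Pool.Agent.H72.NP

variable {Γ : Type} [BEnc Γ]

/-! ### decoding witnesses -/

/-- one step of the decoder: the state is (current letter, letters so far, reversed) -/
def decStep (s : ℕ × List ℕ) (b : Bool) : ℕ × List ℕ :=
  bif b then (s.1 + 1, s.2) else (0, s.1 :: s.2)

/-- decode a word from `1^a 0 1^b 0 ...` -/
def decW (w : List Bool) : List ℕ := (w.foldl decStep (0, [])).2.reverse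

/-- encode a word -/
def encW (S : List ℕ) : List Bool := S.flatMap (fun a => List.replicate a true ++ [false])

theorem foldl_replicate_true (k a : ℕ) (L : List ℕ) :
    (List.replicate k true).foldl decStep (a, L) = (a + k, L) := by
  induction k generalizing a with
  | zero => rfl
  | succ k ih =>
    rw [List.replicate_succ, List.foldl_cons]
    have : decStep (a, L) true = (a + 1, L) := rfl
    rw [this, ih]
    congr 1
    omega

theorem foldl_encW (S : List ℕ) (L : List ℕ) :
    (encW S).foldl decStep (0, L) = (0, S.reverse ++ L) := by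
  induction S generalizing L with
  | nil => rfl
  | cons a S ih =>
    have : encW (a :: S) = (List.replicate a true ++ [false]) ++ encW S := by
      unfold encW; rw [List.flatMap_cons]
    rw [this, List.foldl_append, List.foldl_append, foldl_replicate_true]
    have h2 : List.foldl decStep (0 + a, L) [false] = (0, a :: L) := by
      simp [decStep]
    rw [h2, ih]
    simp

theorem decW_encW (S : List ℕ) : decW (encW S) = S := by
  unfold decW
  rw [foldl_encW]
  simp

theorem length_encW (S : List ℕ) : (encW S).length = S.sum + S.length := by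
  induction S with
  | nil => rfl
  | cons a S ih =>
    have : encW (a :: S) = (List.replicate a true ++ [false]) ++ encW S := by
      unfold encW; rw [List.flatMap_cons]
    rw [this, List.length_append, ih]
    simp
    omega

theorem size_decStep (s : ℕ × List ℕ) (b : Bool) : size (decStep s b) ≤ size s + 4 := by
  obtain ⟨a, L⟩ := s
  cases b with
  | true =>
    have h1 : decStep (a, L) true = (a + 1, L) := rfl
    rw [h1, size_pair, size_pair]
    have h2 := size_add_le a 1
    have h3 : size (1 : ℕ) ≤ 1 := size_nat_le_self 1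
    omega
  | false =>
    have h1 : decStep (a, L) false = (0, a :: L) := rfl
    rw [h1, size_pair, size_pair, size_cons]
    have h3 : size (0 : ℕ) ≤ 0 := size_nat_le_self 0
    omega

theorem polyTime_decW {w : Γ → List Bool} (hw : PolyTime w) : PolyTime (fun x => decW (w x)) := by
  have hz : PolyTime (fun z : Γ × (ℕ × List ℕ) × Bool => z) := PolyTime.id
  have hstep : PolyTime (fun z : Γ × (ℕ × List ℕ) × Bool => decStep z.2.1 z.2.2) := by
    unfold decStep
    exact PolyTime.cond hz.snd.snd (hz.snd.fst.fst.succ.pair hz.snd.fst.snd)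
      ((PolyTime.const 0).pair (hz.snd.fst.fst.cons hz.snd.fst.snd))
  have h1 := PolyTime.foldl_add (l := w) (f := fun _ => ((0, []) : ℕ × List ℕ))
    (h := fun z : Γ × (ℕ × List ℕ) × Bool => decStep z.2.1 z.2.2) hw (PolyTime.const _) hstep
    ⟨fun _ => 4, PB.const 4, fun a s x _ => size_decStep s x⟩
  exact h1.snd.reverse

/-! ### the checks -/

theorem cyclicDistances_eq (D : ℕ) (l : List ℕ) :
    cyclicDistances D l = List.zipWith (fun b a => b - a) (l.tail ++ [l.headD 0 + D]) l := by
  cases l with
  | nil => simp [cyclicDistances]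
  | cons p ps => rfl

theorem polyTime_cyclicDistances {D : Γ → ℕ} {l : Γ → List ℕ} (hD : PolyTime D) (hl : PolyTime l) :
    PolyTime (fun x => cyclicDistances (D x) (l x)) := by
  have hw : PolyTime (fun w : Γ × ℕ × ℕ => w) := PolyTime.id
  have h1 : PolyTime (fun x => (l x).tail ++ [(l x).headD 0 + D x]) :=
    hl.tail.append (polyTime_single ((hl.headD 0).add hD))
  refine (h1.zipWith hl (g := fun w : Γ × ℕ × ℕ => w.2.1 - w.2.2)
    (hw.snd.fst.sub hw.snd.snd)).congr (fun x => ?_)
  exact (cyclicDistances_eq _ _).symm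

theorem polyTime_positions {S : Γ → List ℕ} {i : Γ → ℕ} (hS : PolyTime S) (hi : PolyTime i) :
    PolyTime (fun x => positions (S x) (i x)) := by
  have hw : PolyTime (fun w : Γ × ℕ => w) := PolyTime.id
  refine ((PU.range (PU.length hS)).filter (g := fun w : Γ × ℕ => decide ((S w.1)[w.2]? = some (i w.1)))
    (PolyTime.eq ((hS.comp hw.fst).getElem? hw.snd) (hi.comp hw.fst).some)).congr (fun x => ?_)
  rfl

theorem polyTime_total {I : Γ → List (List ℕ)} (hI : PolyTime I) : PU (fun x => total (I x)) := by
  have hw : PolyTime (fun w : Γ × List ℕ => w) := PolyTime.id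
  have h1 : PolyTime (fun x => (I x).flatten.length) := (PolyTime.flatten hI).length
  have h2 : PU (fun x => (I x).flatten.length) := PU.length (PolyTime.flatten hI)
  have : (fun x => total (I x)) = fun x => (I x).flatten.length := by
    funext x; unfold total; rw [List.length_flatten]
  rw [this]
  exact h2

/-- a permutation test by counting -/
def permB (l l' : List ℕ) : Bool :=
  decide (∀ a ∈ l ++ l', l.countP (fun b => decide (b = a)) = l'.countP (fun b => decide (b = a)))

theorem permB_iff (l l' : List ℕ) : permB l l' = true ↔ l.Perm l' := by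
  unfold permB
  rw [decide_eq_true_iff, List.perm_iff_count]
  have hc : ∀ (a : ℕ) (l : List ℕ), l.countP (fun b => decide (b = a)) = l.count a := by
    intro a l
    unfold List.count
    congr 1
  constructor
  · intro h a
    by_cases ha : a ∈ l ++ l'
    · have := h a ha
      rwa [hc, hc] at this
    · rw [List.mem_append, not_or] at ha
      rw [List.count_eq_zero.2 ha.1, List.count_eq_zero.2 ha.2]
  · intro h a _
    rw [hc, hc]
    exact h a

theorem polyTime_permB {l l' : Γ → List ℕ} (hl : PolyTime l) (hl' : PolyTime l') :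
    PolyTime (fun x => permB (l x) (l' x)) := by
  have hw : PolyTime (fun w : Γ × ℕ => w) := PolyTime.id
  have hu : PolyTime (fun w : (Γ × ℕ) × ℕ => w) := PolyTime.id
  have hc : ∀ {l : Γ → List ℕ}, PolyTime l →
      PolyTime (fun w : Γ × ℕ => (l w.1).countP (fun b => decide (b = w.2))) := by
    intro l hl
    exact (hl.comp hw.fst).countP (g := fun u : (Γ × ℕ) × ℕ => decide (u.2 = u.1.2))
      (PolyTime.eq hu.snd hu.fst.snd)
  unfold permB
  exact PolyTime.forallMem (hl.append hl') (P := fun x a =>
    (l x).countP (fun b => decide (b = a)) = (l' x).countP (fun b => decide (b = a)))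
    (PolyTime.eq (hc hl) (hc hl'))

/-- test of the descending order -/
def descB (l : List ℕ) : Bool :=
  decide (∀ p ∈ l.zipIdx, ∀ q ∈ l.zipIdx, p.2 < q.2 → q.1 ≤ p.1)

theorem descB_iff (l : List ℕ) : descB l = true ↔ l.Pairwise (fun a b => b ≤ a) := by
  unfold descB
  rw [decide_eq_true_iff, List.pairwise_iff_getElem]
  constructor
  · intro h i j hi hj hij
    exact h (l[i], i) (List.mk_mem_zipIdx_iff_getElem?.2 (List.getElem?_eq_getElem hi))
      (l[j], j) (List.mk_mem_zipIdx_iff_getElem?.2 (List.getElem?_eq_getElem hj)) hij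
  · rintro h ⟨a, i⟩ hp ⟨b, j⟩ hq hij
    rw [List.mk_mem_zipIdx_iff_getElem?, List.getElem?_eq_some_iff] at hp hq
    obtain ⟨hi, rfl⟩ := hp
    obtain ⟨hj, rfl⟩ := hq
    exact h i j hi hj hij

theorem polyTime_descB {l : Γ → List ℕ} (hl : PolyTime l) : PolyTime (fun x => descB (l x)) := by
  have hw : PolyTime (fun w : Γ × (ℕ × ℕ) => w) := PolyTime.id
  have hu : PolyTime (fun u : (Γ × (ℕ × ℕ)) × (ℕ × ℕ) => u) := PolyTime.id
  unfold descB
  refine PolyTime.forallMem hl.zipIdx (P := fun x p => ∀ q ∈ (l x).zipIdx, p.2 < q.2 → q.1 ≤ p.1) ?_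
  refine PolyTime.forallMem (l := fun w : Γ × (ℕ × ℕ) => (l w.1).zipIdx) (hl.zipIdx.comp hw.fst)
    (P := fun w q => w.2.2 < q.2 → q.1 ≤ w.2.1) ?_
  refine ((PolyTime.lt hu.fst.snd.snd hu.snd.snd).not.or
    (PolyTime.le hu.snd.fst hu.fst.snd.fst)).congr (fun z => ?_)
  rw [Bool.eq_iff_iff]
  simp only [Bool.or_eq_true, Bool.not_eq_true', decide_eq_false_iff_not, decide_eq_true_eq]
  tauto

/-- test that the input is an instance -/
def instB (I : List (List ℕ)) : Bool :=
  decide (∀ α ∈ I, (((α.isEmpty = false ∧ (∀ a ∈ α, 0 < a)) ∧ descB α = true) ∧ α.sum = total I))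

theorem instB_iff (I : List (List ℕ)) : instB I = true ↔ IsInstance I := by
  unfold instB
  rw [decide_eq_true_iff]
  constructor
  · intro h
    exact ⟨fun α hα => by simpa using (h α hα).1.1.1, fun α hα => (h α hα).1.1.2,
      fun α hα => (descB_iff α).1 (h α hα).1.2, fun α hα => (h α hα).2⟩
  · intro h α hα
    exact ⟨⟨⟨by simpa using h.nonempty α hα, h.pos α hα⟩, (descB_iff α).2 (h.sorted α hα)⟩,
      h.sum_eq α hα⟩

theorem polyTime_instB {I : Γ → List (List ℕ)} (hI : PolyTime I) :
    PolyTime (fun x => instB (I x)) := by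
  have hw : PolyTime (fun w : Γ × List ℕ => w) := PolyTime.id
  have hu : PolyTime (fun w : (Γ × List ℕ) × ℕ => w) := PolyTime.id
  unfold instB
  refine PolyTime.forallMem hI (P := fun x α => (((α.isEmpty = false ∧ (∀ a ∈ α, 0 < a)) ∧
    descB α = true) ∧ α.sum = total (I x))) ?_
  refine PolyTime.decAnd (P := fun z : Γ × List ℕ => ((z.2.isEmpty = false ∧ (∀ a ∈ z.2, 0 < a)) ∧
    descB z.2 = true)) (Q := fun z => z.2.sum = total (I z.1)) ?_ ?_
  · refine PolyTime.decAnd (P := fun z : Γ × List ℕ => (z.2.isEmpty = false ∧ (∀ a ∈ z.2, 0 < a)))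
      (Q := fun z => descB z.2 = true) ?_ ?_
    · refine PolyTime.decAnd (P := fun z : Γ × List ℕ => z.2.isEmpty = false)
        (Q := fun z => ∀ a ∈ z.2, 0 < a) ?_ ?_
      · exact PolyTime.eq hw.snd.isEmpty (PolyTime.const false)
      · exact PolyTime.forallMem hw.snd (P := fun _ a => 0 < a) (PolyTime.lt (PolyTime.const 0) hu.snd)
    · exact PolyTime.eq (polyTime_descB hw.snd) (PolyTime.const true)
  · exact PolyTime.eq hw.snd.sum ((polyTime_total hI).1.comp hw.fst)

/-- test that the word realises the instance -/
def realB (I : List (List ℕ)) (S : List ℕ) : Bool :=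
  decide ((S.length = total I ∧ (∀ a ∈ S, a < I.length)) ∧
    ∀ p ∈ I.zipIdx, S.countP (fun b => decide (b = p.2)) = p.1.length ∧
      permB (cyclicDistances (total I) (positions S p.2)) p.1 = true)

theorem realB_iff (I : List (List ℕ)) (S : List ℕ) : realB I S = true ↔ Realises I S := by
  have hc : ∀ (a : ℕ) (l : List ℕ), l.countP (fun b => decide (b = a)) = l.count a := by
    intro a l
    unfold List.count
    congr 1
  unfold realB Realises
  rw [decide_eq_true_iff]
  constructor
  · rintro ⟨⟨h1, h2⟩, h3⟩
    refine ⟨h1, h2, fun i hi => ?_⟩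
    have h4 := h3 (I[i], i) (List.mk_mem_zipIdx_iff_getElem?.2 (List.getElem?_eq_getElem hi))
    rw [hc, permB_iff] at h4
    exact h4
  · rintro ⟨h1, h2, h3⟩
    refine ⟨⟨h1, h2⟩, ?_⟩
    rintro ⟨α, i⟩ hp
    rw [List.mk_mem_zipIdx_iff_getElem?, List.getElem?_eq_some_iff] at hp
    obtain ⟨hi, rfl⟩ := hp
    rw [hc, permB_iff]
    exact h3 i hi

theorem polyTime_realB {I : Γ → List (List ℕ)} {S : Γ → List ℕ} (hI : PolyTime I)
    (hS : PolyTime S) : PolyTime (fun x => realB (I x) (S x)) := by
  have hw : PolyTime (fun w : Γ × ℕ => w) := PolyTime.id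
  have hz : PolyTime (fun w : Γ × (List ℕ × ℕ) => w) := PolyTime.id
  have hu : PolyTime (fun w : (Γ × (List ℕ × ℕ)) × ℕ => w) := PolyTime.id
  have hT := (polyTime_total hI).1
  unfold realB
  refine PolyTime.decAnd (P := fun x => (S x).length = total (I x) ∧ (∀ a ∈ S x, a < (I x).length))
    (Q := fun x => ∀ p ∈ (I x).zipIdx, (S x).countP (fun b => decide (b = p.2)) = p.1.length ∧
      permB (cyclicDistances (total (I x)) (positions (S x) p.2)) p.1 = true) ?_ ?_
  · refine PolyTime.decAnd (P := fun x => (S x).length = total (I x))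
      (Q := fun x => ∀ a ∈ S x, a < (I x).length) ?_ ?_
    · exact PolyTime.eq hS.length hT
    · exact PolyTime.forallMem hS (P := fun x a => a < (I x).length)
        (PolyTime.lt hw.snd (hI.length.comp hw.fst))
  · refine PolyTime.forallMem hI.zipIdx (P := fun x p =>
      (S x).countP (fun b => decide (b = p.2)) = p.1.length ∧
      permB (cyclicDistances (total (I x)) (positions (S x) p.2)) p.1 = true) ?_
    refine PolyTime.decAnd (P := fun z : Γ × (List ℕ × ℕ) =>
        (S z.1).countP (fun b => decide (b = z.2.2)) = z.2.1.length)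
      (Q := fun z => permB (cyclicDistances (total (I z.1)) (positions (S z.1) z.2.2)) z.2.1 = true)
      ?_ ?_
    · refine PolyTime.eq ?_ hz.snd.fst.length
      exact (hS.comp hz.fst).countP
        (g := fun u : (Γ × (List ℕ × ℕ)) × ℕ => decide (u.2 = u.1.2.2))
        (PolyTime.eq hu.snd hu.fst.snd.snd)
    · exact PolyTime.eq (polyTime_permB (polyTime_cyclicDistances (hT.comp hz.fst)
        (polyTime_positions (hS.comp hz.fst) hz.snd.snd)) hz.snd.fst) (PolyTime.const true)

/-- the verifier -/
def verB (x : List (List ℕ) × List Bool) : Bool := instB x.1 && realB x.1 (decW x.2)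

theorem polyTime_verB : PolyTime verB := by
  have hw : PolyTime (fun w : List (List ℕ) × List Bool => w) := PolyTime.id
  unfold verB
  exact (polyTime_instB hw.fst).and (polyTime_realB hw.fst (polyTime_decW hw.snd))

theorem feas_iff_verB (I : List (List ℕ)) : FEAS I ↔
    ∃ w : List Bool, w.length ≤ (Polynomial.X * Polynomial.X + Polynomial.X : Polynomial ℕ).eval
      (size I) ∧ verB (I, w) = true := by
  constructor
  · rintro ⟨h1, S, hS⟩
    refine ⟨encW S, ?_, ?_⟩
    · rw [length_encW]
      have hlen : S.length ≤ size I := by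
        rw [hS.1]
        unfold total
        have : ∀ I : List (List ℕ), (I.map List.length).sum ≤ size I := by
          intro I
          induction I with
          | nil => simp
          | cons α I ih =>
            rw [List.map_cons, List.sum_cons, size_cons]
            have := length_le_size α
            omega
        exact this I
      have hsum : S.sum ≤ S.length * size I := by
        have h2 : ∀ a ∈ S, a ≤ size I := fun a ha =>
          (hS.2.1 a ha).le.trans (length_le_size I)
        have := List.sum_le_card_nsmul S (size I) h2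
        simpa using this
      have h3 : S.length * size I ≤ size I * size I := Nat.mul_le_mul_right _ hlen
      simp only [Polynomial.eval_add, Polynomial.eval_mul, Polynomial.eval_X]
      omega
    · unfold verB
      rw [Bool.and_eq_true, instB_iff, realB_iff, decW_encW]
      exact ⟨h1, hS⟩
  · rintro ⟨w, _, h⟩
    unfold verB at h
    rw [Bool.and_eq_true, instB_iff, realB_iff] at h
    exact ⟨h.1, _, h.2⟩

end Pool.Agent.H39.Feas
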