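import Mathlib

set_option autoImplicit false
open MeasureTheory Filter Topology Set Asymptotics

namespace Pool.Agent.H39.WC

variable {B : Type*} [NormedAddCommGroup B] [NormedSpace ℂ B]

/-- The (semi)group `exp (t A)` generated by the bounded operator `A`. -/
noncomputable def sgrp (A : B →L[ℂ] B) (t : ℝ) : B →L[ℂ] B :=
  NormedSpace.exp ((t : ℂ) • A)

/-- The interaction-picture perturbation `L_t = (U⁰_t)⁻¹ L U⁰_t` with `U⁰_t = exp (t L0)`. -/
noncomputable def inter (L0 L : B →L[ℂ] B) (t : ℝ) : B →L[ℂ] B :=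
  sgrp L0 (-t) * L * sgrp L0 t

/-- The operator `∑ j, lam ^ j • G j`, polynomial in `lam` with operator coefficients `G j`. -/
noncomputable def polyOp {a : ℕ} (G : Fin a → (B →L[ℂ] B)) (lam : ℝ) : B →L[ℂ] B :=
  ∑ j : Fin a, (lam : ℂ) ^ (j : ℕ) • G j

/-- The operator `P X P`, viewed as an operator on the range of `P`. -/
noncomputable def compress (P X : B →L[ℂ] B) :
    LinearMap.range P.toLinearMap →L[ℂ] LinearMap.range P.toLinearMap :=
  (P.codRestrict (LinearMap.range P.toLinearMap) (fun x => LinearMap.mem_range_self _ x)) ∘L X ∘L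
    (LinearMap.range P.toLinearMap).subtypeL

/-- The hypotheses on `P`, `L0`, `L` which do not concern integrability (with, in addition, the
unperturbed group isometric): `P` is a projection with finite-dimensional range, `U⁰_t = exp (t L0)`
is isometric and commutes with `P` (so that it leaves `P B` and `(1 - P) B` invariant), and
`P L P = 0`. -/
structure Setting (P L0 L : B →L[ℂ] B) : Prop where
  proj : P * P = P
  finiteRank : FiniteDimensional ℂ (LinearMap.range P.toLinearMap)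
  isometric : ∀ (t : ℝ) (x : B), ‖sgrp L0 t x‖ = ‖x‖
  invariant : ∀ t : ℝ, sgrp L0 t * P = P * sgrp L0 t
  offDiagonal : P * L * P = 0

/-- The set `{(t_1, ..., t_k) : t_k < ... < t_1 < t}`. -/
def simplex (k : ℕ) (t : ℝ) : Set (Fin k → ℝ) := {τ | (∀ i, τ i < t) ∧ StrictAnti τ}

/-- For every `t`, `‖P L_{t_1} ⋯ L_{t_k} P‖` is integrable over `{t_k < ... < t_1 < t}`. -/
def IntegrableOrder (P L0 L : B →L[ℂ] B) (k : ℕ) : Prop :=
  ∀ t : ℝ, IntegrableOn
    (fun τ : Fin k → ℝ => ‖P * (List.ofFn fun i => inter L0 L (τ i)).prod * P‖) (simplex k t)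

/-- For every `t`, `‖P L_t L_{t_1} ⋯ L_{t_k} P‖` is integrable over `{t_k < ... < t_1 < t}`. -/
def IntegrableRelative (P L0 L : B →L[ℂ] B) (k : ℕ) : Prop :=
  ∀ t : ℝ, IntegrableOn
    (fun τ : Fin k → ℝ => ‖P * (inter L0 L t * (List.ofFn fun i => inter L0 L (τ i)).prod) * P‖)
    (simplex k t)

/-- For the given `t` there are polynomial families `G`, `R` of operators on the range of `P` with
`P (U⁰_{t/λ²})⁻¹ U^λ_{t/λ²} P = exp (t G^λ) R^λ + O(λ ^ N)` as `λ → 0+`, where
`U^λ_s = exp (s (L0 + λ L))`. -/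
def HasPolyAsymptotics (P L0 L : B →L[ℂ] B) (N : ℕ) (t : ℝ) : Prop :=
  ∃ (a b : ℕ)
    (G : Fin a → (LinearMap.range P.toLinearMap →L[ℂ] LinearMap.range P.toLinearMap))
    (R : Fin b → (LinearMap.range P.toLinearMap →L[ℂ] LinearMap.range P.toLinearMap)),
    (fun lam : ℝ =>
        compress P (sgrp L0 (-(t / lam ^ 2)) * sgrp (L0 + (lam : ℂ) • L) (t / lam ^ 2)) -
          sgrp (polyOp G lam) t * polyOp R lam) =O[𝓝[>] 0] (fun lam : ℝ => lam ^ N)

end Pool.Agent.H39.WC
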