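import Mathlib

set_option autoImplicit false
open MeasureTheory Filter Topology Set

namespace Pool.Agent.H39.WC

/-- A nonnegative continuous integrable kernel with tail bound `C/(1+t)` and infinite first
moment. -/
structure IsKernel (g : ℝ → ℝ) (C : ℝ) : Prop where
  cont : Continuous g
  nonneg : ∀ s, 0 ≤ g s
  int : Integrable g
  Cpos : 0 < C
  tail : ∀ t, 0 ≤ t → ∫ s in Ioi t, g s ≤ C / (1 + t)
  nonint : ¬ IntegrableOn (fun s => s * g s) (Ioi 0)

/-- iterated convolutions of the constant function `1` with `g`. -/
noncomputable def gam (g : ℝ → ℝ) : ℕ → ℝ → ℝ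
  | 0, _ => 1
  | (j+1), t => ∫ u in (0:ℝ)..t, gam g j u * g (t - u)

variable {g : ℝ → ℝ} {C : ℝ}

theorem continuous_gam (hg : Continuous g) : ∀ j, Continuous (gam g j)
  | 0 => by
    have : gam g 0 = fun _ => 1 := by funext t; simp [gam]
    rw [this]; exact continuous_const
  | (j+1) => by
    have ih := continuous_gam hg j
    have : gam g (j+1) = fun t => ∫ u in (0:ℝ)..t, gam g j u * g (t - u) := by
      funext t; simp [gam]
    rw [this]
    apply intervalIntegral.continuous_parametric_intervalIntegral_of_continuous
    · show Continuous (fun p : ℝ × ℝ => gam g j p.2 * g (p.1 - p.2))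
      exact (ih.comp continuous_snd).mul (hg.comp (continuous_fst.sub continuous_snd))
    · exact continuous_id

/-- total mass -/
noncomputable def mass (g : ℝ → ℝ) : ℝ := ∫ s in Ioi (0:ℝ), g s

theorem mass_nonneg (hk : IsKernel g C) : 0 ≤ mass g :=
  setIntegral_nonneg measurableSet_Ioi (fun s _ => hk.nonneg s)

theorem tail_nonneg (hk : IsKernel g C) (t : ℝ) : 0 ≤ ∫ s in Ioi t, g s :=
  setIntegral_nonneg measurableSet_Ioi (fun s _ => hk.nonneg s)

theorem mass_split (hk : IsKernel g C) {t : ℝ} (_ht : 0 ≤ t) :
    mass g = (∫ s in (0:ℝ)..t, g s) + ∫ s in Ioi t, g s := by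
  unfold mass
  have h1 : IntegrableOn g (Ioi 0) := hk.int.integrableOn
  have h2 : IntegrableOn g (Ioi t) := hk.int.integrableOn
  rw [intervalIntegral.integral_interval_add_Ioi h1 h2]

theorem integral_refl (t : ℝ) : (∫ u in (0:ℝ)..t, g (t - u)) = ∫ u in (0:ℝ)..t, g u := by
  rw [intervalIntegral.integral_comp_sub_left (fun x => g x) t]
  simp

theorem mass_pos (hk : IsKernel g C) : 0 < mass g := by
  rcases (mass_nonneg hk).lt_or_eq with h | h
  · exact h
  · exfalso
    apply hk.nonint
    have h1 : IntegrableOn g (Ioi 0) := hk.int.integrableOn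
    have h0 : g =ᵐ[volume.restrict (Ioi 0)] 0 := by
      rw [← setIntegral_eq_zero_iff_of_nonneg_ae]
      · exact h.symm
      · exact ae_of_all _ (fun s => hk.nonneg s)
      · exact h1
    have : (fun s => s * g s) =ᵐ[volume.restrict (Ioi 0)] 0 := by
      filter_upwards [h0] with s hs
      simp [hs]
    exact (integrable_congr this).2 (integrable_zero _ _ _)

theorem gam_bounds (hk : IsKernel g C) : ∀ j t, 0 ≤ t → 0 ≤ gam g j t ∧ gam g j t ≤ mass g ^ j
  | 0, t, ht => by simp [gam]
  | (j+1), t, ht => by
    have ih := gam_bounds hk j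
    have hG := mass_nonneg hk
    have hc := continuous_gam hk.cont j
    constructor
    · simp only [gam]
      apply intervalIntegral.integral_nonneg ht
      intro u hu
      exact mul_nonneg (ih u hu.1).1 (hk.nonneg _)
    · simp only [gam]
      calc ∫ u in (0:ℝ)..t, gam g j u * g (t - u)
          ≤ ∫ u in (0:ℝ)..t, mass g ^ j * g (t - u) := by
            apply intervalIntegral.integral_mono_on ht
            · exact (hc.mul (hk.cont.comp (continuous_const.sub continuous_id))).intervalIntegrable _ _
            · exact (continuous_const.mul (hk.cont.comp (continuous_const.sub continuous_id))).intervalIntegrable _ _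
            · intro u hu
              exact mul_le_mul_of_nonneg_right (ih u hu.1).2 (hk.nonneg _)
        _ = mass g ^ j * ∫ u in (0:ℝ)..t, g u := by
            rw [intervalIntegral.integral_const_mul, integral_refl]
        _ ≤ mass g ^ j * mass g := by
            apply mul_le_mul_of_nonneg_left _ (pow_nonneg hG j)
            rw [mass_split hk ht]
            linarith [tail_nonneg hk t]
        _ = mass g ^ (j+1) := by ring

theorem defect_succ (hk : IsKernel g C) (j : ℕ) {t : ℝ} (ht : 0 ≤ t) :
    mass g ^ (j+1) - gam g (j+1) t =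
      mass g ^ j * (∫ s in Ioi t, g s) + ∫ u in (0:ℝ)..t, (mass g ^ j - gam g j u) * g (t - u) := by
  have hc := continuous_gam hk.cont j
  have e1 : (∫ u in (0:ℝ)..t, (mass g ^ j - gam g j u) * g (t - u)) =
      mass g ^ j * (∫ u in (0:ℝ)..t, g u) - gam g (j+1) t := by
    have : (fun u => (mass g ^ j - gam g j u) * g (t - u)) =
        fun u => mass g ^ j * g (t - u) - gam g j u * g (t - u) := by
      funext u; ring
    rw [this, intervalIntegral.integral_sub, intervalIntegral.integral_const_mul, integral_refl]
    · simp only [gam]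
    · exact (continuous_const.mul (hk.cont.comp (continuous_const.sub continuous_id))).intervalIntegrable _ _
    · exact (hc.mul (hk.cont.comp (continuous_const.sub continuous_id))).intervalIntegrable _ _
  rw [e1]
  have h2 := mass_split hk ht
  have h3 : mass g ^ (j+1) = mass g ^ j * mass g := by ring
  rw [h3]
  nth_rewrite 2 [h2]
  ring

theorem defect_le (hk : IsKernel g C) : ∀ j, ∃ K, 0 ≤ K ∧ ∀ t, 0 ≤ t →
    mass g ^ j - gam g j t ≤ K / (1 + t)
  | 0 => ⟨0, le_refl _, fun t ht => by simp [gam]⟩
  | (j+1) => by
    obtain ⟨K, hK0, hK⟩ := defect_le hk j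
    have hG := mass_nonneg hk
    have hGj : 0 ≤ mass g ^ j := pow_nonneg hG j
    have hc := continuous_gam hk.cont j
    refine ⟨mass g ^ j * C + 2 * (K * mass g) + 2 * (mass g ^ j * C), by
      have := hk.Cpos
      positivity, fun t ht => ?_⟩
    rw [defect_succ hk j ht]
    have hcont : Continuous (fun u => (mass g ^ j - gam g j u) * g (t - u)) :=
      (continuous_const.sub hc).mul (hk.cont.comp (continuous_const.sub continuous_id))
    have hsplit : (∫ u in (0:ℝ)..t, (mass g ^ j - gam g j u) * g (t - u)) =
        (∫ u in (0:ℝ)..(t/2), (mass g ^ j - gam g j u) * g (t - u)) +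
        ∫ u in (t/2)..t, (mass g ^ j - gam g j u) * g (t - u) := by
      rw [intervalIntegral.integral_add_adjacent_intervals]
      · exact hcont.intervalIntegrable _ _
      · exact hcont.intervalIntegrable _ _
    have hpos : 0 < 1 + t := by linarith
    -- first half: kernel argument at least t/2
    have hA : (∫ u in (0:ℝ)..(t/2), (mass g ^ j - gam g j u) * g (t - u)) ≤
        mass g ^ j * (C / (1 + t/2)) := by
      calc (∫ u in (0:ℝ)..(t/2), (mass g ^ j - gam g j u) * g (t - u))
          ≤ ∫ u in (0:ℝ)..(t/2), mass g ^ j * g (t - u) := by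
            apply intervalIntegral.integral_mono_on (by linarith)
            · exact hcont.intervalIntegrable _ _
            · exact (continuous_const.mul (hk.cont.comp (continuous_const.sub continuous_id))).intervalIntegrable _ _
            · intro u hu
              apply mul_le_mul_of_nonneg_right _ (hk.nonneg _)
              linarith [(gam_bounds hk j u hu.1).1]
        _ = mass g ^ j * ∫ u in (t/2)..t, g u := by
            rw [intervalIntegral.integral_const_mul,
              intervalIntegral.integral_comp_sub_left (fun x => g x) t]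
            have : t - t/2 = t/2 := by ring
            rw [this]; simp
        _ ≤ mass g ^ j * ∫ u in Ioi (t/2), g u := by
            apply mul_le_mul_of_nonneg_left _ hGj
            have h1 : IntegrableOn g (Ioi (t/2)) := hk.int.integrableOn
            have h2 : IntegrableOn g (Ioi t) := hk.int.integrableOn
            rw [← intervalIntegral.integral_interval_add_Ioi h1 h2]
            linarith [tail_nonneg hk t]
        _ ≤ mass g ^ j * (C / (1 + t/2)) := by
            apply mul_le_mul_of_nonneg_left _ hGj
            exact hk.tail _ (by linarith)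
    have hB : (∫ u in (t/2)..t, (mass g ^ j - gam g j u) * g (t - u)) ≤
        K / (1 + t/2) * mass g := by
      calc (∫ u in (t/2)..t, (mass g ^ j - gam g j u) * g (t - u))
          ≤ ∫ u in (t/2)..t, K / (1 + t/2) * g (t - u) := by
            apply intervalIntegral.integral_mono_on (by linarith)
            · exact hcont.intervalIntegrable _ _
            · exact (continuous_const.mul (hk.cont.comp (continuous_const.sub continuous_id))).intervalIntegrable _ _
            · intro u hu
              apply mul_le_mul_of_nonneg_right _ (hk.nonneg _)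
              refine (hK u (by linarith [hu.1])).trans ?_
              apply div_le_div_of_nonneg_left hK0 (by linarith) (by linarith [hu.1])
        _ = K / (1 + t/2) * ∫ u in (0:ℝ)..(t/2), g u := by
            rw [intervalIntegral.integral_const_mul,
              intervalIntegral.integral_comp_sub_left (fun x => g x) t]
            have : t - t/2 = t/2 := by ring
            rw [this]; simp
        _ ≤ K / (1 + t/2) * mass g := by
            apply mul_le_mul_of_nonneg_left
            · rw [mass_split hk (t := t/2) (by linarith)]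
              linarith [tail_nonneg hk (t/2)]
            · apply div_nonneg hK0; linarith
    have hT : mass g ^ j * (∫ s in Ioi t, g s) ≤ mass g ^ j * (C / (1+t)) :=
      mul_le_mul_of_nonneg_left (hk.tail t ht) hGj
    have hhalf : ∀ x : ℝ, 0 ≤ x → x / (1 + t/2) ≤ 2 * x / (1 + t) := by
      intro x hx
      rw [div_le_div_iff₀ (by linarith) hpos]
      nlinarith
    have h1 : mass g ^ j * (C / (1 + t/2)) ≤ 2 * (mass g ^ j * C) / (1+t) := by
      have := hhalf (mass g ^ j * C) (mul_nonneg hGj hk.Cpos.le)
      calc mass g ^ j * (C / (1 + t/2)) = (mass g ^ j * C) / (1 + t/2) := by ring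
        _ ≤ _ := this
    have h2 : K / (1 + t/2) * mass g ≤ 2 * (K * mass g) / (1+t) := by
      have := hhalf (K * mass g) (mul_nonneg hK0 hG)
      calc K / (1 + t/2) * mass g = (K * mass g) / (1 + t/2) := by ring
        _ ≤ _ := this
    rw [hsplit]
    calc _ ≤ mass g ^ j * (C / (1+t)) + (2 * (mass g ^ j * C) / (1+t) + 2 * (K * mass g) / (1+t)) := by
            linarith
      _ = _ := by field_simp; ring

/-- accumulated defect -/
noncomputable def defect (g : ℝ → ℝ) (m : ℕ) (T : ℝ) : ℝ :=
  ∫ s in (0:ℝ)..T, (mass g ^ m - gam g m s)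

theorem defect_upper (hk : IsKernel g C) (m : ℕ) : ∃ K, 0 ≤ K ∧ ∀ T, 0 ≤ T →
    defect g m T ≤ K * Real.log (1 + T) := by
  obtain ⟨K, hK0, hK⟩ := defect_le hk m
  refine ⟨K, hK0, fun T hT => ?_⟩
  have hc := continuous_gam hk.cont m
  calc defect g m T ≤ ∫ s in (0:ℝ)..T, K * (1 + s)⁻¹ := by
        apply intervalIntegral.integral_mono_on hT
        · exact (continuous_const.sub hc).intervalIntegrable _ _
        · apply ContinuousOn.intervalIntegrable
          apply ContinuousOn.mul continuousOn_const
          apply ContinuousOn.inv₀ (by fun_prop)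
          intro x hx
          rw [uIcc_of_le hT] at hx
          have := hx.1
          positivity
        · intro s hs
          have := hK s hs.1
          rwa [div_eq_mul_inv] at this
    _ = K * Real.log (1 + T) := by
        rw [intervalIntegral.integral_const_mul]
        congr 1
        rw [intervalIntegral.integral_comp_add_left (fun x => x⁻¹) 1]
        rw [integral_inv_of_pos (by norm_num) (by linarith)]
        simp

theorem defect_nonneg (hk : IsKernel g C) (m : ℕ) {T : ℝ} (hT : 0 ≤ T) : 0 ≤ defect g m T := by
  apply intervalIntegral.integral_nonneg hT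
  intro u hu
  linarith [(gam_bounds hk m u hu.1).2]

theorem moment_eq (hk : IsKernel g C) (T : ℝ) :
    (∫ s in (0:ℝ)..T, s * g s) = T * (∫ s in (0:ℝ)..T, g s) - ∫ t in (0:ℝ)..T, ∫ s in (0:ℝ)..t, g s := by
  have hderiv : ∀ x, HasDerivAt (fun T => T * (∫ s in (0:ℝ)..T, g s) -
      ∫ t in (0:ℝ)..T, ∫ s in (0:ℝ)..t, g s) (x * g x) x := by
    intro x
    have h1 : HasDerivAt (fun T => ∫ s in (0:ℝ)..T, g s) (g x) x :=
      intervalIntegral.integral_hasDerivAt_right (hk.cont.intervalIntegrable _ _)
        (hk.cont.stronglyMeasurableAtFilter _ _) hk.cont.continuousAt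
    have hcont : Continuous (fun T => ∫ s in (0:ℝ)..T, g s) := by
      exact intervalIntegral.continuous_primitive (fun a b => hk.cont.intervalIntegrable _ _) 0
    have h2 : HasDerivAt (fun T => ∫ t in (0:ℝ)..T, ∫ s in (0:ℝ)..t, g s)
        (∫ s in (0:ℝ)..x, g s) x :=
      intervalIntegral.integral_hasDerivAt_right (hcont.intervalIntegrable _ _)
        (hcont.stronglyMeasurableAtFilter _ _) hcont.continuousAt
    have h3 : HasDerivAt (fun T => T * (∫ s in (0:ℝ)..T, g s) -
      ∫ t in (0:ℝ)..T, ∫ s in (0:ℝ)..t, g s)
      (1 * (∫ s in (0:ℝ)..x, g s) + x * g x - ∫ s in (0:ℝ)..x, g s) x :=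
      ((hasDerivAt_id x).mul h1).sub h2
    have e : x * g x = 1 * (∫ s in (0:ℝ)..x, g s) + x * g x - ∫ s in (0:ℝ)..x, g s := by ring
    rw [e]
    exact h3
  have hcont : Continuous (fun s => s * g s) := continuous_id.mul hk.cont
  rw [intervalIntegral.integral_eq_sub_of_hasDerivAt (fun x _ => hderiv x)
    (hcont.intervalIntegrable _ _)]
  simp

theorem defect_lower (hk : IsKernel g C) (m : ℕ) {T : ℝ} (hT : 0 ≤ T) :
    mass g ^ m * (∫ s in (0:ℝ)..T, s * g s) ≤ defect g (m+1) T := by
  have hGm : 0 ≤ mass g ^ m := pow_nonneg (mass_nonneg hk) m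
  have hcont : Continuous (fun T => ∫ s in (0:ℝ)..T, g s) :=
    intervalIntegral.continuous_primitive (fun a b => hk.cont.intervalIntegrable _ _) 0
  have hc := continuous_gam hk.cont (m+1)
  have hcm := continuous_gam hk.cont m
  rw [moment_eq hk]
  have e1 : T * (∫ s in (0:ℝ)..T, g s) - (∫ t in (0:ℝ)..T, ∫ s in (0:ℝ)..t, g s) ≤
      ∫ t in (0:ℝ)..T, (mass g - ∫ s in (0:ℝ)..t, g s) := by
    rw [intervalIntegral.integral_sub (continuous_const.intervalIntegrable _ _)
      (hcont.intervalIntegrable _ _)]
    simp only [intervalIntegral.integral_const, sub_zero, smul_eq_mul]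
    have : T * (∫ s in (0:ℝ)..T, g s) ≤ T * mass g := by
      apply mul_le_mul_of_nonneg_left _ hT
      rw [mass_split hk hT]
      linarith [tail_nonneg hk T]
    linarith
  calc mass g ^ m * (T * (∫ s in (0:ℝ)..T, g s) - (∫ t in (0:ℝ)..T, ∫ s in (0:ℝ)..t, g s))
      ≤ mass g ^ m * ∫ t in (0:ℝ)..T, (mass g - ∫ s in (0:ℝ)..t, g s) :=
        mul_le_mul_of_nonneg_left e1 hGm
    _ = ∫ t in (0:ℝ)..T, mass g ^ m * (mass g - ∫ s in (0:ℝ)..t, g s) := by
        rw [intervalIntegral.integral_const_mul]
    _ ≤ defect g (m+1) T := by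
        apply intervalIntegral.integral_mono_on hT
        · exact (continuous_const.mul (continuous_const.sub hcont)).intervalIntegrable _ _
        · exact (continuous_const.sub hc).intervalIntegrable _ _
        · intro t ht
          rw [defect_succ hk m ht.1]
          have h1 : mass g - (∫ s in (0:ℝ)..t, g s) = ∫ s in Ioi t, g s := by
            rw [mass_split hk ht.1]; ring
          rw [h1]
          have h2 : 0 ≤ ∫ u in (0:ℝ)..t, (mass g ^ m - gam g m u) * g (t - u) := by
            apply intervalIntegral.integral_nonneg ht.1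
            intro u hu
            exact mul_nonneg (by linarith [(gam_bounds hk m u hu.1).2]) (hk.nonneg _)
          linarith

theorem defect_unbounded (hk : IsKernel g C) (m : ℕ) (M T₀ : ℝ) :
    ∃ T, T₀ ≤ T ∧ 0 ≤ T ∧ M < defect g (m+1) T := by
  by_contra hcon
  push Not at hcon
  apply hk.nonint
  have hG := mass_pos hk
  have hGm : 0 < mass g ^ m := pow_pos hG m
  apply integrableOn_Ioi_of_intervalIntegral_norm_bounded (I := M / mass g ^ m) (a := 0)
    (l := atTop) (b := fun T => T)
  · intro T
    exact ((continuous_id.mul hk.cont).integrableOn_Icc).mono_set Ioc_subset_Icc_self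
  · exact tendsto_id
  · filter_upwards [eventually_ge_atTop T₀, eventually_ge_atTop 0] with T h1 h2
    have e : (∫ x in (0:ℝ)..T, ‖x * g x‖) = ∫ x in (0:ℝ)..T, x * g x := by
      apply intervalIntegral.integral_congr
      intro x hx
      rw [uIcc_of_le h2] at hx
      simp only [Real.norm_eq_abs]
      exact abs_of_nonneg (mul_nonneg hx.1 (hk.nonneg x))
    rw [e, le_div_iff₀ hGm]
    have := (defect_lower hk m h2).trans (hcon T h1 h2)
    linarith

end Pool.Agent.H39.WC
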