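import Mathlib
import Pool.Agent.H39.WCReal

set_option autoImplicit false
open MeasureTheory Filter Topology Set

namespace Pool.Agent.H39.WC

/-- `c s = ∫_0^1 e^{i s x} dx` -/
noncomputable def cc (s : ℝ) : ℂ := ∫ x in (0:ℝ)..1, Complex.exp (Complex.I * s * x)

/-- the Fejer kernel `g s = |c s|^2 = 2 (1 - cos s) / s^2`. -/
noncomputable def gK (s : ℝ) : ℝ := Complex.normSq (cc s)

theorem continuous_cc : Continuous cc := by
  unfold cc
  apply intervalIntegral.continuous_parametric_intervalIntegral_of_continuous'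
  show Continuous (fun p : ℝ × ℝ => Complex.exp (Complex.I * (p.1:ℂ) * (p.2 : ℂ)))
  fun_prop

theorem cc_eq {s : ℝ} (hs : s ≠ 0) : cc s = (Complex.exp (Complex.I * s) - 1) / (Complex.I * s) := by
  unfold cc
  have h : Complex.I * (s:ℂ) ≠ 0 := mul_ne_zero Complex.I_ne_zero (by exact_mod_cast hs)
  rw [integral_exp_mul_complex h]
  simp

theorem gK_mul {s : ℝ} (hs : s ≠ 0) : gK s = 2 * (1 - Real.cos s) / s ^ 2 := by
  unfold gK
  rw [cc_eq hs, map_div₀, map_mul]
  have h1 : Complex.normSq (Complex.exp (Complex.I * s) - 1) = 2 * (1 - Real.cos s) := by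
    rw [mul_comm, Complex.exp_mul_I, Complex.normSq_apply]
    simp only [Complex.sub_re, Complex.add_re, Complex.mul_re, Complex.sub_im, Complex.add_im,
      Complex.mul_im, Complex.one_re, Complex.one_im, Complex.I_re, Complex.I_im, mul_zero,
      mul_one, zero_mul, sub_zero, add_zero, zero_add,
      Complex.cos_ofReal_re, Complex.cos_ofReal_im, Complex.sin_ofReal_re, Complex.sin_ofReal_im]
    nlinarith [Real.sin_sq_add_cos_sq s]
  have h2 : Complex.normSq (s:ℂ) = s ^ 2 := by rw [Complex.normSq_ofReal]; ring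
  rw [h1, h2]
  simp

theorem gK_nonneg (s : ℝ) : 0 ≤ gK s := Complex.normSq_nonneg _

theorem gK_le_one (s : ℝ) : gK s ≤ 1 := by
  unfold gK
  rw [Complex.normSq_eq_norm_sq]
  have : ‖cc s‖ ≤ 1 := by
    unfold cc
    have := intervalIntegral.norm_integral_le_of_norm_le_const (a := 0) (b := 1) (C := 1)
      (f := fun x : ℝ => Complex.exp (Complex.I * s * x)) (by
        intro x _
        have : Complex.I * (s:ℂ) * x = ((s * x : ℝ) : ℂ) * Complex.I := by push_cast; ring
        rw [this, Complex.norm_exp_ofReal_mul_I])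
    simpa using this
  have h0 : 0 ≤ ‖cc s‖ := norm_nonneg _
  nlinarith

theorem gK_le_sq {s : ℝ} (hs : s ≠ 0) : gK s ≤ 4 / s ^ 2 := by
  rw [gK_mul hs]
  apply div_le_div_of_nonneg_right _ (sq_nonneg s)
  linarith [Real.neg_one_le_cos s]

theorem gK_even (s : ℝ) : gK (-s) = gK s := by
  by_cases hs : s = 0
  · simp [hs]
  · rw [gK_mul hs, gK_mul (neg_ne_zero.2 hs)]
    simp

theorem continuous_gK : Continuous gK := Complex.continuous_normSq.comp continuous_cc

theorem gK_le_inv (s : ℝ) : gK s ≤ 8 * (1 + s ^ 2)⁻¹ := by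
  by_cases h : s ^ 2 ≤ 1
  · refine (gK_le_one s).trans ?_
    rw [← div_eq_mul_inv, le_div_iff₀ (by positivity)]
    nlinarith
  · push Not at h
    have hs : s ≠ 0 := by rintro rfl; norm_num at h
    refine (gK_le_sq hs).trans ?_
    rw [← div_eq_mul_inv, div_le_div_iff₀ (by positivity) (by positivity)]
    nlinarith

theorem integrable_gK : Integrable gK := by
  have h := integrable_inv_one_add_sq.const_mul 8
  refine h.mono' continuous_gK.aestronglyMeasurable (ae_of_all _ fun s => ?_)
  rw [Real.norm_eq_abs, abs_of_nonneg (gK_nonneg s)]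
  exact gK_le_inv s

theorem gK_le_tail {s : ℝ} (hs : 0 ≤ s) : gK s ≤ 16 * (1 + s) ^ (-2 : ℝ) := by
  have hpos : (0:ℝ) < 1 + s := by linarith
  have e : (1 + s) ^ (-2 : ℝ) = ((1 + s) ^ 2)⁻¹ := by
    rw [Real.rpow_neg hpos.le]; norm_num
  rw [e]
  by_cases h : s ≤ 1
  · refine (gK_le_one s).trans ?_
    rw [← div_eq_mul_inv, le_div_iff₀ (by positivity)]
    nlinarith
  · push Not at h
    have hs : s ≠ 0 := by rintro rfl; norm_num at h
    refine (gK_le_sq hs).trans ?_
    rw [← div_eq_mul_inv, div_le_div_iff₀ (by positivity) (by positivity)]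
    nlinarith

theorem gK_tail {t : ℝ} (ht : 0 ≤ t) : ∫ s in Ioi t, gK s ≤ 16 / (1 + t) := by
  have hpos : (0:ℝ) < 1 + t := by linarith
  have hint : IntegrableOn (fun s : ℝ => (1 + s) ^ (-2 : ℝ)) (Ioi t) := by
    have h := (integrableOn_Ioi_rpow_of_lt (a := -2) (c := 1 + t) (by norm_num) hpos)
    have h2 := (measurePreserving_add_left (volume : Measure ℝ) 1).integrableOn_comp_preimage
      (measurableEmbedding_addLeft 1) (f := fun s : ℝ => s ^ (-2:ℝ)) (s := Ioi (1 + t))
    have h3 := h2.2 h
    have e : (fun x : ℝ => 1 + x) ⁻¹' (Ioi (1 + t)) = Ioi t := by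
      ext x; simp
    rw [e] at h3
    exact h3
  calc ∫ s in Ioi t, gK s ≤ ∫ s in Ioi t, 16 * (1 + s) ^ (-2 : ℝ) := by
        apply setIntegral_mono_on integrable_gK.integrableOn (hint.const_mul 16) measurableSet_Ioi
        intro s hs
        exact gK_le_tail (ht.trans (le_of_lt hs))
    _ = 16 / (1 + t) := by
        rw [integral_const_mul]
        have e2 : ∫ s in Ioi t, (1 + s) ^ (-2 : ℝ) = ∫ s in Ioi (1 + t), s ^ (-2:ℝ) := by
          have h2 := (measurePreserving_add_left (volume : Measure ℝ) 1).setIntegral_preimage_emb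
            (measurableEmbedding_addLeft 1) (fun s : ℝ => s ^ (-2:ℝ)) (Ioi (1 + t))
          have e : (fun x : ℝ => 1 + x) ⁻¹' (Ioi (1 + t)) = Ioi t := by
            ext x; simp
          rw [e] at h2
          exact h2
        rw [e2, integral_Ioi_rpow_of_lt (by norm_num) hpos]
        have e3 : (1 + t) ^ ((-2:ℝ) + 1) = (1+t)⁻¹ := by
          have : (-2:ℝ) + 1 = -1 := by norm_num
          rw [this, Real.rpow_neg_one]
        rw [e3]
        ring

theorem gK_nonint : ¬ IntegrableOn (fun s => s * gK s) (Ioi 0) := by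
  intro h
  have h1 : IntegrableOn (fun s => (s + Real.pi) * gK (s + Real.pi)) (Ioi 0) := by
    have hpi : IntegrableOn (fun s => s * gK s) (Ioi Real.pi) :=
      h.mono_set (Ioi_subset_Ioi Real.pi_pos.le)
    have h2 := (measurePreserving_add_right (volume : Measure ℝ) Real.pi).integrableOn_comp_preimage
      (measurableEmbedding_addRight Real.pi) (f := fun s : ℝ => s * gK s) (s := Ioi Real.pi)
    have h3 := h2.2 hpi
    have e : (fun x : ℝ => x + Real.pi) ⁻¹' (Ioi Real.pi) = Ioi 0 := by
      ext x; simp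
    rw [e] at h3
    exact h3
  have h2 := h.add h1
  have h3 : IntegrableOn (fun s : ℝ => 4 * (s + Real.pi)⁻¹) (Ioi 0) := by
    refine Integrable.mono' h2 ?_ ?_
    · apply Measurable.aestronglyMeasurable
      fun_prop
    · rw [ae_restrict_iff' measurableSet_Ioi]
      refine ae_of_all _ fun s hs => ?_
      have hs0 : (0:ℝ) < s := hs
      have hpi := Real.pi_pos
      have hsp : 0 < s + Real.pi := by linarith
      rw [Real.norm_eq_abs, abs_of_nonneg (by positivity)]
      simp only [Pi.add_apply]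
      rw [gK_mul hs0.ne', gK_mul hsp.ne', Real.cos_add_pi]
      have e1 : s * (2 * (1 - Real.cos s) / s ^ 2) = 2 * (1 - Real.cos s) / s := by
        field_simp
      have e2 : (s + Real.pi) * (2 * (1 - -Real.cos s) / (s + Real.pi) ^ 2) =
          2 * (1 + Real.cos s) / (s + Real.pi) := by
        field_simp; ring
      rw [e1, e2]
      have e3 : 2 * (1 - Real.cos s) / (s + Real.pi) ≤ 2 * (1 - Real.cos s) / s := by
        apply div_le_div_of_nonneg_left _ hs0 (by linarith)
        linarith [Real.cos_le_one s]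
      have e4 : 4 * (s + Real.pi)⁻¹ = 2 * (1 - Real.cos s) / (s + Real.pi) +
          2 * (1 + Real.cos s) / (s + Real.pi) := by
        field_simp; ring
      rw [e4]
      linarith
  have h4 : IntegrableOn (fun s : ℝ => (s + Real.pi)⁻¹) (Ioi 0) := by
    have := h3.const_mul (1/4)
    refine this.congr (ae_of_all _ fun s => ?_)
    simp only
    ring
  have h5 : IntegrableOn (fun s : ℝ => s⁻¹) (Ioi Real.pi) := by
    have h2 := (measurePreserving_add_right (volume : Measure ℝ) Real.pi).integrableOn_comp_preimage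
      (measurableEmbedding_addRight Real.pi) (f := fun s : ℝ => s⁻¹) (s := Ioi Real.pi)
    apply h2.1
    have e : (fun x : ℝ => x + Real.pi) ⁻¹' (Ioi Real.pi) = Ioi 0 := by
      ext x; simp
    rw [e]
    exact h4
  exact not_integrableOn_Ioi_inv h5

theorem isKernel_gK : IsKernel gK 16 where
  cont := continuous_gK
  nonneg := gK_nonneg
  int := integrable_gK
  Cpos := by norm_num
  tail := fun t ht => gK_tail ht
  nonint := gK_nonint

end Pool.Agent.H39.WC
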