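import Mathlib
import Pool.Agent.H39.WCDefs
import Pool.Agent.H39.WCKernel

set_option autoImplicit false
open MeasureTheory Filter Topology Set

namespace Pool.Agent.H39.WC

section general
variable {B : Type*} [NormedAddCommGroup B] [NormedSpace ℂ B] [CompleteSpace B]

theorem hasDerivAt_sgrp (A : B →L[ℂ] B) (t : ℝ) :
    HasDerivAt (fun u : ℝ => sgrp A u) (sgrp A t * A) t := by
  have h : HasDerivAt (fun u : ℝ => NormedSpace.exp (u • A)) (NormedSpace.exp (t • A) * A) t :=
    hasDerivAt_exp_smul_const A t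
  have e : (fun u : ℝ => sgrp A u) = fun u : ℝ => NormedSpace.exp (u • A) := by
    funext u; simp only [sgrp, Complex.coe_smul]
  rw [e]
  simpa only [sgrp, Complex.coe_smul] using h

theorem sgrp_add (A : B →L[ℂ] B) (s t : ℝ) : sgrp A (s + t) = sgrp A s * sgrp A t := by
  unfold sgrp
  letI : NormedAlgebra ℚ (B →L[ℂ] B) := NormedAlgebra.restrictScalars ℚ ℂ (B →L[ℂ] B)
  rw [← NormedSpace.exp_add_of_commute]
  · congr 1
    push_cast
    rw [add_smul]
  · exact ((Commute.refl A).smul_left _).smul_right _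

theorem sgrp_zero (A : B →L[ℂ] B) : sgrp A 0 = 1 := by
  simp [sgrp]

theorem sgrp_neg_mul (A : B →L[ℂ] B) (t : ℝ) : sgrp A (-t) * sgrp A t = 1 := by
  rw [← sgrp_add]; simp [sgrp_zero]

theorem sgrp_mul_neg (A : B →L[ℂ] B) (t : ℝ) : sgrp A t * sgrp A (-t) = 1 := by
  rw [← sgrp_add]; simp [sgrp_zero]

/-- a solution of the linear ODE is given by the exponential -/
theorem eq_sgrp_of_hasDerivAt (A : B →L[ℂ] B) (Y : ℝ → B)
    (h : ∀ t, HasDerivAt Y (A (Y t)) t) (t : ℝ) : Y t = sgrp A t (Y 0) := by
  have hF : ∀ t, HasDerivAt (fun u => sgrp A (-u) (Y u)) 0 t := by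
    intro t
    have h1 : HasDerivAt (fun u : ℝ => sgrp A (-u)) (-(sgrp A (-t) * A)) t := by
      have h0 := (hasDerivAt_sgrp A (-t)).scomp t (hasDerivAt_neg t)
      have e : (-1 : ℝ) • (sgrp A (-t) * A) = -(sgrp A (-t) * A) := by rw [neg_one_smul]
      rw [e] at h0
      exact h0
    have h2 : HasDerivAt (fun u => (ContinuousLinearMap.restrictScalars ℝ (sgrp A (-u))))
        (ContinuousLinearMap.restrictScalars ℝ (-(sgrp A (-t) * A))) t := by
      have h3 := ((ContinuousLinearMap.restrictScalarsL ℂ B B ℝ ℝ).hasFDerivAt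
        (x := sgrp A (-t))).comp_hasDerivAt t h1
      exact h3
    have h4 := h2.clm_apply (h t)
    have e : (ContinuousLinearMap.restrictScalars ℝ (-(sgrp A (-t) * A))) (Y t) +
      (ContinuousLinearMap.restrictScalars ℝ (sgrp A (-t))) (A (Y t)) = 0 := by
      show (-(sgrp A (-t) * A)) (Y t) + (sgrp A (-t)) (A (Y t)) = 0
      show -((sgrp A (-t)) (A (Y t))) + (sgrp A (-t)) (A (Y t)) = 0
      rw [neg_add_cancel]
    rw [e] at h4
    exact h4
  have hconst : ∀ t, sgrp A (-t) (Y t) = Y 0 := by
    intro t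
    have := is_const_of_deriv_eq_zero (f := fun u => sgrp A (-u) (Y u))
      (fun x => (hF x).differentiableAt) (fun x => (hF x).deriv) t 0
    simpa [sgrp_zero] using this
  calc Y t = (sgrp A t * sgrp A (-t)) (Y t) := by rw [sgrp_mul_neg]; rfl
    _ = sgrp A t (sgrp A (-t) (Y t)) := rfl
    _ = _ := by rw [hconst]

end general

/-- the base space -/
abbrev KK := unitInterval × unitInterval

/-- frequency function -/
noncomputable def wf : C(KK, ℂ) :=
  ⟨fun p => Complex.I * ((p.1 : ℝ) - (p.2 : ℝ) : ℝ), by fun_prop⟩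

/-- plane wave -/
noncomputable def EE (s : ℝ) : C(KK, ℂ) := NormedSpace.exp ((s:ℂ) • wf)

theorem EE_apply (s : ℝ) (p : KK) :
    EE s p = Complex.exp (Complex.I * s * (p.1 : ℝ)) * Complex.exp (-(Complex.I * s * (p.2 : ℝ))) := by
  unfold EE
  have h := NormedSpace.map_exp (ContinuousMap.evalAlgHom ℂ ℂ p)
    (continuous_eval_const (F := C(KK, ℂ)) p) ((s:ℂ) • wf)
  have e : ∀ f : C(KK, ℂ), (ContinuousMap.evalAlgHom ℂ ℂ p) f = f p := fun f => rfl
  rw [e, e] at h
  rw [h, ← Complex.exp_eq_exp_ℂ, ← Complex.exp_add]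
  congr 1
  simp [wf]
  ring

theorem EE_zero : EE 0 = 1 := by
  have h : (((0:ℝ):ℂ) • wf) = 0 := by
    rw [Complex.ofReal_zero]; exact zero_smul ℂ wf
  unfold EE
  rw [h]
  exact NormedSpace.exp_zero

theorem EE_add (s t : ℝ) : EE (s + t) = EE s * EE t := by
  unfold EE
  rw [← NormedSpace.exp_add]
  congr 1
  rw [Complex.ofReal_add]
  exact add_smul (s:ℂ) (t:ℂ) wf

theorem hasDerivAt_EE (t : ℝ) : HasDerivAt EE (wf * EE t) t := by
  have h : HasDerivAt (fun u : ℝ => NormedSpace.exp (u • wf)) (wf * NormedSpace.exp (t • wf)) t :=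
    hasDerivAt_exp_smul_const' wf t
  have e : EE = fun u : ℝ => NormedSpace.exp (u • wf) := by
    funext u
    exact congrArg NormedSpace.exp (Complex.coe_smul u wf)
  rw [e]
  exact h

theorem continuous_EE : Continuous EE :=
  continuous_iff_continuousAt.2 fun t => (hasDerivAt_EE t).continuousAt

/-- average over the square -/
noncomputable def phi : C(KK, ℂ) →L[ℂ] ℂ :=
  LinearMap.mkContinuous
    { toFun := fun f => ∫ p, f p
      map_add' := fun f g => by
        simp only [ContinuousMap.add_apply]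
        apply integral_add
        · exact f.continuous.integrable_of_hasCompactSupport (HasCompactSupport.of_compactSpace _)
        · exact g.continuous.integrable_of_hasCompactSupport (HasCompactSupport.of_compactSpace _)
      map_smul' := fun c f => by
        simp only [ContinuousMap.smul_apply, RingHom.id_apply]
        exact integral_smul c _ } 1 (fun f => by
    simp only [LinearMap.coe_mk, AddHom.coe_mk, one_mul]
    have := norm_integral_le_of_norm_le_const (μ := (volume : Measure KK)) (f := fun p => f p)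
      (C := ‖f‖) (ae_of_all _ fun p => f.norm_coe_le_norm p)
    simpa using this)

theorem phi_apply (f : C(KK, ℂ)) : phi f = ∫ p, f p := rfl

theorem phi_EE (s : ℝ) : phi (EE s) = (gK s : ℂ) := by
  rw [phi_apply]
  simp_rw [EE_apply]
  have h := integral_prod_mul (μ := (volume : Measure unitInterval))
    (ν := (volume : Measure unitInterval))
    (fun x : unitInterval => Complex.exp (Complex.I * s * (x : ℝ)))
    (fun x : unitInterval => Complex.exp (-(Complex.I * s * (x : ℝ))))
  have h1 : (∫ x : unitInterval, Complex.exp (Complex.I * s * (x : ℝ))) = cc s := by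
    rw [integral_subtype measurableSet_Icc (fun x : ℝ => Complex.exp (Complex.I * s * (x : ℂ)))]
    rw [integral_Icc_eq_integral_Ioc, ← intervalIntegral.integral_of_le (by norm_num)]
    rfl
  have h2 : (∫ x : unitInterval, Complex.exp (-(Complex.I * s * (x : ℝ)))) =
      (starRingEnd ℂ) (cc s) := by
    rw [← h1, ← integral_conj]
    congr 1
    funext x
    rw [← Complex.exp_conj]
    congr 1
    simp
  rw [h1, h2] at h
  rw [gK, Complex.normSq_eq_conj_mul_self, mul_comm (starRingEnd ℂ (cc s)) (cc s), ← h]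
  rfl

end Pool.Agent.H39.WC
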