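import Mathlib
import Pool.Agent.H39.WCOp

set_option autoImplicit false
open MeasureTheory Filter Topology Set

namespace Pool.Agent.H39.WC

/-- The Banach space `ℂ × ℂ × C(K)^m`. -/
abbrev BB (m : ℕ) := ℂ × ℂ × (Fin m → C(KK, ℂ))

noncomputable def pr3 (m : ℕ) (j : Fin m) : BB m →L[ℂ] C(KK, ℂ) :=
  (ContinuousLinearMap.proj j).comp
    ((ContinuousLinearMap.snd ℂ ℂ (Fin m → C(KK, ℂ))).comp
      (ContinuousLinearMap.snd ℂ ℂ (ℂ × (Fin m → C(KK, ℂ)))))

theorem pr3_apply (m : ℕ) (j : Fin m) (x : BB m) : pr3 m j x = x.2.2 j := rfl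

noncomputable def pr2 (m : ℕ) : BB m →L[ℂ] ℂ :=
  (ContinuousLinearMap.fst ℂ ℂ (Fin m → C(KK, ℂ))).comp
      (ContinuousLinearMap.snd ℂ ℂ (ℂ × (Fin m → C(KK, ℂ))))

theorem pr2_apply (m : ℕ) (x : BB m) : pr2 m x = x.2.1 := rfl

noncomputable def pr1 (m : ℕ) : BB m →L[ℂ] ℂ :=
  (ContinuousLinearMap.fst ℂ ℂ (ℂ × (Fin m → C(KK, ℂ))))

theorem pr1_apply (m : ℕ) (x : BB m) : pr1 m x = x.1 := rfl

noncomputable def coefL (m : ℕ) : ℕ → (BB m →L[ℂ] ℂ)
  | 0 => pr2 m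
  | (j+1) => if h : j < m then phi.comp (pr3 m ⟨j, h⟩) else 0

theorem coefL_zero (m : ℕ) (x : BB m) : coefL m 0 x = x.2.1 := rfl

theorem coefL_succ (m : ℕ) (j : ℕ) (h : j < m) (x : BB m) :
    coefL m (j+1) x = phi (x.2.2 ⟨j, h⟩) := by
  simp only [coefL, h, dif_pos]
  rfl

noncomputable def PP (m : ℕ) : BB m →L[ℂ] BB m := (pr1 m).prod ((pr2 m).prod 0)

theorem PP_apply (m : ℕ) (x : BB m) : PP m x = (x.1, x.2.1, 0) := rfl

noncomputable def mulwf : C(KK, ℂ) →L[ℂ] C(KK, ℂ) := ContinuousLinearMap.mul ℂ C(KK, ℂ) wf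

theorem mulwf_apply (f : C(KK, ℂ)) : mulwf f = wf * f := rfl

noncomputable def LL0 (m : ℕ) : BB m →L[ℂ] BB m :=
  (0 : BB m →L[ℂ] ℂ).prod ((0 : BB m →L[ℂ] ℂ).prod
    (ContinuousLinearMap.pi fun j => mulwf.comp (pr3 m j)))

theorem LL0_apply (m : ℕ) (x : BB m) : LL0 m x = (0, 0, fun j => wf * x.2.2 j) := rfl

noncomputable def LL (m : ℕ) : BB m →L[ℂ] BB m :=
  (coefL m m).prod ((0 : BB m →L[ℂ] ℂ).prod
    (ContinuousLinearMap.pi fun j : Fin m => (coefL m (j:ℕ)).smulRight (1 : C(KK, ℂ))))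

theorem LL_apply (m : ℕ) (x : BB m) :
    LL m x = (coefL m m x, 0, fun j : Fin m => coefL m (j:ℕ) x • (1 : C(KK, ℂ))) := rfl

theorem sgrp_LL0 (m : ℕ) (t : ℝ) (x : BB m) :
    sgrp (LL0 m) t x = (x.1, x.2.1, fun j => EE t * x.2.2 j) := by
  have h := eq_sgrp_of_hasDerivAt (LL0 m) (fun t => (x.1, x.2.1, fun j => EE t * x.2.2 j)) (by
    intro t
    rw [LL0_apply]
    apply HasDerivAt.prodMk (hasDerivAt_const _ _)
    apply HasDerivAt.prodMk (hasDerivAt_const _ _)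
    rw [hasDerivAt_pi]
    intro j
    have := (hasDerivAt_EE t).mul_const (x.2.2 j)
    rw [mul_assoc] at this
    exact this) t
  rw [h]
  congr 1
  simp only [EE_zero, one_mul]

theorem norm_EE_apply (t : ℝ) (p : KK) : ‖EE t p‖ = 1 := by
  rw [EE_apply, ← Complex.exp_add]
  have : Complex.I * t * (p.1:ℝ) + -(Complex.I * t * (p.2 : ℝ)) =
      ((t * p.1 - t * p.2 : ℝ) : ℂ) * Complex.I := by
    push_cast; ring
  rw [this, Complex.norm_exp_ofReal_mul_I]

theorem norm_EE_mul (t : ℝ) (f : C(KK, ℂ)) : ‖EE t * f‖ = ‖f‖ := by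
  have key : ∀ t f, ‖EE t * f‖ ≤ ‖f‖ := by
    intro t f
    rw [ContinuousMap.norm_le _ (norm_nonneg _)]
    intro p
    rw [ContinuousMap.mul_apply, norm_mul, norm_EE_apply, one_mul]
    exact f.norm_coe_le_norm p
  apply le_antisymm (key t f)
  have h := key (-t) (EE t * f)
  rw [← mul_assoc, ← EE_add, neg_add_cancel, EE_zero, one_mul] at h
  exact h

theorem norm_sgrp_LL0 (m : ℕ) (t : ℝ) (x : BB m) : ‖sgrp (LL0 m) t x‖ = ‖x‖ := by
  rw [sgrp_LL0]
  rw [Prod.norm_def, Prod.norm_def, Prod.norm_def, Prod.norm_def]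
  congr 1
  congr 1
  rw [Pi.norm_def, Pi.norm_def]
  congr 2
  funext j
  apply NNReal.eq
  exact norm_EE_mul t _

theorem PP_idem (m : ℕ) : PP m * PP m = PP m := by
  ext x <;> rfl

theorem PP_LL_PP (m : ℕ) (hm : 0 < m) : PP m * LL m * PP m = 0 := by
  apply ContinuousLinearMap.ext
  intro x
  show PP m (LL m (PP m x)) = 0
  rw [LL_apply, PP_apply, PP_apply]
  obtain ⟨m, rfl⟩ : ∃ k, m = k + 1 := ⟨m - 1, by omega⟩
  rw [coefL_succ _ _ (Nat.lt_succ_self _)]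
  simp only [Pi.zero_apply, map_zero]
  rfl

theorem sgrp_PP (m : ℕ) (t : ℝ) : sgrp (LL0 m) t * PP m = PP m * sgrp (LL0 m) t := by
  apply ContinuousLinearMap.ext
  intro x
  show sgrp (LL0 m) t (PP m x) = PP m (sgrp (LL0 m) t x)
  rw [sgrp_LL0, sgrp_LL0, PP_apply, PP_apply]
  simp only [Pi.zero_apply, mul_zero]
  rfl

theorem finiteDimensional_range_PP (m : ℕ) :
    FiniteDimensional ℂ (LinearMap.range (PP m).toLinearMap) := by
  let f : ℂ × ℂ →ₗ[ℂ] BB m :=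
    LinearMap.prod (LinearMap.fst ℂ ℂ ℂ) (LinearMap.prod (LinearMap.snd ℂ ℂ ℂ) 0)
  have h : LinearMap.range (PP m).toLinearMap ≤ LinearMap.range f := by
    rintro _ ⟨x, rfl⟩
    exact ⟨(x.1, x.2.1), rfl⟩
  exact Submodule.finiteDimensional_of_le h

/-! ### The perturbed evolution -/

/-- explicit solution started at `e₂` -/
noncomputable def Ysol (m : ℕ) (lam t : ℝ) : BB m :=
  (((lam ^ (m+1) * ∫ s in (0:ℝ)..t, gam gK m s : ℝ) : ℂ), 1,
    fun j => ((lam ^ ((j:ℕ)+1) : ℝ) : ℂ) • (EE t * ∫ s in (0:ℝ)..t, ((gam gK j s : ℝ) : ℂ) • EE (-s)))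

theorem continuous_gamK (j : ℕ) : Continuous (gam gK j) := continuous_gam continuous_gK j

theorem continuous_gamEE (j : ℕ) :
    Continuous (fun s : ℝ => ((gam gK j s : ℝ) : ℂ) • EE (-s)) := by
  have h1 := continuous_gamK j
  have h2 := continuous_EE
  exact (Complex.continuous_ofReal.comp h1).smul (h2.comp continuous_neg)

theorem phi_Y (j : ℕ) (t : ℝ) :
    phi (EE t * ∫ s in (0:ℝ)..t, ((gam gK j s : ℝ) : ℂ) • EE (-s)) = (gam gK (j+1) t : ℂ) := by
  have h1 : EE t * (∫ s in (0:ℝ)..t, ((gam gK j s : ℝ) : ℂ) • EE (-s)) =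
      ContinuousLinearMap.mul ℂ C(KK, ℂ) (EE t) (∫ s in (0:ℝ)..t, ((gam gK j s : ℝ) : ℂ) • EE (-s)) := rfl
  rw [h1, ← ContinuousLinearMap.intervalIntegral_comp_comm _ ((continuous_gamEE j).intervalIntegrable _ _)]
  have hcont : Continuous (fun s : ℝ => (ContinuousLinearMap.mul ℂ C(KK, ℂ) (EE t))
      (((gam gK j s : ℝ) : ℂ) • EE (-s))) :=
    (ContinuousLinearMap.continuous _).comp (continuous_gamEE j)
  rw [← ContinuousLinearMap.intervalIntegral_comp_comm _ (hcont.intervalIntegrable _ _)]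
  have h2 : ∀ s : ℝ, phi ((ContinuousLinearMap.mul ℂ C(KK, ℂ) (EE t)) (((gam gK j s : ℝ) : ℂ) • EE (-s)))
      = ((gam gK j s * gK (t - s) : ℝ) : ℂ) := by
    intro s
    have e1 : (ContinuousLinearMap.mul ℂ C(KK, ℂ) (EE t)) (((gam gK j s : ℝ) : ℂ) • EE (-s)) =
        ((gam gK j s : ℝ) : ℂ) • EE (t - s) := by
      rw [sub_eq_add_neg, EE_add]
      show EE t * (((gam gK j s : ℝ) : ℂ) • EE (-s)) = _
      exact mul_smul_comm _ _ _
    rw [e1, map_smul, phi_EE]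
    push_cast
    rfl
  simp_rw [h2]
  rw [intervalIntegral.integral_ofReal]
  rfl

theorem coefL_Y (m : ℕ) (lam t : ℝ) (j : ℕ) (hj : j ≤ m) :
    coefL m j (Ysol m lam t) = ((lam ^ j * gam gK j t : ℝ) : ℂ) := by
  rcases j with _ | j
  · rw [coefL_zero]
    simp [Ysol, gam]
  · rw [coefL_succ _ _ (by omega)]
    simp only [Ysol]
    rw [map_smul, phi_Y]
    push_cast
    rfl

theorem hasDerivAt_Y (m : ℕ) (lam t : ℝ) :
    HasDerivAt (Ysol m lam) ((LL0 m + (lam : ℂ) • LL m) (Ysol m lam t)) t := by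
  have e : (LL0 m + (lam : ℂ) • LL m) (Ysol m lam t) =
      (((lam ^ (m+1) * gam gK m t : ℝ) : ℂ), 0, fun j : Fin m =>
        ((lam ^ ((j:ℕ)+1) : ℝ) : ℂ) • (wf * EE t * (∫ s in (0:ℝ)..t, ((gam gK j s : ℝ) : ℂ) • EE (-s))
          + EE t * (((gam gK j t : ℝ) : ℂ) • EE (-t)))) := by
    show LL0 m (Ysol m lam t) + (lam : ℂ) • LL m (Ysol m lam t) = _
    rw [LL0_apply, LL_apply, coefL_Y m lam t m le_rfl]
    refine Prod.ext ?_ (Prod.ext ?_ ?_)
    · show (0:ℂ) + (lam : ℂ) * ((lam ^ m * gam gK m t : ℝ) : ℂ) = _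
      push_cast; ring
    · show (0:ℂ) + (lam:ℂ) * 0 = 0
      simp
    · funext j
      show wf * (Ysol m lam t).2.2 j + (lam : ℂ) • (coefL m (j:ℕ) (Ysol m lam t) • (1 : C(KK, ℂ))) = _
      rw [coefL_Y m lam t j (by omega)]
      simp only [Ysol]
      ext p
      simp only [ContinuousMap.add_apply, ContinuousMap.mul_apply, ContinuousMap.smul_apply,
        ContinuousMap.one_apply, smul_eq_mul]
      have hE : EE t p * EE (-t) p = 1 := by
        have := congrArg (fun f : C(KK, ℂ) => f p) (EE_add t (-t))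
        simp only [add_neg_cancel, EE_zero, ContinuousMap.one_apply, ContinuousMap.mul_apply] at this
        exact this.symm
      have : EE t p * (((gam gK j t : ℝ) : ℂ) * EE (-t) p) = ((gam gK j t : ℝ) : ℂ) := by
        rw [mul_left_comm, hE, mul_one]
      rw [this]
      push_cast
      ring
  rw [e]
  apply HasDerivAt.prodMk
  · have h1 : HasDerivAt (fun t => ∫ s in (0:ℝ)..t, gam gK m s) (gam gK m t) t :=
      intervalIntegral.integral_hasDerivAt_right ((continuous_gamK m).intervalIntegrable _ _)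
        ((continuous_gamK m).stronglyMeasurableAtFilter _ _) (continuous_gamK m).continuousAt
    exact (h1.const_mul (lam ^ (m+1))).ofReal_comp
  · apply HasDerivAt.prodMk (hasDerivAt_const _ _)
    rw [hasDerivAt_pi]
    intro j
    have h1 : HasDerivAt (fun t => ∫ s in (0:ℝ)..t, ((gam gK j s : ℝ) : ℂ) • EE (-s))
        (((gam gK j t : ℝ) : ℂ) • EE (-t)) t :=
      intervalIntegral.integral_hasDerivAt_right ((continuous_gamEE j).intervalIntegrable _ _)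
        ((continuous_gamEE j).stronglyMeasurableAtFilter _ _) (continuous_gamEE j).continuousAt
    have h2 := (hasDerivAt_EE t).mul h1
    exact h2.const_smul ((lam ^ ((j:ℕ)+1) : ℝ) : ℂ)

/-- the vector `e₂` -/
noncomputable def e2 (m : ℕ) : BB m := (0, 1, 0)

theorem Ysol_zero (m : ℕ) (lam : ℝ) : Ysol m lam 0 = e2 m := by
  unfold Ysol e2
  refine Prod.ext ?_ (Prod.ext ?_ ?_)
  · simp
  · rfl
  · funext j
    simp only [intervalIntegral.integral_same, mul_zero]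
    exact smul_zero (A := C(KK, ℂ)) ((lam ^ ((j:ℕ)+1) : ℝ) : ℂ)

theorem sgrp_e2 (m : ℕ) (lam t : ℝ) :
    sgrp (LL0 m + (lam : ℂ) • LL m) t (e2 m) = Ysol m lam t := by
  rw [← Ysol_zero m lam]
  exact (eq_sgrp_of_hasDerivAt _ _ (fun t => hasDerivAt_Y m lam t) t).symm

end Pool.Agent.H39.WC
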