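import Mathlib
import Pool.Agent.H39.WCModel

set_option autoImplicit false
open MeasureTheory Filter Topology Set

namespace Pool.Agent.H39.WC

/-- product of the kernels along a list of times -/
noncomputable def cprod : List ℝ → ℝ
  | [] => 1
  | [_] => 1
  | (t :: t' :: l) => gK (t - t') * cprod (t' :: l)

theorem cprod_nonneg : ∀ l, 0 ≤ cprod l
  | [] => by simp [cprod]
  | [_] => by simp [cprod]
  | (t :: t' :: l) => by
    simp only [cprod]
    exact mul_nonneg (gK_nonneg _) (cprod_nonneg _)

theorem continuous_cprod (k : ℕ) :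
    Continuous (fun p : ℝ × (Fin k → ℝ) => cprod (p.1 :: List.ofFn p.2)) := by
  induction k with
  | zero =>
    simp only [List.ofFn_zero, cprod]
    exact continuous_const
  | succ k ih =>
    simp only [List.ofFn_succ, cprod]
    apply Continuous.mul
    · exact continuous_gK.comp (continuous_fst.sub ((continuous_apply 0).comp continuous_snd))
    · have h : Continuous (fun p : ℝ × (Fin (k+1) → ℝ) =>
          ((p.2 0, fun i : Fin k => p.2 i.succ) : ℝ × (Fin k → ℝ))) := by
        apply Continuous.prodMk
        · exact (continuous_apply 0).comp continuous_snd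
        · apply continuous_pi
          intro i
          exact (continuous_apply i.succ).comp continuous_snd
      exact ih.comp h

theorem integrable_shift (t : ℝ) : Integrable (fun s => gK (t - s)) :=
  integrable_gK.comp_sub_left t

theorem cprod_int (k : ℕ) : ∀ t : ℝ,
    Integrable (fun τ : Fin k → ℝ => cprod (t :: List.ofFn τ)) ∧
    ∫ τ : Fin k → ℝ, cprod (t :: List.ofFn τ) = (∫ s, gK s) ^ k := by
  induction k with
  | zero =>
    intro t
    simp only [List.ofFn_zero, cprod, pow_zero]
    constructor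
    · exact integrable_const _
    · simp [MeasureTheory.Measure.real, volume_pi]
  | succ k ih =>
    intro t
    have hmp := volume_preserving_piFinSuccAbove (fun _ : Fin (k+1) => ℝ) 0
    have hfun : (fun τ : Fin (k+1) → ℝ => cprod (t :: List.ofFn τ)) =
        (fun p : ℝ × (Fin k → ℝ) => gK (t - p.1) * cprod (p.1 :: List.ofFn p.2)) ∘
          (MeasurableEquiv.piFinSuccAbove (fun _ : Fin (k+1) => ℝ) 0) := by
      funext τ
      simp only [Function.comp_apply, List.ofFn_succ, cprod, MeasurableEquiv.piFinSuccAbove_apply,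
        Fin.insertNthEquiv_symm_apply]
      rfl
    have hcont : Continuous (fun p : ℝ × (Fin k → ℝ) => gK (t - p.1) * cprod (p.1 :: List.ofFn p.2)) :=
      (continuous_gK.comp (continuous_const.sub continuous_fst)).mul (continuous_cprod k)
    have hint : Integrable (fun p : ℝ × (Fin k → ℝ) => gK (t - p.1) * cprod (p.1 :: List.ofFn p.2))
        ((volume : Measure ℝ).prod (volume : Measure (Fin k → ℝ))) := by
      rw [integrable_prod_iff hcont.aestronglyMeasurable]
      constructor
      · exact ae_of_all _ fun s => ((ih s).1).const_mul (gK (t - s))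
      · have e : (fun x : ℝ => ∫ y : Fin k → ℝ, ‖gK (t - x) * cprod (x :: List.ofFn y)‖) =
            fun x => gK (t - x) * (∫ s, gK s) ^ k := by
          funext x
          have : ∀ y : Fin k → ℝ, ‖gK (t - x) * cprod (x :: List.ofFn y)‖ =
              gK (t - x) * cprod (x :: List.ofFn y) := fun y => by
            rw [Real.norm_eq_abs, abs_of_nonneg (mul_nonneg (gK_nonneg _) (cprod_nonneg _))]
          simp_rw [this]
          rw [integral_const_mul, (ih x).2]
        rw [e]
        exact (integrable_shift t).mul_const _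
    constructor
    · rw [hfun]
      exact (hmp.integrable_comp_emb (MeasurableEquiv.measurableEmbedding _)).2 hint
    · rw [hfun]
      have h1 := hmp.integral_comp (MeasurableEquiv.measurableEmbedding _)
        (fun p : ℝ × (Fin k → ℝ) => gK (t - p.1) * cprod (p.1 :: List.ofFn p.2))
      have h2 : (∫ τ : Fin (k+1) → ℝ, ((fun p : ℝ × (Fin k → ℝ) => gK (t - p.1) * cprod (p.1 :: List.ofFn p.2)) ∘
          (MeasurableEquiv.piFinSuccAbove (fun _ : Fin (k+1) => ℝ) 0)) τ) =
          ∫ p : ℝ × (Fin k → ℝ), gK (t - p.1) * cprod (p.1 :: List.ofFn p.2)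
            ∂((volume : Measure ℝ).prod (volume : Measure (Fin k → ℝ))) := h1
      rw [h2, integral_prod _ hint]
      have h3 : ∀ x : ℝ, (∫ y : Fin k → ℝ, gK (t - x) * cprod (x :: List.ofFn y)) =
          gK (t - x) * (∫ s, gK s) ^ k := fun x => by
        rw [integral_const_mul, (ih x).2]
      simp_rw [h3]
      rw [integral_mul_const]
      have h4 : (∫ s, gK (t - s)) = ∫ s, gK s := integral_sub_left_eq_self gK volume t
      rw [h4]
      ring

/-! ### products of interaction-picture operators -/

/-- the vectors reached from `e₂` -/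
noncomputable def vec (m r : ℕ) (t : ℝ) (c : ℂ) : BB m :=
  (if r = m + 1 then c else 0, if r = 0 then c else 0,
    fun j : Fin m => if (j:ℕ) + 1 = r then c • EE (-t) else 0)

theorem EE_mul_neg (s t : ℝ) : EE s * EE (-t) = EE (s - t) := by
  rw [sub_eq_add_neg, EE_add]

theorem coefL_vec (m r : ℕ) (t s : ℝ) (c : ℂ) (j : ℕ) (hj : j ≤ m) :
    coefL m j (sgrp (LL0 m) s (vec m r t c)) =
      if j = r then (if r = 0 then c else c * gK (s - t)) else 0 := by
  rw [sgrp_LL0]
  rcases j with _ | j
  · rw [coefL_zero]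
    simp only [vec]
    by_cases hr : r = 0
    · simp [hr]
    · simp [hr, Ne.symm hr]
  · rw [coefL_succ _ _ (by omega)]
    simp only [vec]
    by_cases hr : j + 1 = r
    · have hr0 : r ≠ 0 := by omega
      simp only [hr, if_true, hr0, if_false]
      have e1 : EE s * (c • EE (-t)) = c • EE (s - t) := by
        rw [← EE_mul_neg]; exact mul_smul_comm _ _ _
      rw [e1, map_smul, phi_EE]
      rfl
    · simp only [hr, if_false, mul_zero, map_zero]

theorem inter_apply (m : ℕ) (s : ℝ) (x : BB m) :
    inter (LL0 m) (LL m) s x = (coefL m m (sgrp (LL0 m) s x), 0,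
      fun j : Fin m => coefL m (j:ℕ) (sgrp (LL0 m) s x) • EE (-s)) := by
  show sgrp (LL0 m) (-s) (LL m (sgrp (LL0 m) s x)) = _
  rw [sgrp_LL0 m (-s), LL_apply]
  refine Prod.ext rfl (Prod.ext rfl ?_)
  funext j
  show EE (-s) * (coefL m (j:ℕ) (sgrp (LL0 m) s x) • (1 : C(KK, ℂ))) = _
  have : EE (-s) * (coefL m (j:ℕ) (sgrp (LL0 m) s x) • (1 : C(KK, ℂ))) =
      coefL m (j:ℕ) (sgrp (LL0 m) s x) • (EE (-s) * 1) := mul_smul_comm _ _ _
  rw [this, mul_one]

theorem inter_vec (m r : ℕ) (t s : ℝ) (c : ℂ) :
    inter (LL0 m) (LL m) s (vec m r t c) =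
      vec m (r+1) s (if r = 0 then c else c * gK (s - t)) := by
  rw [inter_apply]
  refine Prod.ext ?_ (Prod.ext ?_ ?_)
  · rw [coefL_vec m r t s c m le_rfl]
    simp only [vec, Nat.add_right_cancel_iff]
    by_cases h : m = r
    · simp [h]
    · simp [h, Ne.symm h]
  · simp [vec]
  · funext j
    show coefL m (j:ℕ) (sgrp (LL0 m) s (vec m r t c)) • EE (-s) = _
    rw [coefL_vec m r t s c j (by omega)]
    simp only [vec, Nat.add_right_cancel_iff]
    by_cases h : (j:ℕ) = r
    · simp only [h, if_true]
    · simp only [h, if_false]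
      exact zero_smul ℂ (EE (-s))

theorem chain_eq (m : ℕ) : ∀ (l : List ℝ) (t : ℝ),
    ((t :: l).map (inter (LL0 m) (LL m))).prod (e2 m) =
      vec m (l.length + 1) t (cprod (t :: l) : ℝ)
  | [], t => by
    have h : e2 m = vec m 0 0 1 := by
      unfold e2 vec
      refine Prod.ext (by simp) (Prod.ext (by simp) ?_)
      funext j
      simp
    simp only [List.map_cons, List.map_nil, List.prod_cons, List.prod_nil, mul_one]
    rw [h, inter_vec]
    simp [cprod]
  | (t' :: l), t => by
    have ih := chain_eq m l t'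
    rw [List.map_cons, List.prod_cons]
    show inter (LL0 m) (LL m) t ((((t' :: l).map (inter (LL0 m) (LL m))).prod) (e2 m)) = _
    rw [ih, inter_vec]
    simp only [Nat.succ_ne_zero, if_false, List.length_cons, cprod]
    congr 1
    push_cast
    ring

/-- rank one operator `x ↦ (x₂, 0, 0)` -/
noncomputable def TT (m : ℕ) : BB m →L[ℂ] BB m := (pr2 m).prod ((0 : BB m →L[ℂ] ℂ).prod 0)

theorem TT_apply (m : ℕ) (x : BB m) : TT m x = (x.2.1, 0, 0) := rfl

theorem chain_apply (m : ℕ) (l : List ℝ) (x : BB m) : ∀ (t : ℝ),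
    ((t :: l).map (inter (LL0 m) (LL m))).prod (PP m x) =
      x.2.1 • ((t :: l).map (inter (LL0 m) (LL m))).prod (e2 m) := by
  induction l with
  | nil =>
    intro t
    simp only [List.map_cons, List.map_nil, List.prod_cons, List.prod_nil, mul_one]
    rw [← map_smul]
    have key : ∀ y z : BB m, y.2.1 = z.2.1 → y.2.2 = z.2.2 →
        inter (LL0 m) (LL m) t y = inter (LL0 m) (LL m) t z → True := fun _ _ _ _ _ => trivial
    rw [inter_apply, inter_apply]
    have hc : ∀ j, j ≤ m → coefL m j (sgrp (LL0 m) t (PP m x)) =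
        coefL m j (sgrp (LL0 m) t (x.2.1 • e2 m)) := by
      intro j hj
      rw [sgrp_LL0, sgrp_LL0, PP_apply]
      rcases j with _ | j
      · rw [coefL_zero, coefL_zero]
        simp [e2]
      · rw [coefL_succ _ _ (by omega), coefL_succ _ _ (by omega)]
        congr 1
        show EE t * 0 = EE t * (x.2.1 • (0 : C(KK, ℂ)))
        congr 1
        exact (smul_zero (A := C(KK, ℂ)) x.2.1).symm
    refine Prod.ext (hc m le_rfl) (Prod.ext rfl ?_)
    funext j
    simp only
    rw [hc j (by omega)]
  | cons t' l ih =>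
    intro t
    rw [List.map_cons, List.prod_cons]
    show inter (LL0 m) (LL m) t ((((t' :: l).map (inter (LL0 m) (LL m))).prod) (PP m x)) = _
    rw [ih t', map_smul]
    rfl

theorem PQP_eq (m : ℕ) (t : ℝ) (l : List ℝ) :
    PP m * ((t :: l).map (inter (LL0 m) (LL m))).prod * PP m =
      (if l.length = m then ((cprod (t :: l) : ℝ) : ℂ) else 0) • TT m := by
  apply ContinuousLinearMap.ext
  intro x
  show PP m (((t :: l).map (inter (LL0 m) (LL m))).prod (PP m x)) = _
  rw [chain_apply, chain_eq, map_smul, PP_apply]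
  show x.2.1 • (_ : BB m) = (if l.length = m then ((cprod (t :: l) : ℝ) : ℂ) else 0) • TT m x
  rw [TT_apply]
  by_cases h : l.length = m
  · refine Prod.ext ?_ (Prod.ext ?_ ?_)
    · simp only [vec, h, if_true]
      show x.2.1 * _ = _ * x.2.1
      ring
    · simp only [vec, h, if_true]
      show x.2.1 * _ = _ * 0
      simp
    · show x.2.1 • (0 : Fin m → C(KK, ℂ)) = _ • (0 : Fin m → C(KK, ℂ))
      have hz : ∀ c : ℂ, c • (0 : Fin m → C(KK, ℂ)) = 0 := fun c =>
        smul_zero (M := ℂ) (A := Fin m → C(KK, ℂ)) c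
      exact (hz _).trans (hz _).symm
  · refine Prod.ext ?_ (Prod.ext ?_ ?_)
    · simp only [vec, Nat.add_right_cancel_iff, h, if_false]
      show x.2.1 * _ = _ * x.2.1
      ring
    · simp only [vec, h, if_false]
      show x.2.1 * _ = _ * 0
      simp
    · show x.2.1 • (0 : Fin m → C(KK, ℂ)) = _ • (0 : Fin m → C(KK, ℂ))
      have hz : ∀ c : ℂ, c • (0 : Fin m → C(KK, ℂ)) = 0 := fun c =>
        smul_zero (M := ℂ) (A := Fin m → C(KK, ℂ)) c
      exact (hz _).trans (hz _).symm

end Pool.Agent.H39.WC
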