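import Mathlib
import Pool.Agent.H39.WCChain

set_option autoImplicit false
open MeasureTheory Filter Topology Set Asymptotics

namespace Pool.Agent.H39.WC

/-- an analytic function which is `o(x^M)` at `0+` is `O(x^(M+1))` there -/
theorem analytic_gap {f : ℝ → ℂ} (hf : AnalyticAt ℝ f 0) (M : ℕ)
    (ho : f =o[𝓝[>] 0] (fun x : ℝ => x ^ M)) : f =O[𝓝[>] 0] (fun x : ℝ => x ^ (M + 1)) := by
  by_cases hz : ∀ᶠ z in 𝓝 (0:ℝ), f z = 0
  · have h1 : f =ᶠ[𝓝[>] 0] (fun _ => (0:ℂ)) := nhdsWithin_le_nhds hz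
    exact h1.trans_isBigO (isBigO_zero _ _)
  · obtain ⟨N, g, hg_an, hg_ne, hg_eq⟩ := hf.exists_eventuallyEq_pow_smul_nonzero_iff.2 hz
    have hg_cont : Tendsto g (𝓝 0) (𝓝 (g 0)) := hg_an.continuousAt
    have heq : f =ᶠ[𝓝[>] 0] (fun z : ℝ => z ^ N • g z) := by
      have : f =ᶠ[𝓝 0] (fun z : ℝ => z ^ N • g z) := by
        filter_upwards [hg_eq] with z hz
        rw [hz, sub_zero]
      exact nhdsWithin_le_nhds this
    by_cases hN : M + 1 ≤ N
    · have hgO : g =O[𝓝[>] 0] (fun _ : ℝ => (1:ℝ)) :=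
        (hg_cont.mono_left nhdsWithin_le_nhds).isBigO_one ℝ
      have hpow : (fun z : ℝ => z ^ N) =O[𝓝[>] 0] (fun z : ℝ => z ^ (M+1)) := by
        have h0 : (fun z : ℝ => z ^ N) =O[𝓝 0] (fun z : ℝ => z ^ (M+1)) := by
          obtain ⟨r, rfl⟩ := Nat.exists_eq_add_of_le hN
          have : (fun z : ℝ => z ^ (M + 1 + r)) = fun z : ℝ => z ^ (M+1) * z ^ r := by
            funext z; rw [pow_add]
          rw [this]
          have h1 : (fun z : ℝ => z ^ r) =O[𝓝 0] (fun _ : ℝ => (1:ℝ)) :=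
            ((continuous_pow r).tendsto 0).isBigO_one ℝ
          simpa using (isBigO_refl (fun z : ℝ => z ^ (M+1)) (𝓝 0)).mul h1
        exact h0.mono nhdsWithin_le_nhds
      have := hpow.smul hgO
      refine heq.trans_isBigO ?_
      simpa using this
    · exfalso
      push Not at hN
      -- f = x^N g with N ≤ M contradicts f = o(x^M)
      have h1 : (fun z : ℝ => z ^ N • g z) =o[𝓝[>] 0] (fun x : ℝ => x ^ M) := heq.symm.trans_isLittleO ho
      have h2 : (fun z : ℝ => z ^ N • g z) =o[𝓝[>] 0] (fun x : ℝ => x ^ N) := by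
        refine h1.trans_isBigO ?_
        have h0 : (fun z : ℝ => z ^ M) =O[𝓝 0] (fun z : ℝ => z ^ N) := by
          obtain ⟨r, hr⟩ := Nat.exists_eq_add_of_le (Nat.lt_succ_iff.1 hN)
          rw [hr]
          have : (fun z : ℝ => z ^ (N + r)) = fun z : ℝ => z ^ N * z ^ r := by
            funext z; rw [pow_add]
          rw [this]
          have h1 : (fun z : ℝ => z ^ r) =O[𝓝 0] (fun _ : ℝ => (1:ℝ)) :=
            ((continuous_pow r).tendsto 0).isBigO_one ℝ
          simpa using (isBigO_refl (fun z : ℝ => z ^ N) (𝓝 0)).mul h1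
        exact h0.mono nhdsWithin_le_nhds
      have h3 : Tendsto g (𝓝[>] 0) (𝓝 0) := by
        have h5 := (isBigO_refl (fun z : ℝ => (z ^ N)⁻¹) (𝓝[>] 0)).smul_isLittleO h2
        have e1 : (fun z : ℝ => (z ^ N)⁻¹ • (z ^ N • g z)) =ᶠ[𝓝[>] 0] g := by
          filter_upwards [self_mem_nhdsWithin] with z hz
          have hz0 : z ^ N ≠ 0 := pow_ne_zero _ (ne_of_gt hz)
          rw [smul_smul, inv_mul_cancel₀ hz0, one_smul]
        have e2 : (fun z : ℝ => (z ^ N)⁻¹ • (z ^ N)) =ᶠ[𝓝[>] 0] (fun _ => (1:ℝ)) := by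
          filter_upwards [self_mem_nhdsWithin] with z hz
          have hz0 : z ^ N ≠ 0 := pow_ne_zero _ (ne_of_gt hz)
          rw [smul_eq_mul, inv_mul_cancel₀ hz0]
        have h6 := (e1.symm.trans_isLittleO h5).trans_eventuallyEq e2
        exact (isLittleO_one_iff ℝ).1 h6
      have h4 : Tendsto g (𝓝[>] 0) (𝓝 (g 0)) := hg_cont.mono_left nhdsWithin_le_nhds
      exact hg_ne (tendsto_nhds_unique h4 h3)

theorem log_littleO (t : ℝ) (ht : 0 < t) :
    (fun lam : ℝ => lam * Real.log (1 + t / lam ^ 2)) =o[𝓝[>] 0] (fun _ => (1:ℝ)) := by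
  rw [isLittleO_one_iff]
  -- λ log(1+t/λ²) ≤ 2 λ (1 + t/λ²)^{1/4}... use log x ≤ 4 x^{1/4}
  have h1 : ∀ lam : ℝ, 0 < lam → lam < 1 →
      |lam * Real.log (1 + t / lam ^ 2)| ≤ 4 * (1 + t) ^ (1/4 : ℝ) * lam ^ (1/2 : ℝ) := by
    intro lam h0 h1
    have hx : 1 ≤ 1 + t / lam ^ 2 := by
      have : 0 ≤ t / lam ^ 2 := by positivity
      linarith
    have hlog : 0 ≤ Real.log (1 + t / lam ^ 2) := Real.log_nonneg hx
    rw [abs_of_nonneg (mul_nonneg h0.le hlog)]
    have h2 : Real.log (1 + t / lam ^ 2) ≤ (1 + t / lam ^ 2) ^ (1/4 : ℝ) / (1/4) :=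
      Real.log_le_rpow_div (by linarith) (by norm_num)
    have h3 : (1 + t / lam ^ 2) ≤ (1 + t) / lam ^ 2 := by
      rw [le_div_iff₀ (by positivity), add_mul, div_mul_cancel₀ _ (by positivity)]
      nlinarith
    have h4 : (1 + t / lam ^ 2) ^ (1/4 : ℝ) ≤ ((1 + t) / lam ^ 2) ^ (1/4 : ℝ) :=
      Real.rpow_le_rpow (by linarith) h3 (by norm_num)
    have h5 : ((1 + t) / lam ^ 2) ^ (1/4 : ℝ) = (1 + t) ^ (1/4 : ℝ) / lam ^ (1/2 : ℝ) := by
      rw [Real.div_rpow (by linarith) (by positivity)]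
      congr 1
      rw [← Real.rpow_natCast, ← Real.rpow_mul h0.le]
      norm_num
    have h6 : lam = lam ^ (1/2 : ℝ) * lam ^ (1/2 : ℝ) := by
      rw [← Real.rpow_add h0]; norm_num
    have h7 : 0 < lam ^ (1/2 : ℝ) := Real.rpow_pos_of_pos h0 _
    calc lam * Real.log (1 + t / lam ^ 2) ≤ lam * (((1 + t) ^ (1/4 : ℝ) / lam ^ (1/2 : ℝ)) / (1/4)) := by
          apply mul_le_mul_of_nonneg_left _ h0.le
          rw [h5] at h4
          refine h2.trans ?_
          exact div_le_div_of_nonneg_right h4 (by norm_num)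
      _ = 4 * (1 + t) ^ (1/4 : ℝ) * (lam / lam ^ (1/2 : ℝ)) := by ring
      _ = 4 * (1 + t) ^ (1/4 : ℝ) * lam ^ (1/2 : ℝ) := by
          congr 1
          rw [div_eq_iff h7.ne']
          exact h6
  have h2 : Tendsto (fun lam : ℝ => 4 * (1 + t) ^ (1/4 : ℝ) * lam ^ (1/2 : ℝ)) (𝓝[>] 0) (𝓝 0) := by
    have h3 : Tendsto (fun lam : ℝ => lam ^ (1/2 : ℝ)) (𝓝 0) (𝓝 ((0:ℝ) ^ (1/2 : ℝ))) :=
      (Real.continuousAt_rpow_const 0 (1/2) (Or.inr (by norm_num))).tendsto
    rw [Real.zero_rpow (by norm_num)] at h3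
    have := (h3.mono_left (nhdsWithin_le_nhds (s := Ioi 0))).const_mul (4 * (1 + t) ^ (1/4 : ℝ))
    simpa using this
  apply squeeze_zero_norm' _ h2
  filter_upwards [self_mem_nhdsWithin, nhdsWithin_le_nhds (Iio_mem_nhds (zero_lt_one))] with lam h0 h1'
  exact h1 lam h0 h1'

/-- The scalar obstruction. -/
theorem no_analytic (n : ℕ) {t : ℝ} (ht : 0 < t) {F : ℝ → ℂ} (hF : AnalyticAt ℝ F 0)
    (h : (fun lam : ℝ => ((lam ^ (2 * n + 2) * ∫ s in (0:ℝ)..(t / lam ^ 2), gam gK (2 * n + 1) s : ℝ) : ℂ)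
      - F lam) =O[𝓝[>] 0] (fun lam : ℝ => lam ^ (2 * n + 2))) : False := by
  set m := 2 * n + 1 with hm
  set G := mass gK with hG
  -- z = λ^{2n+2} (T G^m - defect)
  have hz : ∀ lam : ℝ, 0 < lam → lam ^ (2 * n + 2) * (∫ s in (0:ℝ)..(t / lam ^ 2), gam gK m s) =
      lam ^ (2 * n) * (t * G ^ m) - lam ^ (2 * n + 2) * defect gK m (t / lam ^ 2) := by
    intro lam h0
    unfold defect
    rw [intervalIntegral.integral_sub (continuous_const.intervalIntegrable _ _)
      ((continuous_gamK m).intervalIntegrable _ _)]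
    rw [intervalIntegral.integral_const, smul_eq_mul]
    field_simp
    ring
  let f : ℝ → ℂ := fun lam => F lam - ((lam ^ (2 * n) * (t * G ^ m) : ℝ) : ℂ)
  have hf : AnalyticAt ℝ f 0 := by
    apply hF.sub
    have : AnalyticAt ℝ (fun lam : ℝ => (lam ^ (2 * n) * (t * G ^ m) : ℝ)) 0 := by fun_prop
    exact (Complex.ofRealCLM.analyticAt _).comp this
  -- f + λ^{2n+2} defect = O(λ^{2n+2})
  have h1 : (fun lam : ℝ => f lam + ((lam ^ (2 * n + 2) * defect gK m (t / lam ^ 2) : ℝ) : ℂ))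
      =O[𝓝[>] 0] (fun lam : ℝ => lam ^ (2 * n + 2)) := by
    have := h.neg_left
    refine this.congr' ?_ (EventuallyEq.refl _ _)
    filter_upwards [self_mem_nhdsWithin] with lam hlam
    simp only [f]
    rw [hz lam hlam]
    push_cast
    ring
  obtain ⟨K, hK0, hK⟩ := defect_upper isKernel_gK m
  have h2 : (fun lam : ℝ => ((lam ^ (2 * n + 2) * defect gK m (t / lam ^ 2) : ℝ) : ℂ)) =o[𝓝[>] 0]
      (fun lam : ℝ => lam ^ (2 * n + 1)) := by
    have h3 : (fun lam : ℝ => ((lam ^ (2 * n + 2) * defect gK m (t / lam ^ 2) : ℝ) : ℂ)) =O[𝓝[>] 0]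
        (fun lam : ℝ => lam ^ (2 * n + 1) * (lam * Real.log (1 + t / lam ^ 2))) := by
      apply IsBigO.of_bound K
      filter_upwards [self_mem_nhdsWithin] with lam hlam
      have h0 : (0:ℝ) < lam := hlam
      have hT : 0 ≤ t / lam ^ 2 := by positivity
      rw [Complex.norm_real, Real.norm_eq_abs, Real.norm_eq_abs]
      have hd := defect_nonneg isKernel_gK m hT
      have hlog : 0 ≤ Real.log (1 + t / lam ^ 2) := Real.log_nonneg (by linarith)
      rw [abs_of_nonneg (by positivity), abs_of_nonneg (by positivity)]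
      have := hK _ hT
      calc lam ^ (2 * n + 2) * defect gK m (t / lam ^ 2)
          ≤ lam ^ (2 * n + 2) * (K * Real.log (1 + t / lam ^ 2)) :=
            mul_le_mul_of_nonneg_left this (by positivity)
        _ = _ := by ring
    refine h3.trans_isLittleO ?_
    have := (isBigO_refl (fun lam : ℝ => lam ^ (2 * n + 1)) (𝓝[>] 0)).mul_isLittleO (log_littleO t ht)
    simpa using this
  have hpow : (fun lam : ℝ => lam ^ (2 * n + 2)) =o[𝓝[>] 0] (fun lam : ℝ => lam ^ (2 * n + 1)) := by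
    have h3 : (fun lam : ℝ => lam) =o[𝓝[>] 0] (fun _ => (1:ℝ)) := by
      rw [isLittleO_one_iff]
      exact tendsto_id.mono_left nhdsWithin_le_nhds
    have := (isBigO_refl (fun lam : ℝ => lam ^ (2 * n + 1)) (𝓝[>] 0)).mul_isLittleO h3
    simpa [pow_succ] using this
  have h4 : f =o[𝓝[>] 0] (fun lam : ℝ => lam ^ (2 * n + 1)) := by
    have := (h1.trans_isLittleO hpow).sub h2
    simpa using this
  have h5 := analytic_gap hf (2 * n + 1) h4
  have h6 : (fun lam : ℝ => ((lam ^ (2 * n + 2) * defect gK m (t / lam ^ 2) : ℝ) : ℂ)) =O[𝓝[>] 0]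
      (fun lam : ℝ => lam ^ (2 * n + 2)) := by
    have := h1.sub h5
    simpa using this
  obtain ⟨c, hc⟩ := h6.bound
  rw [eventually_nhdsWithin_iff, Metric.eventually_nhds_iff] at hc
  obtain ⟨ε, hε, hc⟩ := hc
  -- choose T large
  obtain ⟨T, hT1, hT2, hT3⟩ := defect_unbounded isKernel_gK (2 * n) c (t / (ε / 2) ^ 2)
  have hTpos : 0 < T := lt_of_lt_of_le (by positivity) hT1
  have hlam0 : 0 < Real.sqrt (t / T) := Real.sqrt_pos.2 (by positivity)
  have hsq : Real.sqrt (t / T) ^ 2 = t / T := Real.sq_sqrt (by positivity)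
  have hlam_le : Real.sqrt (t / T) ≤ ε / 2 := by
    rw [Real.sqrt_le_left (by positivity)]
    rw [div_le_iff₀ hTpos]
    rw [div_le_iff₀ (by positivity)] at hT1
    linarith
  have hd := hc (y := Real.sqrt (t / T)) (by
    rw [Real.dist_eq, sub_zero, abs_of_pos hlam0]; linarith) hlam0
  rw [hsq] at hd
  have hTT : t / (t / T) = T := by field_simp
  rw [hTT, Complex.norm_real, Real.norm_eq_abs, Real.norm_eq_abs] at hd
  have hdn := defect_nonneg isKernel_gK m hT2
  have hpp : 0 < Real.sqrt (t / T) ^ (2 * n + 2) := pow_pos hlam0 _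
  rw [abs_of_nonneg (mul_nonneg hpp.le hdn), abs_of_pos hpp, mul_comm c] at hd
  have := le_of_mul_le_mul_left hd hpp
  linarith

end Pool.Agent.H39.WC
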