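import Mathlib
import Pool.Agent.H39.WCMain

set_option autoImplicit false
open MeasureTheory Filter Topology Set Asymptotics

namespace Pool.Agent.H39.WC

section
variable {B : Type} [NormedAddCommGroup B] [NormedSpace ℂ B]

theorem abs_literal (P L0 L T : B →L[ℂ] B) (m : ℕ)
    (h : ∀ (t : ℝ) (l : List ℝ), P * ((t :: l).map (inter L0 L)).prod * P =
      (if l.length = m then ((cprod (t :: l) : ℝ) : ℂ) else 0) • T)
    (k : ℕ) (hk1 : 1 ≤ k) (hk2 : k ≤ m) (t : ℝ) :
    IntegrableOn (fun τ : Fin k → ℝ => ‖P * (List.ofFn fun i => inter L0 L (τ i)).prod * P‖)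
          {τ | (∀ i, τ i < t) ∧ StrictAnti τ} := by
  obtain ⟨k, rfl⟩ : ∃ j, k = j + 1 := ⟨k - 1, by omega⟩
  have h0 : (fun τ : Fin (k+1) → ℝ => ‖P *
      (List.ofFn fun i => inter L0 L (τ i)).prod * P‖) = fun _ => 0 := by
    funext τ
    have h1 : (List.ofFn fun i => inter L0 L (τ i)) =
        ((τ 0 :: List.ofFn fun i : Fin k => τ i.succ).map (inter L0 L)) := by
      rw [List.ofFn_succ, List.map_cons, List.map_ofFn]
      rfl
    rw [h1, h, List.length_ofFn, if_neg (by omega), zero_smul, norm_zero]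
  rw [h0]
  exact integrableOn_zero

theorem abs_relative (P L0 L T : B →L[ℂ] B) (m : ℕ)
    (h : ∀ (t : ℝ) (l : List ℝ), P * ((t :: l).map (inter L0 L)).prod * P =
      (if l.length = m then ((cprod (t :: l) : ℝ) : ℂ) else 0) • T)
    (k : ℕ) (t : ℝ) :
    IntegrableOn (fun τ : Fin k → ℝ =>
            ‖P * (inter L0 L t * (List.ofFn fun i => inter L0 L (τ i)).prod) * P‖)
          {τ | (∀ i, τ i < t) ∧ StrictAnti τ} := by
  have h0 : (fun τ : Fin k → ℝ =>
            ‖P * (inter L0 L t * (List.ofFn fun i => inter L0 L (τ i)).prod) * P‖)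
      = fun τ => (if k = m then cprod (t :: List.ofFn τ) else 0) * ‖T‖ := by
    funext τ
    have h1 : inter L0 L t * (List.ofFn fun i => inter L0 L (τ i)).prod =
        ((t :: List.ofFn τ).map (inter L0 L)).prod := by
      rw [List.map_cons, List.map_ofFn, List.prod_cons]
      rfl
    rw [h1, h, List.length_ofFn, norm_smul]
    congr 1
    by_cases hk : k = m
    · rw [if_pos hk, if_pos hk, Complex.norm_real, Real.norm_eq_abs,
        abs_of_nonneg (cprod_nonneg _)]
    · rw [if_neg hk, if_neg hk, norm_zero]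
  rw [h0]
  apply Integrable.integrableOn
  apply Integrable.mul_const
  by_cases hk : k = m
  · simp only [if_pos hk]
    exact (cprod_int k t).1
  · simp only [if_neg hk]
    exact integrable_zero _ _ _

theorem analytic_approx {W : Type} [NormedAddCommGroup W] [NormedSpace ℂ W] [CompleteSpace W]
    {a b : ℕ} (G : Fin a → (W →L[ℂ] W)) (R : Fin b → (W →L[ℂ] W)) (t : ℝ)
    (ev : (W →L[ℂ] W) →L[ℂ] ℂ) :
    AnalyticAt ℝ (fun lam : ℝ => ev (sgrp (polyOp G lam) t * polyOp R lam)) 0 := by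
  have hsum : ∀ (c : ℕ) (H : Fin c → (W →L[ℂ] W)),
      AnalyticAt ℝ (fun lam : ℝ => polyOp H lam) 0 := by
    intro c H
    unfold polyOp
    apply Finset.analyticAt_fun_sum
    intro j _
    apply AnalyticAt.fun_smul
    · apply AnalyticAt.pow
      exact Complex.ofRealCLM.analyticAt _
    · exact analyticAt_const
  have hQ : AnalyticAt ℝ (fun lam : ℝ => sgrp (polyOp G lam) t * polyOp R lam) 0 := by
    apply AnalyticAt.mul
    · have h1 : AnalyticAt ℝ (fun lam : ℝ => (t : ℂ) • polyOp G lam) 0 :=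
        analyticAt_const.fun_smul (hsum a G)
      exact (NormedSpace.exp_analytic (𝕂 := ℝ) _).comp h1
    · exact hsum b R
  exact ((ev.restrictScalars ℝ).analyticAt _).comp hQ

theorem abs_isBigO {W : Type} [NormedAddCommGroup W] [NormedSpace ℂ W]
    (ev : (W →L[ℂ] W) →L[ℂ] ℂ) (f g : ℝ → (W →L[ℂ] W)) (u : ℝ → ℝ)
    (h : (fun lam => f lam - g lam) =O[𝓝[>] 0] u) :
    (fun lam => ev (f lam) - ev (g lam)) =O[𝓝[>] 0] u := by
  have h1 := ev.isBigO_comp (fun lam : ℝ => f lam - g lam) (𝓝[>] 0)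
  have h2 := h1.trans h
  refine h2.congr_left ?_
  intro lam
  rw [map_sub]

/-- evaluation functional `X ↦ ℓ (X e)` -/
noncomputable def evl {W : Type} [NormedAddCommGroup W] [NormedSpace ℂ W] (ℓ : W →L[ℂ] ℂ) (e : W) :
    (W →L[ℂ] W) →L[ℂ] ℂ := ℓ.comp (ContinuousLinearMap.apply ℂ W e)

theorem evl_apply {W : Type} [NormedAddCommGroup W] [NormedSpace ℂ W] (ℓ : W →L[ℂ] ℂ) (e : W)
    (X : W →L[ℂ] W) : evl ℓ e X = ℓ (X e) := rfl

theorem abs_no_asymp [CompleteSpace B] (P L0 L : B →L[ℂ] B)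
    (hfd : FiniteDimensional ℂ (LinearMap.range P.toLinearMap))
    (ℓ : B →L[ℂ] ℂ) (e0 : B) (he0 : P e0 = e0) (n : ℕ)
    (hkey : ∀ lam T : ℝ, ℓ (P (sgrp L0 (-T) (sgrp (L0 + (lam : ℂ) • L) T e0))) =
      ((lam ^ (2 * n + 2) * ∫ s in (0:ℝ)..T, gam gK (2 * n + 1) s : ℝ) : ℂ))
    (t : ℝ) (ht : 0 < t) (a b : ℕ)
    (G : Fin a → (LinearMap.range P.toLinearMap →L[ℂ] LinearMap.range P.toLinearMap))
    (R : Fin b → (LinearMap.range P.toLinearMap →L[ℂ] LinearMap.range P.toLinearMap))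
    (hO : (fun lam : ℝ =>
            compress P (sgrp L0 (-(t / lam ^ 2)) * sgrp (L0 + (lam : ℂ) • L) (t / lam ^ 2)) -
              sgrp (polyOp G lam) t * polyOp R lam) =O[𝓝[>] 0]
          (fun lam : ℝ => lam ^ (2 * n + 2))) : False := by
  have : CompleteSpace (LinearMap.range P.toLinearMap) :=
    FiniteDimensional.complete ℂ _
  have h1 := abs_isBigO (evl (ℓ.comp (LinearMap.range P.toLinearMap).subtypeL)
    (⟨e0, ⟨e0, he0⟩⟩ : LinearMap.range P.toLinearMap)) _ _ _ hO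
  have hF := analytic_approx G R t (evl (ℓ.comp (LinearMap.range P.toLinearMap).subtypeL)
    (⟨e0, ⟨e0, he0⟩⟩ : LinearMap.range P.toLinearMap))
  apply no_analytic n ht hF
  refine h1.congr_left ?_
  intro lam
  congr 1
  rw [← hkey]
  rfl

end

end Pool.Agent.H39.WC
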