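import Mathlib
import Pool.Agent.H39.WCDefs

set_option autoImplicit false

namespace Pool.Agent.H39.WC

variable {H : Type*} [NormedAddCommGroup H] [InnerProductSpace ℂ H] [CompleteSpace H]

/-- A Friedrichs-type Hilbert space setting: `P` is a rank one orthogonal projection, `L0` and `L`
are skew-adjoint, and both `P L P = 0` and `(1 - P) L (1 - P) = 0`. -/
structure UnitarySetting (P L0 L : H →L[ℂ] H) : Prop where
  setting : Setting P L0 L
  selfAdjoint : IsSelfAdjoint P
  rankOne : Module.finrank ℂ (LinearMap.range P.toLinearMap) = 1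
  skew0 : ContinuousLinearMap.adjoint L0 = -L0
  skew : ContinuousLinearMap.adjoint L = -L
  offQ : (1 - P) * L * (1 - P) = 0

end Pool.Agent.H39.WC
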