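import Mathlib
import Pool.Agent.H39.WCMain

set_option autoImplicit false
open MeasureTheory Filter Topology Set Asymptotics
open scoped InnerProductSpace

namespace Pool.Agent.H39.WC

/-! Real-variable estimate for the Volterra equation `a' = -ε ∫_0^t a(s) g(t-s) ds`. -/

section Volterra

variable {g : ℝ → ℝ} {C : ℝ}

/-- tail of the kernel -/
noncomputable def tl (g : ℝ → ℝ) (t : ℝ) : ℝ := mass g - ∫ s in (0:ℝ)..t, g s

theorem hasDerivAt_tl (hg : Continuous g) (t : ℝ) : HasDerivAt (tl g) (-g t) t := by
  have h1 : HasDerivAt (fun T => ∫ s in (0:ℝ)..T, g s) (g t) t :=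
    intervalIntegral.integral_hasDerivAt_right (hg.intervalIntegrable _ _)
      (hg.stronglyMeasurableAtFilter _ _) hg.continuousAt
  have h2 : HasDerivAt (tl g) (0 - g t) t := (hasDerivAt_const t (mass g)).sub h1
  rw [zero_sub] at h2
  exact h2

theorem continuous_tl (hg : Continuous g) : Continuous (tl g) :=
  continuous_iff_continuousAt.2 fun t => (hasDerivAt_tl hg t).continuousAt

theorem tl_nonneg (hk : IsKernel g C) {t : ℝ} (ht : 0 ≤ t) : 0 ≤ tl g t := by
  unfold tl
  rw [mass_split hk ht]
  linarith [tail_nonneg hk t]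

theorem tl_zero : tl g 0 = mass g := by simp [tl]

theorem defect_one (hk : IsKernel g C) (T : ℝ) : defect g 1 T = ∫ s in (0:ℝ)..T, tl g s := by
  unfold defect
  apply intervalIntegral.integral_congr
  intro s _
  simp only [pow_one, tl, gam, one_mul]
  rw [integral_refl]

theorem volterra_main (hk : IsKernel g C) (ε : ℝ) (hε : 0 ≤ ε) (a : ℝ → ℂ)
    (ha0 : a 0 = 1) (hacont : Continuous a)
    (hder : ∀ t, HasDerivAt a (-(ε : ℂ) * ∫ s in (0:ℝ)..t, a s * (g (t - s) : ℂ)) t)
    (hbd : ∀ t, ‖a t‖ ≤ 1) (T : ℝ) (hT : 0 ≤ T) :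
    ε * defect g 1 T * (1 - mass g * (ε * T) * Real.exp (mass g * (ε * T))) ≤
        ‖(Real.exp (mass g * (ε * T)) : ℂ) * a T - 1‖ ∧
    ‖(Real.exp (mass g * (ε * T)) : ℂ) * a T - 1‖ ≤
        ε * defect g 1 T * (Real.exp (mass g * (ε * T)) * (1 + mass g * (ε * T))) := by
  set G := mass g with hG
  have hG0 : 0 ≤ G := mass_nonneg hk
  have hgc := hk.cont
  have htlc := continuous_tl hgc
  -- the memory term
  let c : ℝ → ℂ := fun t => ∫ s in (0:ℝ)..t, a s * (g (t - s) : ℂ)
  have hcc : Continuous c := by
    apply intervalIntegral.continuous_parametric_intervalIntegral_of_continuous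
    · show Continuous (fun p : ℝ × ℝ => a p.2 * (g (p.1 - p.2) : ℂ))
      exact (hacont.comp continuous_snd).mul (Complex.continuous_ofReal.comp
        (hgc.comp (continuous_fst.sub continuous_snd)))
    · exact continuous_id
  have hcb : ∀ t, 0 ≤ t → ‖c t‖ ≤ G := by
    intro t ht
    calc ‖c t‖ ≤ ∫ s in (0:ℝ)..t, ‖a s * (g (t - s) : ℂ)‖ :=
          intervalIntegral.norm_integral_le_integral_norm ht
      _ ≤ ∫ s in (0:ℝ)..t, g (t - s) := by
          apply intervalIntegral.integral_mono_on ht
          · exact ((hacont.mul (Complex.continuous_ofReal.comp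
              (hgc.comp (continuous_const.sub continuous_id)))).norm).intervalIntegrable _ _
          · exact (hgc.comp (continuous_const.sub continuous_id)).intervalIntegrable _ _
          · intro s _
            rw [norm_mul, Complex.norm_real, Real.norm_eq_abs, abs_of_nonneg (hk.nonneg _)]
            calc ‖a s‖ * g (t - s) ≤ 1 * g (t - s) :=
                  mul_le_mul_of_nonneg_right (hbd s) (hk.nonneg _)
              _ = g (t - s) := one_mul _
      _ = ∫ s in (0:ℝ)..t, g s := integral_refl t
      _ ≤ G := by rw [hG, mass_split hk ht]; linarith [tail_nonneg hk t]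
  -- derivative of a
  let a' : ℝ → ℂ := fun t => -(ε : ℂ) * c t
  have ha' : ∀ t, HasDerivAt a (a' t) t := hder
  have ha'c : Continuous a' := continuous_const.mul hcc
  have ha'b : ∀ t, 0 ≤ t → ‖a' t‖ ≤ ε * G := by
    intro t ht
    simp only [a', norm_mul, norm_neg, Complex.norm_real, Real.norm_eq_abs, abs_of_nonneg hε]
    exact mul_le_mul_of_nonneg_left (hcb t ht) hε
  -- integration by parts
  let k : ℝ → ℂ := fun t => ∫ s in (0:ℝ)..t, (tl g (t - s) : ℂ) * a' s
  have hkc : Continuous k := by
    apply intervalIntegral.continuous_parametric_intervalIntegral_of_continuous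
    · show Continuous (fun p : ℝ × ℝ => (tl g (p.1 - p.2) : ℂ) * a' p.2)
      exact (Complex.continuous_ofReal.comp (htlc.comp (continuous_fst.sub continuous_snd))).mul
        (ha'c.comp continuous_snd)
    · exact continuous_id
  have hparts : ∀ t, c t = G * a t - tl g t - k t := by
    intro t
    have hd : ∀ s, HasDerivAt (fun s => (tl g (t - s) : ℂ) * a s)
        ((g (t - s) : ℂ) * a s + (tl g (t - s) : ℂ) * a' s) s := by
      intro s
      have h1 : HasDerivAt (fun s => tl g (t - s)) (g (t - s)) s := by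
        have h2 : HasDerivAt (fun s => tl g (t - s)) (-g (t - s) * (-1)) s :=
          (hasDerivAt_tl hgc (t - s)).comp s ((hasDerivAt_id s).const_sub t)
        have e : -g (t - s) * (-1) = g (t - s) := by ring
        rw [e] at h2
        exact h2
      exact h1.ofReal_comp.mul (ha' s)
    have hI := intervalIntegral.integral_eq_sub_of_hasDerivAt (a := 0) (b := t)
      (fun s _ => hd s) (by
        apply Continuous.intervalIntegrable
        exact ((Complex.continuous_ofReal.comp (hgc.comp (continuous_const.sub continuous_id))).mul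
          hacont).add ((Complex.continuous_ofReal.comp
            (htlc.comp (continuous_const.sub continuous_id))).mul ha'c))
    rw [intervalIntegral.integral_add] at hI
    · simp only [sub_self, sub_zero, tl_zero, ha0, mul_one] at hI
      have e1 : (∫ s in (0:ℝ)..t, (g (t - s) : ℂ) * a s) = c t := by
        apply intervalIntegral.integral_congr
        intro s _
        simp only
        ring
      rw [e1] at hI
      show c t = G * a t - tl g t - ∫ s in (0:ℝ)..t, (tl g (t - s) : ℂ) * a' s
      rw [hG, ← sub_eq_zero]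
      rw [← sub_eq_zero] at hI
      rw [← hI]
      ring
    · exact ((Complex.continuous_ofReal.comp (hgc.comp (continuous_const.sub continuous_id))).mul
          hacont).intervalIntegrable _ _
    · exact ((Complex.continuous_ofReal.comp
            (htlc.comp (continuous_const.sub continuous_id))).mul ha'c).intervalIntegrable _ _
  have hDmono : ∀ t, 0 ≤ t → t ≤ T → (∫ s in (0:ℝ)..t, tl g s) ≤ defect g 1 T := by
    intro t ht htT
    rw [defect_one hk, ← intervalIntegral.integral_add_adjacent_intervals
      (htlc.intervalIntegrable 0 t) (htlc.intervalIntegrable t T)]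
    have : 0 ≤ ∫ s in t..T, tl g s := intervalIntegral.integral_nonneg htT
      (fun u hu => tl_nonneg hk (ht.trans hu.1))
    linarith
  have hkb : ∀ t, 0 ≤ t → t ≤ T → ‖k t‖ ≤ ε * G * defect g 1 T := by
    intro t ht htT
    calc ‖k t‖ ≤ ∫ s in (0:ℝ)..t, ‖(tl g (t - s) : ℂ) * a' s‖ :=
          intervalIntegral.norm_integral_le_integral_norm ht
      _ ≤ ∫ s in (0:ℝ)..t, tl g (t - s) * (ε * G) := by
          apply intervalIntegral.integral_mono_on ht
          · exact (((Complex.continuous_ofReal.comp
              (htlc.comp (continuous_const.sub continuous_id))).mul ha'c).norm).intervalIntegrable _ _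
          · exact ((htlc.comp (continuous_const.sub continuous_id)).mul
              continuous_const).intervalIntegrable _ _
          · intro s hs
            have h0 : 0 ≤ tl g (t - s) := tl_nonneg hk (by linarith [hs.2])
            rw [norm_mul, Complex.norm_real, Real.norm_eq_abs, abs_of_nonneg h0]
            exact mul_le_mul_of_nonneg_left (ha'b s hs.1) h0
      _ = (∫ s in (0:ℝ)..t, tl g s) * (ε * G) := by
          rw [intervalIntegral.integral_mul_const, integral_refl]
      _ ≤ defect g 1 T * (ε * G) :=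
          mul_le_mul_of_nonneg_right (hDmono t ht htT) (mul_nonneg hε hG0)
      _ = _ := by ring
  -- the function b
  have hb : ∀ t : ℝ, HasDerivAt (fun t : ℝ => (Real.exp (G * (ε * t)) : ℂ) * a t)
      ((Real.exp (G * (ε * t)) : ℂ) * ((ε : ℂ) * (tl g t + k t))) t := by
    intro t
    have h1 : HasDerivAt (fun t : ℝ => Real.exp (G * (ε * t))) (Real.exp (G * (ε * t)) * (G * ε)) t := by
      have h2 : HasDerivAt (fun t : ℝ => G * (ε * t)) (G * ε) t := by
        have := ((hasDerivAt_id t).const_mul ε).const_mul G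
        simpa using this
      exact h2.exp
    have h3 : HasDerivAt (fun t : ℝ => (Real.exp (G * (ε * t)) : ℂ) * a t)
      (((Real.exp (G * (ε * t)) * (G * ε) : ℝ) : ℂ) * a t +
        (Real.exp (G * (ε * t)) : ℂ) * a' t) t := h1.ofReal_comp.mul (ha' t)
    have e : (((Real.exp (G * (ε * t)) * (G * ε) : ℝ) : ℂ) * a t +
        (Real.exp (G * (ε * t)) : ℂ) * a' t) =
        (Real.exp (G * (ε * t)) : ℂ) * ((ε : ℂ) * (tl g t + k t)) := by
      show (((Real.exp (G * (ε * t)) * (G * ε) : ℝ) : ℂ) * a t +
        (Real.exp (G * (ε * t)) : ℂ) * (-(ε : ℂ) * c t)) = _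
      rw [hparts t]
      push_cast
      ring
    rw [e] at h3
    exact h3
  have hbint : (Real.exp (G * (ε * T)) : ℂ) * a T - 1 =
      ∫ t in (0:ℝ)..T, (Real.exp (G * (ε * t)) : ℂ) * ((ε : ℂ) * (tl g t + k t)) := by
    rw [intervalIntegral.integral_eq_sub_of_hasDerivAt (fun s _ => hb s)]
    · simp [ha0]
    · apply Continuous.intervalIntegrable
      fun_prop
  have hsplit : (Real.exp (G * (ε * T)) : ℂ) * a T - 1 =
      ((∫ t in (0:ℝ)..T, Real.exp (G * (ε * t)) * (ε * tl g t) : ℝ) : ℂ) +
      ∫ t in (0:ℝ)..T, (Real.exp (G * (ε * t)) : ℂ) * ((ε : ℂ) * k t) := by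
    rw [hbint, ← intervalIntegral.integral_ofReal, ← intervalIntegral.integral_add]
    · apply intervalIntegral.integral_congr
      intro s _
      simp only
      push_cast
      ring
    · apply Continuous.intervalIntegrable
      fun_prop
    · apply Continuous.intervalIntegrable
      fun_prop
  have hD0 : 0 ≤ defect g 1 T := defect_nonneg hk 1 hT
  have hexp1 : ∀ t, 0 ≤ t → 1 ≤ Real.exp (G * (ε * t)) := fun t ht =>
    Real.one_le_exp (mul_nonneg hG0 (mul_nonneg hε ht))
  have hexpT : ∀ t, t ≤ T → Real.exp (G * (ε * t)) ≤ Real.exp (G * (ε * T)) := fun t ht =>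
    Real.exp_le_exp.2 (mul_le_mul_of_nonneg_left (mul_le_mul_of_nonneg_left ht hε) hG0)
  have hI1lo : ε * defect g 1 T ≤ ∫ t in (0:ℝ)..T, Real.exp (G * (ε * t)) * (ε * tl g t) := by
    rw [defect_one hk, ← intervalIntegral.integral_const_mul]
    apply intervalIntegral.integral_mono_on hT
    · exact (continuous_const.mul htlc).intervalIntegrable _ _
    · apply Continuous.intervalIntegrable; fun_prop
    · intro s hs
      have h0 : 0 ≤ ε * tl g s := mul_nonneg hε (tl_nonneg hk hs.1)
      calc ε * tl g s = 1 * (ε * tl g s) := (one_mul _).symm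
        _ ≤ _ := mul_le_mul_of_nonneg_right (hexp1 s hs.1) h0
  have hI1hi : (∫ t in (0:ℝ)..T, Real.exp (G * (ε * t)) * (ε * tl g t)) ≤
      Real.exp (G * (ε * T)) * (ε * defect g 1 T) := by
    rw [defect_one hk, ← intervalIntegral.integral_const_mul, ← intervalIntegral.integral_const_mul]
    apply intervalIntegral.integral_mono_on hT
    · apply Continuous.intervalIntegrable; fun_prop
    · apply Continuous.intervalIntegrable; fun_prop
    · intro s hs
      have h0 : 0 ≤ ε * tl g s := mul_nonneg hε (tl_nonneg hk hs.1)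
      exact mul_le_mul_of_nonneg_right (hexpT s hs.2) h0
  have hI2 : ‖∫ t in (0:ℝ)..T, (Real.exp (G * (ε * t)) : ℂ) * ((ε : ℂ) * k t)‖ ≤
      Real.exp (G * (ε * T)) * (ε * (ε * G * defect g 1 T)) * T := by
    have := intervalIntegral.norm_integral_le_of_norm_le_const (a := 0) (b := T)
      (C := Real.exp (G * (ε * T)) * (ε * (ε * G * defect g 1 T)))
      (f := fun t : ℝ => (Real.exp (G * (ε * t)) : ℂ) * ((ε : ℂ) * k t)) (by
        intro s hs
        rw [uIoc_of_le hT] at hs
        rw [norm_mul, norm_mul, Complex.norm_real, Complex.norm_real, Real.norm_eq_abs,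
          Real.norm_eq_abs, abs_of_pos (Real.exp_pos _), abs_of_nonneg hε]
        apply mul_le_mul (hexpT s hs.2) _ (by positivity) (Real.exp_pos _).le
        exact mul_le_mul_of_nonneg_left (hkb s hs.1.le hs.2) hε)
    rwa [sub_zero, abs_of_nonneg hT] at this
  have hI1n : ‖((∫ t in (0:ℝ)..T, Real.exp (G * (ε * t)) * (ε * tl g t) : ℝ) : ℂ)‖ =
      ∫ t in (0:ℝ)..T, Real.exp (G * (ε * t)) * (ε * tl g t) := by
    rw [Complex.norm_real, Real.norm_eq_abs, abs_of_nonneg]
    exact le_trans (mul_nonneg hε hD0) hI1lo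
  constructor
  · rw [hsplit]
    have h1 := norm_sub_le_norm_add
      ((∫ t in (0:ℝ)..T, Real.exp (G * (ε * t)) * (ε * tl g t) : ℝ) : ℂ)
      (∫ t in (0:ℝ)..T, (Real.exp (G * (ε * t)) : ℂ) * ((ε : ℂ) * k t))
    rw [hI1n] at h1
    nlinarith
  · rw [hsplit]
    have h1 := norm_add_le
      ((∫ t in (0:ℝ)..T, Real.exp (G * (ε * t)) * (ε * tl g t) : ℝ) : ℂ)
      (∫ t in (0:ℝ)..T, (Real.exp (G * (ε * t)) : ℂ) * ((ε : ℂ) * k t))
    rw [hI1n] at h1
    nlinarith

end Volterra

end Pool.Agent.H39.WC
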