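import Mathlib
import Pool.Agent.H39.WCFriedA
import Pool.Agent.H39.WCAbs

set_option autoImplicit false
open MeasureTheory Filter Topology Set Asymptotics
open scoped InnerProductSpace

namespace Pool.Agent.H39.WC

section Hilbert

variable {H : Type} [NormedAddCommGroup H] [InnerProductSpace ℂ H] [CompleteSpace H]

theorem hasDerivAt_sgrp_apply (A : H →L[ℂ] H) (x : H) (t : ℝ) :
    HasDerivAt (fun u : ℝ => sgrp A u x) (A (sgrp A t x)) t := by
  have h : HasDerivAt (fun u : ℝ => NormedSpace.exp (u • A)) (A * NormedSpace.exp (t • A)) t :=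
    hasDerivAt_exp_smul_const' A t
  have e : (fun u : ℝ => sgrp A u) = fun u : ℝ => NormedSpace.exp (u • A) := by
    funext u; simp only [sgrp, Complex.coe_smul]
  have h1 : HasDerivAt (fun u : ℝ => sgrp A u) (A * sgrp A t) t := by
    rw [e]; simpa only [sgrp, Complex.coe_smul] using h
  have h2 : HasDerivAt (fun u => (ContinuousLinearMap.restrictScalars ℝ (sgrp A u)))
      (ContinuousLinearMap.restrictScalars ℝ (A * sgrp A t)) t := by
    have h3 := ((ContinuousLinearMap.restrictScalarsL ℂ H H ℝ ℝ).hasFDerivAt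
      (x := sgrp A t)).comp_hasDerivAt t h1
    exact h3
  have h4 := h2.clm_apply (hasDerivAt_const t x)
  have e2 : (ContinuousLinearMap.restrictScalars ℝ (A * sgrp A t)) x +
      (ContinuousLinearMap.restrictScalars ℝ (sgrp A t)) 0 = A (sgrp A t x) := by
    rw [map_zero, add_zero]; rfl
  rw [e2] at h4
  exact h4

/-- skew-adjoint bounded operators, in weak form -/
def IsSkew (A : H →L[ℂ] H) : Prop := ∀ x y, ⟪A x, y⟫_ℂ = -⟪x, A y⟫_ℂ

theorem IsSkew.adjoint {A : H →L[ℂ] H} (hA : IsSkew A) : ContinuousLinearMap.adjoint A = -A := by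
  apply ContinuousLinearMap.ext
  intro x
  apply ext_inner_right ℂ
  intro y
  rw [ContinuousLinearMap.adjoint_inner_left]
  show ⟪x, A y⟫_ℂ = ⟪-(A x), y⟫_ℂ
  rw [inner_neg_left, hA, neg_neg]

theorem IsSkew.norm_sgrp {A : H →L[ℂ] H} (hA : IsSkew A) (t : ℝ) (x : H) :
    ‖sgrp A t x‖ = ‖x‖ := by
  have hd : ∀ t, HasDerivAt (fun u : ℝ => ⟪sgrp A u x, sgrp A u x⟫_ℂ) 0 t := by
    intro t
    have h1 := (hasDerivAt_sgrp_apply A x t).inner ℂ (hasDerivAt_sgrp_apply A x t)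
    have e : ⟪sgrp A t x, A (sgrp A t x)⟫_ℂ + ⟪A (sgrp A t x), sgrp A t x⟫_ℂ = 0 := by
      rw [hA]; ring
    rw [e] at h1
    exact h1
  have hc := is_const_of_deriv_eq_zero (f := fun u : ℝ => ⟪sgrp A u x, sgrp A u x⟫_ℂ)
    (fun x => (hd x).differentiableAt) (fun x => (hd x).deriv) t 0
  simp only [sgrp_zero, inner_self_eq_norm_sq_to_K] at hc
  have h2 : ‖sgrp A t x‖ ^ 2 = ‖x‖ ^ 2 := by exact_mod_cast hc
  exact (sq_eq_sq₀ (norm_nonneg _) (norm_nonneg _)).1 h2

/-- the data of the Friedrichs model -/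
structure Fried (L0 : H →L[ℂ] H) (e h : H) : Prop where
  skew : IsSkew L0
  norm_e : ‖e‖ = 1
  orth : ⟪e, h⟫_ℂ = 0
  ker : L0 e = 0
  corr : ∀ s : ℝ, ⟪h, sgrp L0 s h⟫_ℂ = (gK s : ℂ)

/-- orthogonal projection onto `e` -/
noncomputable def Pe (e : H) : H →L[ℂ] H := (innerSL ℂ e).smulRight e

/-- coupling -/
noncomputable def Lc (e h : H) : H →L[ℂ] H :=
  (innerSL ℂ e).smulRight h - (innerSL ℂ h).smulRight e

omit [CompleteSpace H] in
theorem Pe_apply (e x : H) : Pe e x = ⟪e, x⟫_ℂ • e := rfl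

omit [CompleteSpace H] in
theorem Lc_apply (e h x : H) : Lc e h x = ⟪e, x⟫_ℂ • h - ⟪h, x⟫_ℂ • e := rfl

theorem isSkew_Lc (e h : H) : IsSkew (Lc e h) := by
  intro x y
  rw [Lc_apply, Lc_apply, inner_sub_left, inner_sub_right, inner_smul_left, inner_smul_left,
    inner_smul_right, inner_smul_right, inner_conj_symm, inner_conj_symm]
  ring

variable {L0 : H →L[ℂ] H} {e h : H}

theorem Fried.inner_ee (F : Fried L0 e h) : ⟪e, e⟫_ℂ = 1 := by
  rw [inner_self_eq_norm_sq_to_K, F.norm_e]; simp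

theorem Fried.orth' (F : Fried L0 e h) : ⟪h, e⟫_ℂ = 0 := by
  rw [← inner_conj_symm, F.orth, map_zero]

theorem Fried.sgrp_e (F : Fried L0 e h) (t : ℝ) : sgrp L0 t e = e := by
  have h1 := eq_sgrp_of_hasDerivAt L0 (fun _ => e) (by
    intro t
    rw [F.ker]
    exact hasDerivAt_const t e) t
  exact h1.symm

theorem Fried.inner_e_sgrp (F : Fried L0 e h) (t : ℝ) (x : H) : ⟪e, sgrp L0 t x⟫_ℂ = ⟪e, x⟫_ℂ := by
  have hd : ∀ t, HasDerivAt (fun u : ℝ => ⟪e, sgrp L0 u x⟫_ℂ) 0 t := by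
    intro t
    have h1 := (hasDerivAt_const t e).inner ℂ (hasDerivAt_sgrp_apply L0 x t)
    have e : ⟪e, L0 (sgrp L0 t x)⟫_ℂ + ⟪(0 : H), sgrp L0 t x⟫_ℂ = 0 := by
      have := F.skew e (sgrp L0 t x)
      rw [F.ker, inner_zero_left] at this
      rw [inner_zero_left, add_zero]
      exact neg_eq_zero.1 this.symm
    rw [e] at h1
    exact h1
  have hc := is_const_of_deriv_eq_zero (f := fun u : ℝ => ⟪e, sgrp L0 u x⟫_ℂ)
    (fun x => (hd x).differentiableAt) (fun x => (hd x).deriv) t 0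
  simpa [sgrp_zero] using hc

/-- the amplitude -/
noncomputable def amp (L0 : H →L[ℂ] H) (e h : H) (lam t : ℝ) : ℂ :=
  ⟪e, sgrp (L0 + (lam : ℂ) • Lc e h) t e⟫_ℂ

theorem Fried.inner_h (F : Fried L0 e h) (lam T : ℝ) :
    ⟪h, sgrp (L0 + (lam : ℂ) • Lc e h) T e⟫_ℂ =
      (lam : ℂ) * ∫ s in (0:ℝ)..T, amp L0 e h lam s * (gK (T - s) : ℂ) := by
  set A := L0 + (lam : ℂ) • Lc e h with hA
  have hcomm : ∀ (s : ℝ) (x : H), sgrp L0 s (L0 x) = L0 (sgrp L0 s x) := by
    intro s x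
    have : Commute (sgrp L0 s) L0 := by
      unfold sgrp
      exact ((Commute.refl L0).smul_left _).exp_left
    exact congrArg (fun f : H →L[ℂ] H => f x) this
  have hd : ∀ s : ℝ, HasDerivAt (fun s : ℝ => ⟪h, sgrp L0 (T - s) (sgrp A s e)⟫_ℂ)
      ((lam : ℂ) * (amp L0 e h lam s * (gK (T - s) : ℂ))) s := by
    intro s
    have h1 : HasDerivAt (fun u : ℝ => sgrp L0 (T - u)) (-(sgrp L0 (T - s) * L0)) s := by
      have h0 := (hasDerivAt_sgrp L0 (T - s)).scomp s ((hasDerivAt_id s).const_sub T)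
      have e : (-1 : ℝ) • (sgrp L0 (T - s) * L0) = -(sgrp L0 (T - s) * L0) := by rw [neg_one_smul]
      rw [e] at h0
      exact h0
    have h2 : HasDerivAt (fun u => (ContinuousLinearMap.restrictScalars ℝ (sgrp L0 (T - u))))
        (ContinuousLinearMap.restrictScalars ℝ (-(sgrp L0 (T - s) * L0))) s := by
      have h3 := ((ContinuousLinearMap.restrictScalarsL ℂ H H ℝ ℝ).hasFDerivAt
        (x := sgrp L0 (T - s))).comp_hasDerivAt s h1
      exact h3
    have h4 := h2.clm_apply (hasDerivAt_sgrp_apply A e s)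
    have h5 : HasDerivAt (fun u : ℝ => sgrp L0 (T - u) (sgrp A u e))
        ((lam : ℂ) • (amp L0 e h lam s • sgrp L0 (T - s) h -
          ⟪h, sgrp A s e⟫_ℂ • e)) s := by
      have e1 : (ContinuousLinearMap.restrictScalars ℝ (-(sgrp L0 (T - s) * L0))) (sgrp A s e) +
          (ContinuousLinearMap.restrictScalars ℝ (sgrp L0 (T - s))) (A (sgrp A s e)) =
          (lam : ℂ) • (amp L0 e h lam s • sgrp L0 (T - s) h - ⟪h, sgrp A s e⟫_ℂ • e) := by
        show -(sgrp L0 (T - s) (L0 (sgrp A s e))) + sgrp L0 (T - s) (A (sgrp A s e)) = _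
        have e2 : A (sgrp A s e) = L0 (sgrp A s e) + (lam : ℂ) • Lc e h (sgrp A s e) := by
          rw [hA]; rfl
        rw [e2, map_add, map_smul, Lc_apply, map_sub, map_smul, map_smul, F.sgrp_e]
        rw [neg_add_cancel_left]
        rfl
      rw [e1] at h4
      exact h4
    have h6 := (hasDerivAt_const s h).inner ℂ h5
    have e3 : ⟪h, (lam : ℂ) • (amp L0 e h lam s • sgrp L0 (T - s) h -
          ⟪h, sgrp A s e⟫_ℂ • e)⟫_ℂ + ⟪(0 : H), sgrp L0 (T - s) (sgrp A s e)⟫_ℂ =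
          (lam : ℂ) * (amp L0 e h lam s * (gK (T - s) : ℂ)) := by
      rw [inner_zero_left, add_zero, inner_smul_right, inner_sub_right, inner_smul_right,
        inner_smul_right, F.orth', F.corr, mul_zero, sub_zero]
    rw [e3] at h6
    exact h6
  have hampc : Continuous (amp L0 e h lam) := by
    apply continuous_iff_continuousAt.2
    intro t
    exact ((hasDerivAt_const t e).inner ℂ (hasDerivAt_sgrp_apply A e t)).continuousAt
  have hI := intervalIntegral.integral_eq_sub_of_hasDerivAt (a := 0) (b := T)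
      (fun s _ => hd s) (by
        apply Continuous.intervalIntegrable
        exact continuous_const.mul (hampc.mul (Complex.continuous_ofReal.comp
          (continuous_gK.comp (continuous_const.sub continuous_id)))))
  rw [intervalIntegral.integral_const_mul] at hI
  rw [hI]
  simp only [sub_self, sub_zero, sgrp_zero]
  show _ = ⟪h, sgrp A T e⟫_ℂ - ⟪h, sgrp L0 T e⟫_ℂ
  rw [F.sgrp_e, F.orth', sub_zero]

theorem continuous_amp (L0 : H →L[ℂ] H) (e h : H) (lam : ℝ) : Continuous (amp L0 e h lam) := by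
  apply continuous_iff_continuousAt.2
  intro t
  exact ((hasDerivAt_const t e).inner ℂ
    (hasDerivAt_sgrp_apply (L0 + (lam : ℂ) • Lc e h) e t)).continuousAt

theorem Fried.hasDerivAt_amp (F : Fried L0 e h) (lam t : ℝ) :
    HasDerivAt (amp L0 e h lam)
      (-((lam ^ 2 : ℝ) : ℂ) * ∫ s in (0:ℝ)..t, amp L0 e h lam s * (gK (t - s) : ℂ)) t := by
  have h1 := (hasDerivAt_const t e).inner ℂ
    (hasDerivAt_sgrp_apply (L0 + (lam : ℂ) • Lc e h) e t)
  have e1 : ⟪e, (L0 + (lam : ℂ) • Lc e h) (sgrp (L0 + (lam : ℂ) • Lc e h) t e)⟫_ℂ +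
      ⟪(0 : H), sgrp (L0 + (lam : ℂ) • Lc e h) t e⟫_ℂ =
      (-((lam ^ 2 : ℝ) : ℂ) * ∫ s in (0:ℝ)..t, amp L0 e h lam s * (gK (t - s) : ℂ)) := by
    rw [inner_zero_left, add_zero]
    show ⟪e, L0 (sgrp (L0 + (lam : ℂ) • Lc e h) t e) +
      (lam : ℂ) • Lc e h (sgrp (L0 + (lam : ℂ) • Lc e h) t e)⟫_ℂ = _
    rw [inner_add_right, inner_smul_right, Lc_apply, inner_sub_right, inner_smul_right,
      inner_smul_right, F.orth, F.inner_ee, F.inner_h]
    have := F.skew e (sgrp (L0 + (lam : ℂ) • Lc e h) t e)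
    rw [F.ker, inner_zero_left] at this
    rw [neg_eq_zero.1 this.symm]
    push_cast
    ring
  rw [e1] at h1
  exact h1

theorem isSkew_sum (hL0 : IsSkew L0) (lam : ℝ) : IsSkew (L0 + (lam : ℂ) • Lc e h) := by
  intro x y
  show ⟪L0 x + (lam : ℂ) • Lc e h x, y⟫_ℂ = -⟪x, L0 y + (lam : ℂ) • Lc e h y⟫_ℂ
  rw [inner_add_left, inner_add_right, inner_smul_left, inner_smul_right, hL0, isSkew_Lc,
    Complex.conj_ofReal]
  ring

theorem Fried.norm_amp_le (F : Fried L0 e h) (lam t : ℝ) : ‖amp L0 e h lam t‖ ≤ 1 := by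
  unfold amp
  refine (norm_inner_le_norm _ _).trans ?_
  rw [(isSkew_sum F.skew lam).norm_sgrp, F.norm_e, one_mul]

theorem Fried.bounds (F : Fried L0 e h) (lam T : ℝ) (hT : 0 ≤ T) :
    lam ^ 2 * defect gK 1 T * (1 - mass gK * (lam ^ 2 * T) * Real.exp (mass gK * (lam ^ 2 * T))) ≤
        ‖(Real.exp (mass gK * (lam ^ 2 * T)) : ℂ) * amp L0 e h lam T - 1‖ ∧
    ‖(Real.exp (mass gK * (lam ^ 2 * T)) : ℂ) * amp L0 e h lam T - 1‖ ≤
        lam ^ 2 * defect gK 1 T * (Real.exp (mass gK * (lam ^ 2 * T)) * (1 + mass gK * (lam ^ 2 * T))) :=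
  volterra_main isKernel_gK (lam ^ 2) (sq_nonneg _) (amp L0 e h lam)
    (by
      unfold amp
      rw [sgrp_zero]
      exact F.inner_ee)
    (continuous_amp L0 e h lam) (fun t => F.hasDerivAt_amp lam t) (F.norm_amp_le lam) T hT

end Hilbert

end Pool.Agent.H39.WC
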