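import Mathlib
import Pool.Agent.H39.WCFriedB

set_option autoImplicit false
open MeasureTheory Filter Topology Set Asymptotics
open scoped InnerProductSpace

namespace Pool.Agent.H39.WC

variable {H : Type} [NormedAddCommGroup H] [InnerProductSpace ℂ H] [CompleteSpace H]
variable {L0 : H →L[ℂ] H} {e h : H}

theorem Fried.no_analytic (F : Fried L0 e h) {t : ℝ} (ht : 0 < t)
    (hsmall : mass gK * t * Real.exp (mass gK * t) ≤ 1 / 2) {f : ℝ → ℂ} (hf : AnalyticAt ℝ f 0)
    (hO : (fun lam : ℝ => amp L0 e h lam (t / lam ^ 2) - f lam) =O[𝓝[>] 0]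
      (fun lam : ℝ => lam ^ 2)) : False := by
  set G := mass gK with hG
  have hG0 : 0 ≤ G := mass_nonneg isKernel_gK
  set E : ℝ := Real.exp (G * t) with hE
  have hE1 : 0 < E := Real.exp_pos _
  let β : ℝ → ℂ := fun lam => (E : ℂ) * amp L0 e h lam (t / lam ^ 2) - 1
  let f1 : ℝ → ℂ := fun lam => (E : ℂ) * f lam - 1
  have hf1 : AnalyticAt ℝ f1 0 := (analyticAt_const.fun_mul hf).fun_sub analyticAt_const
  have hb : ∀ lam : ℝ, 0 < lam → lam ^ 2 * defect gK 1 (t / lam ^ 2) * (1 / 2) ≤ ‖β lam‖ ∧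
      ‖β lam‖ ≤ lam ^ 2 * defect gK 1 (t / lam ^ 2) * (E * (1 + G * t)) := by
    intro lam hlam
    have hT : 0 ≤ t / lam ^ 2 := by positivity
    have h1 := F.bounds lam (t / lam ^ 2) hT
    have e1 : lam ^ 2 * (t / lam ^ 2) = t := by field_simp
    rw [e1] at h1
    constructor
    · refine le_trans ?_ h1.1
      apply mul_le_mul_of_nonneg_left
      · have := hsmall
        linarith
      · exact mul_nonneg (sq_nonneg _) (defect_nonneg isKernel_gK 1 hT)
    · exact h1.2
  have h1 : (fun lam => β lam - f1 lam) =O[𝓝[>] 0] (fun lam : ℝ => lam ^ 2) := by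
    have h2 := hO.const_mul_left (E : ℂ)
    refine h2.congr_left ?_
    intro lam
    simp only [β, f1]
    ring
  obtain ⟨K, hK0, hK⟩ := defect_upper isKernel_gK 1
  have h2 : β =o[𝓝[>] 0] (fun lam : ℝ => lam ^ 1) := by
    have h3 : β =O[𝓝[>] 0] (fun lam : ℝ => lam ^ 1 * (lam * Real.log (1 + t / lam ^ 2))) := by
      apply IsBigO.of_bound (K * (E * (1 + G * t)))
      filter_upwards [self_mem_nhdsWithin] with lam hlam
      have h0 : (0:ℝ) < lam := hlam
      have hT : 0 ≤ t / lam ^ 2 := by positivity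
      have hlog : 0 ≤ Real.log (1 + t / lam ^ 2) := Real.log_nonneg (by linarith)
      refine (hb lam h0).2.trans ?_
      rw [Real.norm_eq_abs, abs_of_nonneg (by positivity)]
      have hc : 0 ≤ E * (1 + G * t) := by positivity
      calc lam ^ 2 * defect gK 1 (t / lam ^ 2) * (E * (1 + G * t))
          ≤ lam ^ 2 * (K * Real.log (1 + t / lam ^ 2)) * (E * (1 + G * t)) := by
            apply mul_le_mul_of_nonneg_right _ hc
            exact mul_le_mul_of_nonneg_left (hK _ hT) (by positivity)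
        _ = _ := by ring
    refine h3.trans_isLittleO ?_
    have := (isBigO_refl (fun lam : ℝ => lam ^ 1) (𝓝[>] 0)).mul_isLittleO (log_littleO t ht)
    simpa using this
  have hpow : (fun lam : ℝ => lam ^ 2) =o[𝓝[>] 0] (fun lam : ℝ => lam ^ 1) := by
    have h3 : (fun lam : ℝ => lam) =o[𝓝[>] 0] (fun _ => (1:ℝ)) := by
      rw [isLittleO_one_iff]
      exact tendsto_id.mono_left nhdsWithin_le_nhds
    have := (isBigO_refl (fun lam : ℝ => lam ^ 1) (𝓝[>] 0)).mul_isLittleO h3
    simpa [pow_succ] using this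
  have h4 : f1 =o[𝓝[>] 0] (fun lam : ℝ => lam ^ 1) := by
    have := h2.sub (h1.trans_isLittleO hpow)
    simpa using this
  have h5 := analytic_gap hf1 1 h4
  have h6 : β =O[𝓝[>] 0] (fun lam : ℝ => lam ^ 2) := by
    have := h1.add h5
    simpa using this
  obtain ⟨c, hc⟩ := h6.bound
  rw [eventually_nhdsWithin_iff, Metric.eventually_nhds_iff] at hc
  obtain ⟨ε, hε, hc⟩ := hc
  obtain ⟨T, hT1, hT2, hT3⟩ := defect_unbounded isKernel_gK 0 (2 * c) (t / (ε / 2) ^ 2)
  have hTpos : 0 < T := lt_of_lt_of_le (by positivity) hT1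
  have hlam0 : 0 < Real.sqrt (t / T) := Real.sqrt_pos.2 (by positivity)
  have hsq : Real.sqrt (t / T) ^ 2 = t / T := Real.sq_sqrt (by positivity)
  have hlam_le : Real.sqrt (t / T) ≤ ε / 2 := by
    rw [Real.sqrt_le_left (by positivity)]
    rw [div_le_iff₀ hTpos]
    rw [div_le_iff₀ (by positivity)] at hT1
    linarith
  have hd := hc (y := Real.sqrt (t / T)) (by
    rw [Real.dist_eq, sub_zero, abs_of_pos hlam0]; linarith) hlam0
  have hlow := (hb _ hlam0).1.trans hd
  rw [Real.norm_eq_abs, abs_of_nonneg (by positivity), hsq] at hlow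
  have hTT : t / (t / T) = T := by field_simp
  rw [hTT] at hlow
  have hpp : 0 < t / T := by positivity
  have h7 : (t / T) * (defect gK 1 T * (1 / 2)) ≤ (t / T) * c := by
    linarith
  have := le_of_mul_le_mul_left h7 hpp
  have h8 : defect gK (0 + 1) T = defect gK 1 T := rfl
  rw [h8] at hT3
  linarith

theorem Fried.proj (F : Fried L0 e h) : Pe e * Pe e = Pe e := by
  apply ContinuousLinearMap.ext
  intro x
  show Pe e (Pe e x) = Pe e x
  rw [Pe_apply, Pe_apply, inner_smul_right, F.inner_ee, mul_one]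

omit [CompleteSpace H] in
theorem range_Pe_le (e : H) : LinearMap.range (Pe e).toLinearMap ≤ Submodule.span ℂ {e} := by
  rintro _ ⟨x, rfl⟩
  show Pe e x ∈ _
  rw [Pe_apply]
  exact Submodule.smul_mem _ _ (Submodule.mem_span_singleton_self e)

theorem Fried.range_Pe (F : Fried L0 e h) :
    LinearMap.range (Pe e).toLinearMap = Submodule.span ℂ {e} := by
  apply le_antisymm (range_Pe_le e)
  rw [Submodule.span_singleton_le_iff_mem]
  refine ⟨e, ?_⟩
  show Pe e e = e
  rw [Pe_apply, F.inner_ee, one_smul]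

theorem Fried.setting (F : Fried L0 e h) : Setting (Pe e) L0 (Lc e h) where
  proj := F.proj
  finiteRank := by
    rw [F.range_Pe]
    infer_instance
  isometric := fun t x => F.skew.norm_sgrp t x
  invariant := fun t => by
    apply ContinuousLinearMap.ext
    intro x
    show sgrp L0 t (Pe e x) = Pe e (sgrp L0 t x)
    rw [Pe_apply, Pe_apply, map_smul, F.sgrp_e, F.inner_e_sgrp]
  offDiagonal := by
    apply ContinuousLinearMap.ext
    intro x
    show Pe e (Lc e h (Pe e x)) = 0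
    rw [Pe_apply, Pe_apply, map_smul, inner_smul_right, Lc_apply, inner_sub_right,
      inner_smul_right, inner_smul_right, F.orth, F.orth']
    simp

theorem Fried.finrank (F : Fried L0 e h) :
    Module.finrank ℂ (LinearMap.range (Pe e).toLinearMap) = 1 := by
  rw [F.range_Pe]
  apply finrank_span_singleton
  intro h0
  have := F.norm_e
  rw [h0, norm_zero] at this
  exact zero_ne_one this

theorem isSelfAdjoint_Pe (e : H) : IsSelfAdjoint (Pe e) := by
  rw [ContinuousLinearMap.isSelfAdjoint_iff_isSymmetric]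
  intro x y
  show ⟪Pe e x, y⟫_ℂ = ⟪x, Pe e y⟫_ℂ
  rw [Pe_apply, Pe_apply, inner_smul_left, inner_smul_right, inner_conj_symm]
  ring

theorem Fried.offQ (F : Fried L0 e h) : (1 - Pe e) * Lc e h * (1 - Pe e) = 0 := by
  apply ContinuousLinearMap.ext
  intro x
  show (1 - Pe e) (Lc e h ((1 - Pe e) x)) = 0
  have h1 : ∀ y : H, (1 - Pe e) y = y - ⟪e, y⟫_ℂ • e := fun y => rfl
  have h2 : ⟪e, (1 - Pe e) x⟫_ℂ = 0 := by
    rw [h1, inner_sub_right, inner_smul_right, F.inner_ee]; ring
  have h3 : (1 - Pe e) e = 0 := by rw [h1, F.inner_ee, one_smul, sub_self]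
  rw [Lc_apply, h2, zero_smul, zero_sub, map_neg, map_smul, h3, smul_zero, neg_zero]

theorem Fried.PLLP (F : Fried L0 e h) (t s : ℝ) :
    Pe e * (inter L0 (Lc e h) t * inter L0 (Lc e h) s) * Pe e = (-(gK (t - s) : ℂ)) • Pe e := by
  apply ContinuousLinearMap.ext
  intro x
  show Pe e (sgrp L0 (-t) (Lc e h (sgrp L0 t (sgrp L0 (-s) (Lc e h (sgrp L0 s (Pe e x))))))) =
    (-(gK (t - s) : ℂ)) • Pe e x
  have h1 : ∀ y, sgrp L0 t (sgrp L0 (-s) y) = sgrp L0 (t - s) y := by
    intro y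
    rw [sub_eq_add_neg, sgrp_add]; rfl
  have h2 : Lc e h e = h := by
    rw [Lc_apply, F.inner_ee, F.orth']; simp
  have h3 : Lc e h (sgrp L0 (t - s) h) = -(gK (t - s) : ℂ) • e := by
    rw [Lc_apply, F.inner_e_sgrp, F.orth, F.corr]; simp
  rw [Pe_apply e x, map_smul, F.sgrp_e, map_smul, h2, map_smul, map_smul, h1, map_smul, h3,
    map_smul, map_smul, map_smul (sgrp L0 (-t)), F.sgrp_e, map_smul, Pe_apply, F.inner_ee,
    one_smul, smul_comm]

theorem Fried.integrable (F : Fried L0 e h) : IntegrableRelative (Pe e) L0 (Lc e h) 1 := by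
  intro t
  have h0 : (fun τ : Fin 1 → ℝ => ‖Pe e * (inter L0 (Lc e h) t *
      (List.ofFn fun i => inter L0 (Lc e h) (τ i)).prod) * Pe e‖) =
      fun τ => cprod (t :: List.ofFn τ) * ‖Pe e‖ := by
    funext τ
    have h1 : (List.ofFn fun i => inter L0 (Lc e h) (τ i)).prod = inter L0 (Lc e h) (τ 0) := by
      simp
    rw [h1, F.PLLP, norm_smul, norm_neg, Complex.norm_real, Real.norm_eq_abs,
      abs_of_nonneg (gK_nonneg _)]
    simp [cprod]
  rw [h0]
  exact ((cprod_int 1 t).1.mul_const _).integrableOn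

theorem Fried.no_asymp (F : Fried L0 e h) {t : ℝ} (ht : 0 < t)
    (hsmall : mass gK * t * Real.exp (mass gK * t) ≤ 1 / 2) :
    ¬ HasPolyAsymptotics (Pe e) L0 (Lc e h) 2 t := by
  rintro ⟨a, b, G, R, hO⟩
  have hfd : FiniteDimensional ℂ (LinearMap.range (Pe e).toLinearMap) := F.setting.finiteRank
  have : CompleteSpace (LinearMap.range (Pe e).toLinearMap) :=
    FiniteDimensional.complete ℂ _
  have he0 : Pe e e = e := by rw [Pe_apply, F.inner_ee, one_smul]
  have h1 := abs_isBigO (evl ((innerSL ℂ e).comp (LinearMap.range (Pe e).toLinearMap).subtypeL)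
    (⟨e, ⟨e, he0⟩⟩ : LinearMap.range (Pe e).toLinearMap)) _ _ _ hO
  have hF := analytic_approx G R t
    (evl ((innerSL ℂ e).comp (LinearMap.range (Pe e).toLinearMap).subtypeL)
    (⟨e, ⟨e, he0⟩⟩ : LinearMap.range (Pe e).toLinearMap))
  apply F.no_analytic ht hsmall hF
  refine h1.congr_left ?_
  intro lam
  congr 1
  show ⟪e, Pe e (sgrp L0 (-(t / lam ^ 2)) (sgrp (L0 + (lam : ℂ) • Lc e h) (t / lam ^ 2) e))⟫_ℂ =
    amp L0 e h lam (t / lam ^ 2)
  rw [Pe_apply, inner_smul_right, F.inner_ee, mul_one, F.inner_e_sgrp]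
  rfl

theorem exists_small : ∃ t0 : ℝ, 0 < t0 ∧ ∀ t, 0 < t → t < t0 →
    mass gK * t * Real.exp (mass gK * t) ≤ 1 / 2 := by
  have hG0 : 0 < mass gK := mass_pos isKernel_gK
  have hc : Continuous (fun t : ℝ => mass gK * t * Real.exp (mass gK * t)) := by fun_prop
  have h0 : Tendsto (fun t : ℝ => mass gK * t * Real.exp (mass gK * t)) (𝓝 0) (𝓝 0) := by
    have := hc.tendsto 0
    simpa using this
  have h1 : ∀ᶠ t in 𝓝 (0:ℝ), mass gK * t * Real.exp (mass gK * t) < 1 / 2 :=
    h0.eventually (gt_mem_nhds (by norm_num))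
  rw [Metric.eventually_nhds_iff] at h1
  obtain ⟨ε, hε, h⟩ := h1
  refine ⟨ε, hε, fun t ht1 ht2 => (h ?_).le⟩
  rw [Real.dist_eq, sub_zero, abs_of_pos ht1]
  exact ht2

end Pool.Agent.H39.WC
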