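import Mathlib
import Pool.Agent.H39.WCFriedC

set_option autoImplicit false
open MeasureTheory Filter Topology Set Asymptotics
open scoped InnerProductSpace ENNReal

namespace Pool.Agent.H39.WC

/-- the corner point -/
noncomputable def p0 : KK := (0, 0)

/-- Lebesgue measure on the square plus a unit mass at the corner -/
noncomputable def mu0 : Measure KK := volume + Measure.dirac p0

instance : IsFiniteMeasure mu0 := by unfold mu0; infer_instance

/-- the Hilbert space -/
abbrev HH : Type := Lp ℂ 2 mu0

theorem volume_p0 : (volume : Measure KK) {p0} = 0 := by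
  have : ({p0} : Set KK) = {(0 : unitInterval)} ×ˢ {(0 : unitInterval)} := by
    ext x; simp [p0, Prod.ext_iff]
  rw [this]
  have h := Measure.prod_prod (μ := (volume : Measure unitInterval))
    (ν := (volume : Measure unitInterval)) {(0 : unitInterval)} {(0 : unitInterval)}
  have h2 : (volume : Measure KK) = (volume : Measure unitInterval).prod volume := rfl
  rw [h2, h]
  simp

theorem mu0_p0 : mu0 {p0} = 1 := by
  unfold mu0
  rw [Measure.add_apply, volume_p0, Measure.dirac_apply' _ (measurableSet_singleton _)]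
  simp

/-- inclusion of continuous functions -/
noncomputable def iot : C(KK, ℂ) →L[ℂ] HH := ContinuousMap.toLp 2 mu0 ℂ

theorem coeFn_iot (f : C(KK, ℂ)) : iot f =ᵐ[mu0] f := ContinuousMap.coeFn_toLp mu0 f

theorem memLp_mul (x : HH) : MemLp (fun p => wf p * x p) 2 mu0 := by
  have h1 : MemLp (fun p => wf p) ∞ mu0 := by
    apply memLp_top_of_bound wf.continuous.aestronglyMeasurable ‖wf‖
    exact ae_of_all _ fun p => wf.norm_coe_le_norm p
  exact (Lp.memLp x).mul h1

/-- multiplication by `wf` -/
noncomputable def mulL : HH →L[ℂ] HH :=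
  LinearMap.mkContinuous
    { toFun := fun x => (memLp_mul x).toLp _
      map_add' := by
        intro x y
        rw [← MemLp.toLp_add]
        apply MemLp.toLp_congr
        filter_upwards [Lp.coeFn_add x y] with p hp
        rw [hp]
        simp only [Pi.add_apply]
        ring
      map_smul' := by
        intro c x
        rw [RingHom.id_apply, ← MemLp.toLp_const_smul]
        apply MemLp.toLp_congr
        filter_upwards [Lp.coeFn_smul c x] with p hp
        rw [hp]
        simp only [Pi.smul_apply, smul_eq_mul]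
        ring } ‖wf‖ (by
    intro x
    simp only [LinearMap.coe_mk, AddHom.coe_mk]
    apply Lp.norm_le_mul_norm_of_ae_le_mul
    filter_upwards [(memLp_mul x).coeFn_toLp] with p hp
    rw [hp, norm_mul]
    exact mul_le_mul_of_nonneg_right (wf.norm_coe_le_norm p) (norm_nonneg _))

theorem coeFn_mulL (x : HH) : mulL x =ᵐ[mu0] fun p => wf p * x p := (memLp_mul x).coeFn_toLp

theorem conj_wf (p : KK) : (starRingEnd ℂ) (wf p) = - wf p := by
  simp [wf]

theorem isSkew_mulL : IsSkew mulL := by
  intro x y
  rw [L2.inner_def, L2.inner_def, ← integral_neg]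
  apply integral_congr_ae
  filter_upwards [coeFn_mulL x, coeFn_mulL y] with p h1 h2
  rw [h1, h2]
  simp only [RCLike.inner_apply, map_mul, conj_wf]
  ring

theorem mulL_iot (f : C(KK, ℂ)) : mulL (iot f) = iot (wf * f) := by
  apply Lp.ext
  filter_upwards [coeFn_mulL (iot f), coeFn_iot f, coeFn_iot (wf * f)] with p h1 h2 h3
  rw [h1, h2, h3]
  rfl

/-- the unit vector at the atom -/
noncomputable def ee : HH :=
  indicatorConstLp 2 (measurableSet_singleton p0) (measure_ne_top mu0 {p0}) (1 : ℂ)

theorem wf_p0 : wf p0 = 0 := by simp [wf, p0]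

theorem mulL_ee : mulL ee = 0 := by
  apply Lp.ext
  filter_upwards [coeFn_mulL ee, indicatorConstLp_coeFn (p := 2) (hs := measurableSet_singleton p0)
    (hμs := measure_ne_top mu0 {p0}) (c := (1 : ℂ)), Lp.coeFn_zero ℂ 2 mu0] with p h1 h2 h3
  rw [h1, h3]
  unfold ee
  rw [h2]
  by_cases hp : p = p0
  · rw [hp, wf_p0]; simp
  · rw [indicator_of_notMem (by simpa using hp)]
    simp

theorem norm_ee : ‖ee‖ = 1 := by
  unfold ee
  rw [norm_indicatorConstLp (by norm_num) (by norm_num)]
  simp [Measure.real, mu0_p0]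

theorem inner_ee_iot (f : C(KK, ℂ)) : ⟪ee, iot f⟫_ℂ = f p0 := by
  unfold ee
  rw [L2.inner_indicatorConstLp_one]
  have h1 : ∫ x in {p0}, (iot f) x ∂mu0 = ∫ x in {p0}, f x ∂mu0 :=
    integral_congr_ae ((coeFn_iot f).filter_mono (ae_mono Measure.restrict_le_self))
  rw [h1, integral_singleton]
  simp [Measure.real, mu0_p0]

theorem inner_one_iot (f : C(KK, ℂ)) : ⟪iot 1, iot f⟫_ℂ = phi f + f p0 := by
  rw [L2.inner_def]
  have h1 : ∫ a, ⟪(iot 1) a, (iot f) a⟫_ℂ ∂mu0 = ∫ a, f a ∂mu0 := by
    apply integral_congr_ae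
    filter_upwards [coeFn_iot 1, coeFn_iot f] with p h1 h2
    rw [h1, h2]
    simp
  rw [h1, phi_apply]
  unfold mu0
  rw [integral_add_measure, integral_dirac]
  · exact f.continuous.integrable_of_hasCompactSupport (HasCompactSupport.of_compactSpace _)
  · exact f.continuous.integrable_of_hasCompactSupport (HasCompactSupport.of_compactSpace _)

theorem sgrp_iot (s : ℝ) : sgrp mulL s (iot 1) = iot (EE s) := by
  have h := eq_sgrp_of_hasDerivAt mulL (fun s => iot (EE s)) (by
    intro t
    rw [mulL_iot]
    have h2 : HasDerivAt (fun s => (iot.restrictScalars ℝ) (EE s)) ((iot.restrictScalars ℝ) (wf * EE t)) t :=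
      ((iot.restrictScalars ℝ).hasFDerivAt (x := EE t)).comp_hasDerivAt t (hasDerivAt_EE t)
    exact h2) s
  rw [h]
  simp only [EE_zero]

/-- the form factor -/
noncomputable def hh : HH := iot 1 - ee

theorem EE_p0 (s : ℝ) : EE s p0 = 1 := by
  rw [EE_apply]; simp [p0]

theorem sgrp_ee (s : ℝ) : sgrp mulL s ee = ee := by
  have h1 := eq_sgrp_of_hasDerivAt mulL (fun _ => ee) (by
    intro t
    rw [mulL_ee]
    exact hasDerivAt_const t ee) s
  exact h1.symm

theorem fried : Fried mulL ee hh where
  skew := isSkew_mulL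
  norm_e := norm_ee
  orth := by
    unfold hh
    rw [inner_sub_right, inner_ee_iot, inner_self_eq_norm_sq_to_K, norm_ee]
    simp
  ker := mulL_ee
  corr := fun s => by
    unfold hh
    rw [map_sub, sgrp_iot, sgrp_ee, inner_sub_left, inner_sub_right, inner_sub_right,
      inner_one_iot, inner_ee_iot, ← inner_conj_symm (iot 1) ee, inner_ee_iot,
      inner_self_eq_norm_sq_to_K, norm_ee, phi_EE, EE_p0]
    simp

end Pool.Agent.H39.WC
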